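import Pool.Agent.Lib.MP_4a593f_gt.KP.Basic

/-!
Behaviour of the integrand under a change of basis.

Hint for `gb_act`: expand all `ev` (12 summation indices `a : Fin 6 → Fin 6`, `b : Fin 6 → Fin 6`);
`∑_σ sgn σ ∏_i g (σ i) (a i)` is the determinant of `of g` with columns `a`, which is
`det g * ∑_σ [a = σ] sgn σ` (zero if `a` is not injective).  It may be easier to do one side at a
time, e.g. through `∑_σ sgn σ ∏ g (σ i) (a i) = det (Matrix.of fun i j => g i (a j))`.
-/

namespace Pool.HopfKP

open Finset Equiv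

/-- components of `R` in the family `g` -/
def act (g : Fin 6 → Vec) (R : Ten) : Ten := fun i j k l => ev R (g i) (g j) (g k) (g l)

/-- linear combination -/
def comb (g : Fin 6 → Vec) (u : Vec) : Vec := fun j => ∑ i, u i * g i j

private theorem ev_t12 (R : Ten) (u v w z : Vec) :
    ev R u v w z = ev (fun i j k l => R j i k l) v u w z := by
  unfold ev
  rw [Finset.sum_comm]
  refine Finset.sum_congr rfl fun i _ => Finset.sum_congr rfl fun j _ =>
    Finset.sum_congr rfl fun k _ => Finset.sum_congr rfl fun l _ => ?_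
  ring

private theorem ev_t23 (R : Ten) (u v w z : Vec) :
    ev R u v w z = ev (fun i j k l => R i k j l) u w v z := by
  unfold ev
  refine Finset.sum_congr rfl fun i _ => ?_
  rw [Finset.sum_comm]
  refine Finset.sum_congr rfl fun j _ =>
    Finset.sum_congr rfl fun k _ => Finset.sum_congr rfl fun l _ => ?_
  ring

private theorem ev_t34 (R : Ten) (u v w z : Vec) :
    ev R u v w z = ev (fun i j k l => R i j l k) u v z w := by
  unfold ev
  refine Finset.sum_congr rfl fun i _ => Finset.sum_congr rfl fun j _ => ?_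
  rw [Finset.sum_comm]
  refine Finset.sum_congr rfl fun k _ => Finset.sum_congr rfl fun l _ => ?_
  ring

private theorem ev_fst (R : Ten) (u v w z : Vec) :
    ev R u v w z = ∑ a, u a * ∑ j, ∑ k, ∑ l, R a j k l * v j * w k * z l := by
  unfold ev
  refine Finset.sum_congr rfl fun a _ => ?_
  simp only [Finset.mul_sum]
  refine Finset.sum_congr rfl fun j _ =>
    Finset.sum_congr rfl fun k _ => Finset.sum_congr rfl fun l _ => ?_
  ring

private theorem lin_comb (L : Vec) (g : Fin 6 → Vec) (u : Vec) :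
    ∑ a, comb g u a * L a = ∑ i, u i * ∑ a, g i a * L a := by
  unfold comb
  simp only [Finset.mul_sum, Finset.sum_mul]
  rw [Finset.sum_comm]
  refine Finset.sum_congr rfl fun i _ => Finset.sum_congr rfl fun a _ => ?_
  ring

private theorem ev_comb1 (g : Fin 6 → Vec) (R : Ten) (u v w z : Vec) :
    ev R (comb g u) v w z = ∑ i, u i * ev R (g i) v w z := by
  rw [ev_fst, lin_comb]
  simp only [← ev_fst]

private theorem ev_comb2 (g : Fin 6 → Vec) (R : Ten) (u v w z : Vec) :
    ev R u (comb g v) w z = ∑ i, v i * ev R u (g i) w z := by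
  rw [ev_t12, ev_comb1]
  refine Finset.sum_congr rfl fun i _ => ?_
  rw [ev_t12 R u]

private theorem ev_comb3 (g : Fin 6 → Vec) (R : Ten) (u v w z : Vec) :
    ev R u v (comb g w) z = ∑ i, w i * ev R u v (g i) z := by
  rw [ev_t23, ev_comb2]
  refine Finset.sum_congr rfl fun i _ => ?_
  rw [ev_t23 R u v]

private theorem ev_comb4 (g : Fin 6 → Vec) (R : Ten) (u v w z : Vec) :
    ev R u v w (comb g z) = ∑ i, z i * ev R u v w (g i) := by
  rw [ev_t34, ev_comb3]
  refine Finset.sum_congr rfl fun i _ => ?_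
  rw [ev_t34 R u v w]

theorem ev_act (g : Fin 6 → Vec) (R : Ten) (u v w z : Vec) :
    ev (act g R) u v w z = ev R (comb g u) (comb g v) (comb g w) (comb g z) := by
  rw [ev_comb1, ev]
  refine Finset.sum_congr rfl fun i _ => ?_
  rw [ev_comb2, Finset.mul_sum]
  refine Finset.sum_congr rfl fun j _ => ?_
  rw [ev_comb3, Finset.mul_sum, Finset.mul_sum]
  refine Finset.sum_congr rfl fun k _ => ?_
  rw [ev_comb4, Finset.mul_sum, Finset.mul_sum, Finset.mul_sum]
  refine Finset.sum_congr rfl fun l _ => ?_
  rw [act]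
  ring

private theorem ev_neg (R : Ten) (u v w z : Vec) :
    ev (fun i j k l => - R i j k l) u v w z = - ev R u v w z := by
  unfold ev
  simp only [neg_mul, Finset.sum_neg_distrib]

private theorem ev_zero3 (R S T : Ten) (u v w z : Vec)
    (h : ∀ i j k l, R i j k l + S i j k l + T i j k l = 0) :
    ev R u v w z + ev S u v w z + ev T u v w z = 0 := by
  unfold ev
  simp only [← Finset.sum_add_distrib]
  refine Finset.sum_eq_zero fun i _ => Finset.sum_eq_zero fun j _ =>
    Finset.sum_eq_zero fun k _ => Finset.sum_eq_zero fun l _ => ?_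
  linear_combination u i * v j * w k * z l * h i j k l

theorem act_curv {g : Fin 6 → Vec} {R : Ten} (hR : IsCurvature R) : IsCurvature (act g R) := by
  refine ⟨fun i j k l => ?_, fun i j k l => ?_, fun i j k l => ?_⟩
  · unfold act
    rw [ev_t12 R, ← ev_neg]
    congr 1
    funext i j k l
    exact hR.skew12 i j k l
  · unfold act
    rw [ev_t34 R, ← ev_neg]
    congr 1
    funext i j k l
    exact hR.skew34 i j k l
  · unfold act
    rw [ev_t23 R (g j), ev_t12 _ (g j), ev_t12 R (g k) (g i), ev_t23 _ (g i) (g k)]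
    exact ev_zero3 _ _ _ _ _ _ _ fun i j k l => hR.bianchi i j k l

/-! ### the integrand -/

/-- product of two vectors -/
private def r1 (u v : Vec) : Arr := fun i j => u i * v j

/-- the family applied to a vector -/
private def mv (g : Fin 6 → Vec) (u : Vec) : Vec := fun i => ∑ a, g i a * u a

private theorem T3_r1 (U : Fin 6 → Vec) :
    T3 (r1 (U 0) (U 1)) (r1 (U 2) (U 3)) (r1 (U 4) (U 5)) =
      (Matrix.of fun i j => U j i).det := by
  rw [Matrix.det_apply]
  unfold T3 r1 sg
  refine Finset.sum_congr rfl fun σ _ => ?_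
  rw [Fin.prod_univ_six, Units.smul_def, zsmul_eq_mul]
  simp only [Matrix.of_apply]
  ring

private theorem T3_mv (g : Fin 6 → Vec) (U : Fin 6 → Vec) :
    T3 (r1 (mv g (U 0)) (mv g (U 1))) (r1 (mv g (U 2)) (mv g (U 3)))
      (r1 (mv g (U 4)) (mv g (U 5))) =
    (Matrix.of g).det * T3 (r1 (U 0) (U 1)) (r1 (U 2) (U 3)) (r1 (U 4) (U 5)) := by
  rw [T3_r1 U, T3_r1 fun i => mv g (U i), ← Matrix.det_mul]
  congr 1

private theorem prod4 (A B C D : Vec) :
    (∑ a, A a) * (∑ b, B b) * ((∑ c, C c) * (∑ d, D d)) =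
      ∑ a, ∑ b, ∑ c, ∑ d, A a * B b * (C c * D d) := by
  simp only [← Finset.mul_sum, ← Finset.sum_mul]

private theorem act_tens (g : Fin 6 → Vec) (u v w z : Vec) :
    act g (tens (r1 u v) (r1 w z)) = tens (r1 (mv g u) (mv g v)) (r1 (mv g w) (mv g z)) := by
  funext i j k l
  unfold act ev tens r1 mv
  rw [prod4]
  refine Finset.sum_congr rfl fun i _ => Finset.sum_congr rfl fun j _ =>
    Finset.sum_congr rfl fun k _ => Finset.sum_congr rfl fun l _ => ?_
  ring

/-- `act g` as a linear map -/
private def actL (g : Fin 6 → Vec) : Ten →ₗ[ℝ] Ten where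
  toFun := act g
  map_add' R S := by
    funext i j k l
    simp only [act, ev, Pi.add_apply, ← Finset.sum_add_distrib]
    refine Finset.sum_congr rfl fun i _ => Finset.sum_congr rfl fun j _ =>
      Finset.sum_congr rfl fun k _ => Finset.sum_congr rfl fun l _ => ?_
    ring
  map_smul' c R := by
    funext i j k l
    simp only [act, ev, Pi.smul_apply, smul_eq_mul, RingHom.id_apply, Finset.mul_sum]
    refine Finset.sum_congr rfl fun i _ => Finset.sum_congr rfl fun j _ =>
      Finset.sum_congr rfl fun k _ => Finset.sum_congr rfl fun l _ => ?_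
    ring

private theorem act_sum {ι : Type*} (s : Finset ι) (g : Fin 6 → Vec) (F : ι → Ten) (c : ι → ℝ) :
    act g (∑ p ∈ s, c p • F p) = ∑ p ∈ s, c p • act g (F p) := by
  have h := map_sum (actL g) (fun p => c p • F p) s
  simp only [map_smul] at h
  exact h

/-- index type of the elementary tensors -/
private abbrev Ix := Fin 6 × Fin 6 × Fin 6 × Fin 6

private def bs (a : Fin 6) : Vec := fun i => if i = a then 1 else 0

/-- elementary tensors -/
private def el (p : Ix) : Ten :=
  tens (r1 (bs p.1) (bs p.2.1)) (r1 (bs p.2.2.1) (bs p.2.2.2))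

private theorem ten_eq (R : Ten) : R = ∑ p : Ix, R p.1 p.2.1 p.2.2.1 p.2.2.2 • el p := by
  funext i j k l
  simp only [Finset.sum_apply, Pi.smul_apply, smul_eq_mul]
  rw [Finset.sum_eq_single (i, j, k, l)]
  · simp [el, tens, r1, bs]
  · rintro ⟨a, b, c, d⟩ - hne
    simp only [el, tens, r1, bs]
    by_cases h1 : i = a
    · by_cases h2 : j = b
      · by_cases h3 : k = c
        · by_cases h4 : l = d
          · exact absurd (by rw [h1, h2, h3, h4]) hne
          · simp [h4]
        · simp [h3]
      · simp [h2]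
    · simp [h1]
  · intro h
    exact absurd (Finset.mem_univ _) h

private theorem gb3_el (g : Fin 6 → Vec) (p q r : Ix) :
    gb3 (act g (el p)) (act g (el q)) (act g (el r)) =
      (Matrix.det (Matrix.of g)) ^ 2 * gb3 (el p) (el q) (el r) := by
  unfold el
  rw [act_tens, act_tens, act_tens, gb3_tens, gb3_tens]
  have h1 := T3_mv g ![bs p.1, bs p.2.1, bs q.1, bs q.2.1, bs r.1, bs r.2.1]
  have h2 := T3_mv g ![bs p.2.2.1, bs p.2.2.2, bs q.2.2.1, bs q.2.2.2, bs r.2.2.1, bs r.2.2.2]
  simp only [Matrix.cons_val] at h1 h2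
  rw [h1, h2]
  ring

private theorem gb3_act (g : Fin 6 → Vec) (R S U : Ten) :
    gb3 (act g R) (act g S) (act g U) = (Matrix.det (Matrix.of g)) ^ 2 * gb3 R S U := by
  have s1 : ∀ (p q : Ix), gb3 (act g (el p)) (act g (el q)) (act g U) =
      (Matrix.det (Matrix.of g)) ^ 2 * gb3 (el p) (el q) U := by
    intro p q
    rw [ten_eq U, act_sum, gb3_sum_right, gb3_sum_right, Finset.mul_sum]
    refine Finset.sum_congr rfl fun r _ => ?_
    rw [gb3_smul_right, gb3_smul_right, gb3_el]
    ring
  have s2 : ∀ (p : Ix), gb3 (act g (el p)) (act g S) (act g U) =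
      (Matrix.det (Matrix.of g)) ^ 2 * gb3 (el p) S U := by
    intro p
    rw [ten_eq S, act_sum, gb3_sum_mid, gb3_sum_mid, Finset.mul_sum]
    refine Finset.sum_congr rfl fun r _ => ?_
    rw [gb3_smul_mid, gb3_smul_mid, s1]
    ring
  rw [ten_eq R, act_sum, gb3_sum_left, gb3_sum_left, Finset.mul_sum]
  refine Finset.sum_congr rfl fun r _ => ?_
  rw [gb3_smul_left, gb3_smul_left, s2]
  ring

theorem gb_act (g : Fin 6 → Vec) (R : Ten) :
    gb (act g R) = (Matrix.det (Matrix.of g)) ^ 2 * gb R := by
  rw [gb_eq, gb_eq, gb3_act]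

end Pool.HopfKP
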