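import Pool.Agent.Lib.MP_4a593f_gt.KP.CoreDefs

/-!
Matrices with image in `a^⊥` which are symmetric on `a^⊥`.

Proof. `alt a N = 0` means that the antisymmetric part `β s t = N s t - N t s` satisfies
`a r β s t + a s β t r + a t β r s = 0` for all `r, s, t`.  Multiply by `a r` and sum over `r`, use
`∑_s N r s a s = 0`: with `w t = ∑_s a s N s t`,
`|a|² (N s t - N t s) = a s w t - w s a t`.  Multiply by `N s t` and sum: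
`|a|² tr (N N) = |a|² |N|² - |w|²`, and `|w|² ≤ |a|² |N|²` (Cauchy-Schwarz in each column).
-/

namespace Pool.HopfKP

open Finset Equiv

private theorem B_aux {a0 a1 a2 a3 w0 w1 A b01 b02 b03 b12 b13 : ℝ}
    (hA : A = a0 ^ 2 + a1 ^ 2 + a2 ^ 2 + a3 ^ 2)
    (f0 : a1 * b01 + a2 * b02 + a3 * b03 = - w0)
    (f1 : - (a0 * b01) + a2 * b12 + a3 * b13 = - w1)
    (e2 : - (a3 * b01) + a1 * b03 - a0 * b13 = 0)
    (e3 : a2 * b01 - a1 * b02 + a0 * b12 = 0) :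
    A * b01 = a0 * w1 - a1 * w0 := by
  rw [hA]
  linear_combination a2 * e3 - a3 * e2 + a1 * f0 - a0 * f1

private theorem col_aux (a0 a1 a2 a3 x0 x1 x2 x3 : ℝ) :
    (a0 * x0 + a1 * x1 + a2 * x2 + a3 * x3) ^ 2 ≤
      (a0 ^ 2 + a1 ^ 2 + a2 ^ 2 + a3 ^ 2) * (x0 ^ 2 + x1 ^ 2 + x2 ^ 2 + x3 ^ 2) := by
  have : (a0 ^ 2 + a1 ^ 2 + a2 ^ 2 + a3 ^ 2) * (x0 ^ 2 + x1 ^ 2 + x2 ^ 2 + x3 ^ 2) -
      (a0 * x0 + a1 * x1 + a2 * x2 + a3 * x3) ^ 2 =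
      (a0 * x1 - a1 * x0) ^ 2 + (a0 * x2 - a2 * x0) ^ 2 + (a0 * x3 - a3 * x0) ^ 2 +
      (a1 * x2 - a2 * x1) ^ 2 + (a1 * x3 - a3 * x1) ^ 2 + (a2 * x3 - a3 * x2) ^ 2 := by ring
  have : 0 ≤ (a0 * x1 - a1 * x0) ^ 2 + (a0 * x2 - a2 * x0) ^ 2 + (a0 * x3 - a3 * x0) ^ 2 +
      (a1 * x2 - a2 * x1) ^ 2 + (a1 * x3 - a3 * x1) ^ 2 + (a2 * x3 - a3 * x2) ^ 2 := by positivity
  linarith

private theorem key_aux {A w0 w1 w2 w3 a0 a1 a2 a3 : ℝ}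
    {n00 n01 n02 n03 n10 n11 n12 n13 n20 n21 n22 n23 n30 n31 n32 n33 : ℝ}
    (r0 : n00 * a0 + n01 * a1 + n02 * a2 + n03 * a3 = 0)
    (r1 : n10 * a0 + n11 * a1 + n12 * a2 + n13 * a3 = 0)
    (r2 : n20 * a0 + n21 * a1 + n22 * a2 + n23 * a3 = 0)
    (r3 : n30 * a0 + n31 * a1 + n32 * a2 + n33 * a3 = 0)
    (g0 : w0 = a0 * n00 + a1 * n10 + a2 * n20 + a3 * n30)
    (g1 : w1 = a0 * n01 + a1 * n11 + a2 * n21 + a3 * n31)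
    (g2 : w2 = a0 * n02 + a1 * n12 + a2 * n22 + a3 * n32)
    (g3 : w3 = a0 * n03 + a1 * n13 + a2 * n23 + a3 * n33)
    (B01 : A * (n01 - n10) = a0 * w1 - a1 * w0)
    (B02 : A * (n02 - n20) = a0 * w2 - a2 * w0)
    (B03 : A * (n03 - n30) = a0 * w3 - a3 * w0)
    (B12 : A * (n12 - n21) = a1 * w2 - a2 * w1)
    (B13 : A * (n13 - n31) = a1 * w3 - a3 * w1)
    (B23 : A * (n23 - n32) = a2 * w3 - a3 * w2) :
    A * (n00 ^ 2 + n11 ^ 2 + n22 ^ 2 + n33 ^ 2 + 2 * (n01 * n10 + n02 * n20 + n03 * n30 +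
      n12 * n21 + n13 * n31 + n23 * n32)) =
    A * (n00 ^ 2 + n10 ^ 2 + n20 ^ 2 + n30 ^ 2 + (n01 ^ 2 + n11 ^ 2 + n21 ^ 2 + n31 ^ 2) +
      (n02 ^ 2 + n12 ^ 2 + n22 ^ 2 + n32 ^ 2) + (n03 ^ 2 + n13 ^ 2 + n23 ^ 2 + n33 ^ 2)) -
      (w0 ^ 2 + w1 ^ 2 + w2 ^ 2 + w3 ^ 2) := by
  linear_combination - (n01 - n10) * B01 - (n02 - n20) * B02 - (n03 - n30) * B03 -
      (n12 - n21) * B12 - (n13 - n31) * B13 - (n23 - n32) * B23 +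
      w0 * r0 + w1 * r1 + w2 * r2 + w3 * r3 + w0 * g0 + w1 * g1 + w2 * g2 + w3 * g3

private theorem alt0 (a : Fin 4 → ℝ) (N : Fin 4 → Fin 4 → ℝ) : alt a N 0 =
    - (a 3 * (N 1 2 - N 2 1)) + a 2 * (N 1 3 - N 3 1) - a 1 * (N 2 3 - N 3 2) := by
  simp [alt, pl, eQ, Fin.sum_univ_four]
  ring

private theorem alt1 (a : Fin 4 → ℝ) (N : Fin 4 → Fin 4 → ℝ) : alt a N 1 =
    a 3 * (N 0 2 - N 2 0) - a 2 * (N 0 3 - N 3 0) + a 0 * (N 2 3 - N 3 2) := by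
  simp [alt, pl, eQ, Fin.sum_univ_four]
  ring

private theorem alt2 (a : Fin 4 → ℝ) (N : Fin 4 → Fin 4 → ℝ) : alt a N 2 =
    - (a 3 * (N 0 1 - N 1 0)) + a 1 * (N 0 3 - N 3 0) - a 0 * (N 1 3 - N 3 1) := by
  simp [alt, pl, eQ, Fin.sum_univ_four]
  ring

private theorem alt3 (a : Fin 4 → ℝ) (N : Fin 4 → Fin 4 → ℝ) : alt a N 3 =
    a 2 * (N 0 1 - N 1 0) - a 1 * (N 0 2 - N 2 0) + a 0 * (N 1 2 - N 2 1) := by
  simp [alt, pl, eQ, Fin.sum_univ_four]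
  ring

theorem tr_nonneg_of_alt {a : Fin 4 → ℝ} (ha : a ≠ 0) {N : Fin 4 → Fin 4 → ℝ}
    (h1 : ∀ r, ∑ s, N r s * a s = 0) (h2 : ∀ w, alt a N w = 0) : 0 ≤ tr2 N N := by
  have e0 := h2 0
  have e1 := h2 1
  have e2 := h2 2
  have e3 := h2 3
  rw [alt0] at e0
  rw [alt1] at e1
  rw [alt2] at e2
  rw [alt3] at e3
  have r0 := h1 0
  have r1 := h1 1
  have r2 := h1 2
  have r3 := h1 3
  simp only [Fin.sum_univ_four] at r0 r1 r2 r3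
  have ha2 : 0 < a 0 ^ 2 + a 1 ^ 2 + a 2 ^ 2 + a 3 ^ 2 := by
    obtain ⟨i, hi⟩ := Function.ne_iff.1 ha
    have hi2 : 0 < a i ^ 2 := by
      have : a i ≠ 0 := hi
      positivity
    have s0 := sq_nonneg (a 0)
    have s1 := sq_nonneg (a 1)
    have s2 := sq_nonneg (a 2)
    have s3 := sq_nonneg (a 3)
    have hle : a i ^ 2 ≤ a 0 ^ 2 + a 1 ^ 2 + a 2 ^ 2 + a 3 ^ 2 := by
      fin_cases i
      · show a 0 ^ 2 ≤ _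
        linarith
      · show a 1 ^ 2 ≤ _
        linarith
      · show a 2 ^ 2 ≤ _
        linarith
      · show a 3 ^ 2 ≤ _
        linarith
    linarith
  obtain ⟨A, hA⟩ : ∃ A, A = a 0 ^ 2 + a 1 ^ 2 + a 2 ^ 2 + a 3 ^ 2 := ⟨_, rfl⟩
  obtain ⟨w0, g0⟩ : ∃ w, w = a 0 * N 0 0 + a 1 * N 1 0 + a 2 * N 2 0 + a 3 * N 3 0 := ⟨_, rfl⟩
  obtain ⟨w1, g1⟩ : ∃ w, w = a 0 * N 0 1 + a 1 * N 1 1 + a 2 * N 2 1 + a 3 * N 3 1 := ⟨_, rfl⟩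
  obtain ⟨w2, g2⟩ : ∃ w, w = a 0 * N 0 2 + a 1 * N 1 2 + a 2 * N 2 2 + a 3 * N 3 2 := ⟨_, rfl⟩
  obtain ⟨w3, g3⟩ : ∃ w, w = a 0 * N 0 3 + a 1 * N 1 3 + a 2 * N 2 3 + a 3 * N 3 3 := ⟨_, rfl⟩
  have B01 : A * (N 0 1 - N 1 0) = a 0 * w1 - a 1 * w0 :=
    B_aux (b01 := N 0 1 - N 1 0) (b02 := N 0 2 - N 2 0) (b03 := N 0 3 - N 3 0)
      (b12 := N 1 2 - N 2 1) (b13 := N 1 3 - N 3 1)
      (a2 := a 2) (a3 := a 3) hA (by linarith) (by linarith) (by linarith) (by linarith)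
  have B02 : A * (N 0 2 - N 2 0) = a 0 * w2 - a 2 * w0 :=
    B_aux (b01 := N 0 2 - N 2 0) (b02 := N 0 1 - N 1 0) (b03 := N 0 3 - N 3 0)
      (b12 := N 2 1 - N 1 2) (b13 := N 2 3 - N 3 2)
      (a2 := a 1) (a3 := a 3) (by linarith) (by linarith) (by linarith) (by linarith)
      (by linarith)
  have B03 : A * (N 0 3 - N 3 0) = a 0 * w3 - a 3 * w0 :=
    B_aux (b01 := N 0 3 - N 3 0) (b02 := N 0 1 - N 1 0) (b03 := N 0 2 - N 2 0)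
      (b12 := N 3 1 - N 1 3) (b13 := N 3 2 - N 2 3)
      (a2 := a 1) (a3 := a 2) (by linarith) (by linarith) (by linarith) (by linarith)
      (by linarith)
  have B12 : A * (N 1 2 - N 2 1) = a 1 * w2 - a 2 * w1 :=
    B_aux (b01 := N 1 2 - N 2 1) (b02 := N 1 0 - N 0 1) (b03 := N 1 3 - N 3 1)
      (b12 := N 2 0 - N 0 2) (b13 := N 2 3 - N 3 2)
      (a2 := a 0) (a3 := a 3) (by linarith) (by linarith) (by linarith) (by linarith)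
      (by linarith)
  have B13 : A * (N 1 3 - N 3 1) = a 1 * w3 - a 3 * w1 :=
    B_aux (b01 := N 1 3 - N 3 1) (b02 := N 1 0 - N 0 1) (b03 := N 1 2 - N 2 1)
      (b12 := N 3 0 - N 0 3) (b13 := N 3 2 - N 2 3)
      (a2 := a 0) (a3 := a 2) (by linarith) (by linarith) (by linarith) (by linarith)
      (by linarith)
  have B23 : A * (N 2 3 - N 3 2) = a 2 * w3 - a 3 * w2 :=
    B_aux (b01 := N 2 3 - N 3 2) (b02 := N 2 0 - N 0 2) (b03 := N 2 1 - N 1 2)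
      (b12 := N 3 0 - N 0 3) (b13 := N 3 1 - N 1 3)
      (a2 := a 0) (a3 := a 1) (by linarith) (by linarith) (by linarith) (by linarith)
      (by linarith)
  have key := key_aux r0 r1 r2 r3 g0 g1 g2 g3 B01 B02 B03 B12 B13 B23
  have ht : tr2 N N = N 0 0 ^ 2 + N 1 1 ^ 2 + N 2 2 ^ 2 + N 3 3 ^ 2 + 2 * (N 0 1 * N 1 0 +
      N 0 2 * N 2 0 + N 0 3 * N 3 0 + N 1 2 * N 2 1 + N 1 3 * N 3 1 + N 2 3 * N 3 2) := by
    simp only [tr2, Fin.sum_univ_four]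
    ring
  have c0 := col_aux (a 0) (a 1) (a 2) (a 3) (N 0 0) (N 1 0) (N 2 0) (N 3 0)
  have c1 := col_aux (a 0) (a 1) (a 2) (a 3) (N 0 1) (N 1 1) (N 2 1) (N 3 1)
  have c2 := col_aux (a 0) (a 1) (a 2) (a 3) (N 0 2) (N 1 2) (N 2 2) (N 3 2)
  have c3 := col_aux (a 0) (a 1) (a 2) (a 3) (N 0 3) (N 1 3) (N 2 3) (N 3 3)
  rw [← g0, ← hA] at c0
  rw [← g1, ← hA] at c1
  rw [← g2, ← hA] at c2
  rw [← g3, ← hA] at c3
  rw [← hA] at ha2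
  have hfin : 0 ≤ A * tr2 N N := by
    rw [ht, key]
    linarith
  exact nonneg_of_mul_nonneg_right hfin ha2

end Pool.HopfKP
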