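import Pool.Agent.Lib.MP_4a593f_gt.KP.CoreDefs

/-!
A positive definite form on `P ⊗ Q` with symmetric blocks is a sum of squares of products.

Proof. Let `A, B, C` be the symmetric `4 × 4` blocks `M 0 · 0 ·`, `M 0 · 1 ·`, `M 1 · 1 ·`.
`A` is positive definite, so `A = L Lᵀ` with `L` invertible; `L⁻¹ B L⁻ᵀ` is symmetric, `= ∑ b_i u_i
u_iᵀ` with `u_i` an orthonormal basis (spectral theorem); put `a_i = L u_i`: then
`A = ∑ a_i a_iᵀ`, `B = ∑ b_i a_i a_iᵀ` and `a_i` is a basis of `ℝ⁴`.  The form
`C - ∑ b_i² a_i a_iᵀ` is positive definite: its value at `x` is `M(f,f)` for `f = (-y, x)` where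
`a_i · y = b_i (a_i · x)`.  So it is `∑ c_j c_jᵀ` with `c_j` a basis.
Atoms: `v (inl i) = ![1, b i]`, `a (inl i) = a_i`, `v (inr j) = ![0, 1]`, `a (inr j) = c_j`;
`br (v (inl i)) (v (inr j)) = 1`, `br (v (inr j)) (v (inl i)) = -1`.
-/

namespace Pool.HopfKP

open Finset Equiv

open scoped MatrixOrder in
/-- a positive definite symmetric matrix is `L Lᵀ` with `L` invertible -/
private lemma exists_factor (A : Matrix (Fin 4) (Fin 4) ℝ) (hA : A.PosDef) :
    ∃ L : Matrix (Fin 4) (Fin 4) ℝ, IsUnit L ∧ A = L * L.transpose := by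
  obtain ⟨B, hB⟩ := CStarAlgebra.nonneg_iff_eq_star_mul_self.mp hA.posSemidef.nonneg
  have hBt : star B = B.transpose := by
    ext i j; simp [Matrix.star_apply]
  refine ⟨B.transpose, ?_, ?_⟩
  · have hu : IsUnit A := hA.isUnit
    rw [Matrix.isUnit_iff_isUnit_det] at hu ⊢
    rw [hB, Matrix.det_mul] at hu
    have := isUnit_of_mul_isUnit_right hu
    rwa [Matrix.det_transpose]
  · rw [Matrix.transpose_transpose, ← hBt]; exact hB

/-- simultaneous diagonalisation -/
private lemma exists_diag (A B : Matrix (Fin 4) (Fin 4) ℝ) (hA : A.PosDef)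
    (hB : B.transpose = B) :
    ∃ (L : Matrix (Fin 4) (Fin 4) ℝ) (b : Fin 4 → ℝ), IsUnit L ∧ A = L * L.transpose ∧
      B = L * Matrix.diagonal b * L.transpose := by
  obtain ⟨L, hL, hAL⟩ := exists_factor A hA
  have hdet : IsUnit L.det := (Matrix.isUnit_iff_isUnit_det _).1 hL
  have hdett : IsUnit L.transpose.det := by rwa [Matrix.det_transpose]
  set N : Matrix (Fin 4) (Fin 4) ℝ := L⁻¹ * B * (L.transpose)⁻¹ with hN
  have hNt : N.IsHermitian := by
    have : N.transpose = N := by
      rw [hN]
      rw [Matrix.transpose_mul, Matrix.transpose_mul, hB, Matrix.transpose_nonsing_inv,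
        Matrix.transpose_nonsing_inv, Matrix.transpose_transpose, Matrix.mul_assoc]
    rw [Matrix.IsHermitian]
    ext i j
    rw [Matrix.conjTranspose_apply]
    have h2 := congrFun (congrFun this i) j
    simpa using h2
  set U : Matrix (Fin 4) (Fin 4) ℝ := (hNt.eigenvectorUnitary : Matrix (Fin 4) (Fin 4) ℝ) with hU
  have hstar : star U = U.transpose := by
    ext i j; simp [Matrix.star_apply]
  have hUU : U * U.transpose = 1 := by
    rw [← hstar]; exact Unitary.mul_star_self_of_mem hNt.eigenvectorUnitary.2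
  have hspec : N = U * Matrix.diagonal hNt.eigenvalues * U.transpose := by
    have h := hNt.spectral_theorem
    rw [← hstar]
    rw [Unitary.conjStarAlgAut_apply] at h
    simpa using h
  refine ⟨L * U, hNt.eigenvalues, ?_, ?_, ?_⟩
  · exact hL.mul (IsUnit.of_mul_eq_one _ hUU)
  · rw [Matrix.transpose_mul]
    calc A = L * 1 * L.transpose := by rw [mul_one]; exact hAL
      _ = L * (U * U.transpose) * L.transpose := by rw [hUU]
      _ = _ := by simp only [Matrix.mul_assoc]
  · rw [Matrix.transpose_mul]
    calc B = L * N * L.transpose := by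
          rw [hN]
          calc B = 1 * B * 1 := by simp
            _ = (L * L⁻¹) * B * ((L.transpose)⁻¹ * L.transpose) := by
                rw [Matrix.mul_nonsing_inv _ hdet, Matrix.nonsing_inv_mul _ hdett]
            _ = _ := by simp only [Matrix.mul_assoc]
      _ = L * (U * Matrix.diagonal hNt.eigenvalues * U.transpose) * L.transpose :=
          congrArg (fun Y => L * Y * L.transpose) hspec
      _ = _ := by simp only [Matrix.mul_assoc]

private lemma col_span (L : Matrix (Fin 4) (Fin 4) ℝ) (hL : IsUnit L) :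
    Submodule.span ℝ (Set.range fun i : Fin 4 => L.col i) = ⊤ := by
  have h : LinearIndependent ℝ L.col := Matrix.linearIndependent_cols_iff_isUnit.2 hL
  exact h.span_eq_top_of_card_eq_finrank' (by simp)

private lemma col_ne (L : Matrix (Fin 4) (Fin 4) ℝ) (hL : IsUnit L) (i : Fin 4) :
    (fun t => L t i) ≠ 0 := by
  have h : LinearIndependent ℝ L.col := Matrix.linearIndependent_cols_iff_isUnit.2 hL
  exact h.ne_zero i

theorem exists_atoms (M : Fin 2 → Fin 4 → Fin 2 → Fin 4 → ℝ)
    (hs : ∀ p t q u, M q u p t = M p t q u) (hB : ∀ p t q u, M p u q t = M p t q u)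
    (hpos : ∀ f : Fin 2 → Fin 4 → ℝ, f ≠ 0 → 0 < ∑ p, ∑ t, ∑ q, ∑ u, f p t * f q u * M p t q u) :
    ∃ (v : Fin 4 ⊕ Fin 4 → Fin 2 → ℝ) (a : Fin 4 ⊕ Fin 4 → Fin 4 → ℝ),
      (∀ p t q u, M p t q u = ∑ k, v k p * a k t * (v k q * a k u)) ∧ (∀ k, a k ≠ 0) ∧
      (∀ k, Submodule.span ℝ {x | ∃ l, br (v k) (v l) ≠ 0 ∧ x = a l} = ⊤) := by
  set A : Matrix (Fin 4) (Fin 4) ℝ := Matrix.of fun t u => M 0 t 0 u with hAdef
  set B : Matrix (Fin 4) (Fin 4) ℝ := Matrix.of fun t u => M 0 t 1 u with hBdef
  set C : Matrix (Fin 4) (Fin 4) ℝ := Matrix.of fun t u => M 1 t 1 u with hCdef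
  have hA : A.PosDef := by
    rw [Matrix.posDef_iff_dotProduct_mulVec]
    refine ⟨?_, ?_⟩
    · ext i j
      simp only [hAdef, Matrix.conjTranspose_apply, Matrix.of_apply]
      simpa using hs 0 i 0 j
    · intro x hx
      have h := hpos ![x, 0] (by
        intro h0
        apply hx
        have := congrFun h0 0
        simpa using this)
      simp only [Fin.sum_univ_two, Matrix.cons_val_zero, Matrix.cons_val_one] at h
      simp only [Pi.zero_apply, zero_mul, mul_zero, Finset.sum_const_zero, add_zero] at h
      have h2 : star x ⬝ᵥ A.mulVec x = ∑ t, ∑ u, x t * x u * M 0 t 0 u := by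
        simp only [dotProduct, Matrix.mulVec, hAdef, Matrix.of_apply, Pi.star_apply,
          Finset.mul_sum]
        refine Finset.sum_congr rfl fun t _ => Finset.sum_congr rfl fun u _ => ?_
        simp only [star_trivial]
        ring
      rw [h2]
      exact h
  have hBt : B.transpose = B := by
    ext i j
    simp only [hBdef, Matrix.transpose_apply, Matrix.of_apply]
    exact hB 0 i 1 j
  obtain ⟨L, b, hL, hAL, hBL⟩ := exists_diag A B hA hBt
  have hA' : ∀ t u, M 0 t 0 u = ∑ i, L t i * L u i := by
    intro t u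
    have := congrFun (congrFun hAL t) u
    simpa [hAdef, Matrix.mul_apply, Matrix.transpose_apply] using this
  have hB' : ∀ t u, M 0 t 1 u = ∑ i, L t i * (b i * L u i) := by
    intro t u
    have := congrFun (congrFun hBL t) u
    rw [Matrix.mul_apply] at this
    simp only [Matrix.mul_diagonal, Matrix.transpose_apply, hBdef, Matrix.of_apply] at this
    rw [this]
    refine Finset.sum_congr rfl fun i _ => by ring
  have hB'' : ∀ t u, M 1 t 0 u = ∑ i, L t i * (b i * L u i) := by
    intro t u
    rw [← hB' t u, ← hs 0 t 1 u, hB 1 t 0 u]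
  set D : Matrix (Fin 4) (Fin 4) ℝ :=
    Matrix.of fun t u => M 1 t 1 u - ∑ i, b i * L t i * (b i * L u i) with hDdef
  have hdet : IsUnit L.det := (Matrix.isUnit_iff_isUnit_det _).1 hL
  have hdett : IsUnit L.transpose.det := by rwa [Matrix.det_transpose]
  have hD : D.PosDef := by
    rw [Matrix.posDef_iff_dotProduct_mulVec]
    refine ⟨?_, ?_⟩
    · ext i j
      simp only [hDdef, Matrix.conjTranspose_apply, Matrix.of_apply, star_trivial]
      rw [hs 1 i 1 j]
      congr 1
      refine Finset.sum_congr rfl fun k _ => by ring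
    · intro x hx
      set w : Fin 4 → ℝ := fun i => b i * ∑ t, L t i * x t with hw
      set y : Fin 4 → ℝ := (L.transpose)⁻¹.mulVec w with hy
      have hLy : ∀ i, ∑ t, L t i * y t = w i := by
        intro i
        have h1 : L.transpose.mulVec y = w := by
          rw [hy, Matrix.mulVec_mulVec, Matrix.mul_nonsing_inv _ hdett, Matrix.one_mulVec]
        have h2 := congrFun h1 i
        simpa [Matrix.mulVec, dotProduct, Matrix.transpose_apply] using h2
      have h := hpos ![-y, x] (by
        intro h0
        apply hx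
        have := congrFun h0 1
        simpa using this)
      simp only [Fin.sum_univ_two, Matrix.cons_val_zero, Matrix.cons_val_one] at h
      have e1 : ∀ (p q : Fin 4 → ℝ) (c : Fin 4 → ℝ),
          ∑ t, ∑ u, p t * q u * ∑ i, L t i * (c i * L u i)
            = ∑ i, c i * (∑ t, L t i * p t) * (∑ u, L u i * q u) := by
        intro p q c
        have h1 : ∀ i, c i * (∑ t, L t i * p t) * (∑ u, L u i * q u)
            = ∑ t, ∑ u, p t * q u * (L t i * (c i * L u i)) := by
          intro i
          rw [mul_assoc, Finset.sum_mul_sum, Finset.mul_sum]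
          refine Finset.sum_congr rfl fun t _ => ?_
          rw [Finset.mul_sum]
          refine Finset.sum_congr rfl fun u _ => by ring
        simp only [h1]
        symm
        rw [Finset.sum_comm]
        refine Finset.sum_congr rfl fun t _ => ?_
        rw [Finset.sum_comm]
        refine Finset.sum_congr rfl fun u _ => ?_
        rw [Finset.mul_sum]
      have hLy' : ∀ i, ∑ t, L t i * (-y) t = - w i := by
        intro i
        rw [← hLy i, ← Finset.sum_neg_distrib]
        refine Finset.sum_congr rfl fun t _ => by simp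
      have s00 : ∑ t, ∑ u, (-y) t * (-y) u * M 0 t 0 u = ∑ i, w i ^ 2 := by
        have h2 := e1 (-y) (-y) (fun _ => 1)
        simp only [one_mul, hLy'] at h2
        simp only [hA']
        rw [h2]
        refine Finset.sum_congr rfl fun i _ => by ring
      have hwx : ∀ i, b i * ∑ t, L t i * x t = w i := fun i => rfl
      have s01 : ∑ t, ∑ u, (-y) t * x u * M 0 t 1 u = - ∑ i, w i ^ 2 := by
        have h2 := e1 (-y) x b
        simp only [hLy'] at h2
        simp only [hB']
        rw [h2, ← Finset.sum_neg_distrib]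
        refine Finset.sum_congr rfl fun i _ => ?_
        rw [← hwx i]; ring
      have s10 : ∑ t, ∑ u, x t * (-y) u * M 1 t 0 u = - ∑ i, w i ^ 2 := by
        have h2 := e1 x (-y) b
        simp only [hLy'] at h2
        simp only [hB'']
        rw [h2, ← Finset.sum_neg_distrib]
        refine Finset.sum_congr rfl fun i _ => ?_
        rw [← hwx i]; ring
      have sD : ∑ t, ∑ u, x t * x u * ∑ i, b i * L t i * (b i * L u i) = ∑ i, w i ^ 2 := by
        have h2 := e1 x x (fun i => b i * b i)
        have h3 : ∀ t u, ∑ i, b i * L t i * (b i * L u i) = ∑ i, L t i * (b i * b i * L u i) :=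
          fun t u => Finset.sum_congr rfl fun i _ => by ring
        simp only [h3]
        rw [h2]
        refine Finset.sum_congr rfl fun i _ => ?_
        rw [← hwx i]; ring
      have h4 : star x ⬝ᵥ D.mulVec x = ∑ t, ∑ u, x t * x u * M 1 t 1 u - ∑ i, w i ^ 2 := by
        rw [← sD, ← Finset.sum_sub_distrib]
        simp only [dotProduct, Matrix.mulVec, hDdef, Matrix.of_apply, Pi.star_apply,
          star_trivial]
        refine Finset.sum_congr rfl fun t _ => ?_
        rw [← Finset.sum_sub_distrib, Finset.mul_sum]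
        refine Finset.sum_congr rfl fun u _ => by ring
      rw [h4]
      have h5 : ∀ (F G : Fin 4 → ℝ), ∑ t, (F t + G t) = ∑ t, F t + ∑ t, G t :=
        fun F G => Finset.sum_add_distrib
      rw [Finset.sum_add_distrib, Finset.sum_add_distrib] at h
      rw [s00, s01, s10] at h
      linarith
  obtain ⟨K, hK, hDK⟩ := exists_factor D hD
  have hC' : ∀ t u, M 1 t 1 u = ∑ i, b i * L t i * (b i * L u i) + ∑ j, K t j * K u j := by
    intro t u
    have := congrFun (congrFun hDK t) u
    simp only [hDdef, Matrix.mul_apply, Matrix.transpose_apply, Matrix.of_apply] at this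
    linarith
  refine ⟨Sum.elim (fun i => ![1, b i]) (fun _ => ![0, 1]),
    Sum.elim (fun i t => L t i) (fun j t => K t j), ?_, ?_, ?_⟩
  · intro p t q u
    rw [Fintype.sum_sum_type]
    simp only [Sum.elim_inl, Sum.elim_inr]
    fin_cases p <;> fin_cases q
    · simp [hA']
    · simp [hB']
    · simp only [Fin.mk_one, Fin.zero_eta, Matrix.cons_val_zero, Matrix.cons_val_one, hB'']
      simp only [one_mul, zero_mul, mul_zero, Finset.sum_const_zero, add_zero]
      refine Finset.sum_congr rfl fun i _ => by ring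
    · simp only [Fin.mk_one, Matrix.cons_val_one, hC']
      simp
  · rintro (i | j)
    · exact col_ne L hL i
    · exact col_ne K hK j
  · rintro (i | j)
    · rw [eq_top_iff, ← col_span K hK]
      apply Submodule.span_mono
      rintro _ ⟨j, rfl⟩
      refine ⟨Sum.inr j, ?_, rfl⟩
      simp [br]
    · rw [eq_top_iff, ← col_span L hL]
      apply Submodule.span_mono
      rintro _ ⟨i, rfl⟩
      refine ⟨Sum.inl i, ?_, rfl⟩
      simp [br]

end Pool.HopfKP
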