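import Pool.Agent.Lib.MP_4a593f_gt.KP.Defs

/-!
The polarised Gauss-Bonnet integrand and its value on tensor products of 2-arrays.
-/

namespace Pool.HopfKP

open Finset Equiv

/-- Two-index arrays over `ℝ⁶`. -/
abbrev Arr := Fin 6 → Fin 6 → ℝ

/-- Sign of a permutation as a real number. -/
def sg {n : ℕ} (σ : Perm (Fin n)) : ℝ := ((Perm.sign σ : ℤ) : ℝ)

/-- The polarised integrand. -/
def gb3 (R S U : Ten) : ℝ :=
  ∑ σ : Perm (Fin 6), ∑ τ : Perm (Fin 6), (sg σ * sg τ) *
      (R (σ 0) (σ 1) (τ 0) (τ 1) * S (σ 2) (σ 3) (τ 2) (τ 3) * U (σ 4) (σ 5) (τ 4) (τ 5))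

/-- `∑_σ sgn σ α_{σ0σ1} β_{σ2σ3} γ_{σ4σ5}`. -/
def T3 (α β γ : Arr) : ℝ :=
  ∑ σ : Perm (Fin 6), sg σ * (α (σ 0) (σ 1) * β (σ 2) (σ 3) * γ (σ 4) (σ 5))

/-- Tensor product of two 2-arrays. -/
def tens (α β : Arr) : Ten := fun i j k l => α i j * β k l

/-- `V ∧ A`. -/
def wedge (V A : Vec) : Arr := fun i j => V i * A j - V j * A i

theorem gb_eq (R : Ten) : gb R = gb3 R R R := rfl

theorem gb3_tens (α α' β β' γ γ' : Arr) :
    gb3 (tens α α') (tens β β') (tens γ γ') = T3 α β γ * T3 α' β' γ' := by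
  unfold gb3 T3 tens
  rw [Finset.sum_mul_sum]
  refine Finset.sum_congr rfl fun σ _ => Finset.sum_congr rfl fun τ _ => ?_
  ring

/-- The permutation exchanging the pairs `{0,1}` and `{2,3}`. -/
def pr01 : Perm (Fin 6) := swap 0 2 * swap 1 3

/-- The permutation exchanging the pairs `{2,3}` and `{4,5}`. -/
def pr12 : Perm (Fin 6) := swap 2 4 * swap 3 5

theorem sg_mul {n : ℕ} (σ τ : Perm (Fin n)) : sg (σ * τ) = sg σ * sg τ := by
  unfold sg; simp

theorem sg_pr01 : sg pr01 = 1 := by
  have : Perm.sign pr01 = 1 := by decide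
  unfold sg; rw [this]; simp

theorem sg_pr12 : sg pr12 = 1 := by
  have : Perm.sign pr12 = 1 := by decide
  unfold sg; rw [this]; simp

theorem gb3_comm12 (R S U : Ten) : gb3 R S U = gb3 S R U := by
  unfold gb3
  refine Fintype.sum_equiv (Equiv.mulRight pr01) _ _ fun σ => ?_
  refine Fintype.sum_equiv (Equiv.mulRight pr01) _ _ fun τ => ?_
  have h0 : pr01 0 = 2 := by decide
  have h1 : pr01 1 = 3 := by decide
  have h2 : pr01 2 = 0 := by decide
  have h3 : pr01 3 = 1 := by decide
  have h4 : pr01 4 = 4 := by decide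
  have h5 : pr01 5 = 5 := by decide
  simp only [Equiv.coe_mulRight, sg_mul, sg_pr01, Perm.mul_apply, h0, h1, h2, h3, h4, h5]
  ring

theorem gb3_comm23 (R S U : Ten) : gb3 R S U = gb3 R U S := by
  unfold gb3
  refine Fintype.sum_equiv (Equiv.mulRight pr12) _ _ fun σ => ?_
  refine Fintype.sum_equiv (Equiv.mulRight pr12) _ _ fun τ => ?_
  have h0 : pr12 0 = 0 := by decide
  have h1 : pr12 1 = 1 := by decide
  have h2 : pr12 2 = 4 := by decide
  have h3 : pr12 3 = 5 := by decide
  have h4 : pr12 4 = 2 := by decide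
  have h5 : pr12 5 = 3 := by decide
  simp only [Equiv.coe_mulRight, sg_mul, sg_pr12, Perm.mul_apply, h0, h1, h2, h3, h4, h5]
  ring

theorem T3_comm12 (α β γ : Arr) : T3 α β γ = T3 β α γ := by
  unfold T3
  refine Fintype.sum_equiv (Equiv.mulRight pr01) _ _ fun σ => ?_
  have h0 : pr01 0 = 2 := by decide
  have h1 : pr01 1 = 3 := by decide
  have h2 : pr01 2 = 0 := by decide
  have h3 : pr01 3 = 1 := by decide
  have h4 : pr01 4 = 4 := by decide
  have h5 : pr01 5 = 5 := by decide
  simp only [Equiv.coe_mulRight, sg_mul, sg_pr01, Perm.mul_apply, h0, h1, h2, h3, h4, h5]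
  ring

theorem T3_comm23 (α β γ : Arr) : T3 α β γ = T3 α γ β := by
  unfold T3
  refine Fintype.sum_equiv (Equiv.mulRight pr12) _ _ fun σ => ?_
  have h0 : pr12 0 = 0 := by decide
  have h1 : pr12 1 = 1 := by decide
  have h2 : pr12 2 = 4 := by decide
  have h3 : pr12 3 = 5 := by decide
  have h4 : pr12 4 = 2 := by decide
  have h5 : pr12 5 = 3 := by decide
  simp only [Equiv.coe_mulRight, sg_mul, sg_pr12, Perm.mul_apply, h0, h1, h2, h3, h4, h5]
  ring

theorem gb3_add_left (R R' S U : Ten) : gb3 (R + R') S U = gb3 R S U + gb3 R' S U := by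
  unfold gb3
  simp only [← Finset.sum_add_distrib]
  refine Finset.sum_congr rfl fun σ _ => Finset.sum_congr rfl fun τ _ => ?_
  simp only [Pi.add_apply]; ring

theorem gb3_smul_left (c : ℝ) (R S U : Ten) : gb3 (c • R) S U = c * gb3 R S U := by
  unfold gb3
  simp only [Finset.mul_sum]
  refine Finset.sum_congr rfl fun σ _ => Finset.sum_congr rfl fun τ _ => ?_
  simp only [Pi.smul_apply, smul_eq_mul]; ring

theorem gb3_add_mid (R S S' U : Ten) : gb3 R (S + S') U = gb3 R S U + gb3 R S' U := by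
  rw [gb3_comm12, gb3_add_left, gb3_comm12 S, gb3_comm12 S']

theorem gb3_smul_mid (c : ℝ) (R S U : Ten) : gb3 R (c • S) U = c * gb3 R S U := by
  rw [gb3_comm12, gb3_smul_left, gb3_comm12 S]

theorem gb3_add_right (R S U U' : Ten) : gb3 R S (U + U') = gb3 R S U + gb3 R S U' := by
  rw [gb3_comm23, gb3_add_mid, gb3_comm23 R U, gb3_comm23 R U']

theorem gb3_smul_right (c : ℝ) (R S U : Ten) : gb3 R S (c • U) = c * gb3 R S U := by
  rw [gb3_comm23, gb3_smul_mid, gb3_comm23 R U]

theorem gb3_zero_left (S U : Ten) : gb3 0 S U = 0 := by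
  have := gb3_smul_left 0 0 S U
  simpa using this

theorem gb3_sum_left {ι : Type*} (s : Finset ι) (R : ι → Ten) (S U : Ten) :
    gb3 (∑ i ∈ s, R i) S U = ∑ i ∈ s, gb3 (R i) S U := by
  classical
  induction s using Finset.induction_on with
  | empty => simpa using gb3_zero_left S U
  | insert a s ha ih => rw [Finset.sum_insert ha, Finset.sum_insert ha, gb3_add_left, ih]

theorem gb3_sum_mid {ι : Type*} (s : Finset ι) (R S : Ten) (F : ι → Ten) :
    gb3 R (∑ i ∈ s, F i) S = ∑ i ∈ s, gb3 R (F i) S := by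
  rw [gb3_comm12, gb3_sum_left]
  exact Finset.sum_congr rfl fun i _ => gb3_comm12 _ _ _

theorem gb3_sum_right {ι : Type*} (s : Finset ι) (R S : Ten) (F : ι → Ten) :
    gb3 R S (∑ i ∈ s, F i) = ∑ i ∈ s, gb3 R S (F i) := by
  rw [gb3_comm23, gb3_sum_mid]
  exact Finset.sum_congr rfl fun i _ => gb3_comm23 _ _ _

theorem T3_add_right (α β γ γ' : Arr) : T3 α β (γ + γ') = T3 α β γ + T3 α β γ' := by
  unfold T3
  simp only [← Finset.sum_add_distrib]
  refine Finset.sum_congr rfl fun σ _ => ?_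
  simp only [Pi.add_apply]; ring

theorem T3_smul_right (c : ℝ) (α β γ : Arr) : T3 α β (c • γ) = c * T3 α β γ := by
  unfold T3
  simp only [Finset.mul_sum]
  refine Finset.sum_congr rfl fun σ _ => ?_
  simp only [Pi.smul_apply, smul_eq_mul]; ring

theorem T3_zero_right (α β : Arr) : T3 α β 0 = 0 := by
  have := T3_smul_right 0 α β 0
  simpa using this

theorem T3_sum_right {ι : Type*} (s : Finset ι) (α β : Arr) (γ : ι → Arr) :
    T3 α β (∑ i ∈ s, γ i) = ∑ i ∈ s, T3 α β (γ i) := by
  classical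
  induction s using Finset.induction_on with
  | empty => simpa using T3_zero_right α β
  | insert a s ha ih => rw [Finset.sum_insert ha, Finset.sum_insert ha, T3_add_right, ih]

/-- expansion of the integrand of a sum of two tensors -/
theorem gb_add (R S : Ten) :
    gb (R + S) = gb R + 3 * gb3 R R S + 3 * gb3 R S S + gb S := by
  simp only [gb_eq, gb3_add_left, gb3_add_mid, gb3_add_right]
  rw [gb3_comm23 R S R, gb3_comm12 S R R, gb3_comm23 R S R, gb3_comm12 S R S,
    gb3_comm23 S S R, gb3_comm12 S R S]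
  ring

/-- expansion of the integrand of a sum of four tensors -/
theorem gb3_diag_smul (c : ℝ) (R : Ten) : gb (c • R) = c ^ 3 * gb R := by
  simp only [gb_eq, gb3_smul_left, gb3_smul_mid, gb3_smul_right]
  ring

/-- pair symmetry -/
theorem IsCurvature.pair {R : Ten} (hR : IsCurvature R) (i j k l : Fin 6) :
    R k l i j = R i j k l := by
  have b1 := hR.bianchi i j k l
  have b2 := hR.bianchi j k l i
  have b3 := hR.bianchi k l i j
  have b4 := hR.bianchi l i j k
  have s := hR.skew12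
  have t := hR.skew34
  linarith [s i l j k, t i l j k, s j l i k, t j l i k, s k l i j, t i j k l, t j k l i,
    s j k i l, t k i j l, s k i j l, t k i l j, s l j k i, t l j k i, s l k i j, t j l k i,
    s l i j k, s i l k j, t l i k j, s k l j i, t k l i j, s i k l j, t i k l j, s j i k l,
    t j i l k, s k j l i, t l k i j, t l i j k, t k l j i, s j l k i]

end Pool.HopfKP
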