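import Pool.Agent.Lib.MP_4a593f_gt.KP.Ident1
import Pool.Agent.Lib.MP_4a593f_gt.KP.Alt

/-!
Choice of the covectors `c_k`.

Proof. Consider the linear endomorphism `L` of `K → Fin 4 → ℝ`,
`L c k w = alt (a k) (Sm v a c k) w + (∑ u, a k u * c k u) * a k w`.
It is injective: if `L c = 0`, multiply by `a k w` and sum over `w`: `∑ w, a k w * alt (a k) N w = 0`
(`pl a a = 0`), so `(a_k · c_k) |a_k|² = 0`, `a_k · c_k = 0` and `alt (a k) (Sm v a c k) = 0`.
Moreover `∑ s, Sm v a c k r s * a k s = 0` (because `∑ t, pl a b u t * a t = 0`), so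
`tr2 (Sm ..) (Sm ..) ≥ 0` by `tr_nonneg_of_alt`, and `ident_le` gives `Mq v a (tf v a c k l) = 0`,
hence `tf v a c k l = 0` for all `k, l` (`hM`).  If `br (v k) (v l) ≠ 0` this gives
`ctr (c k) (pl (a k) (a l)) = 0`; by `hsp k` and linearity `ctr (c k) (pl (a k) x) = 0` for all
`x`, hence `c_k ∧ a_k = 0` and with `a_k · c_k = 0`, `a_k ≠ 0`: `c_k = 0`.
So `L` is surjective (`LinearMap.injective_iff_surjective`); take `c` with
`L c k w = (1/2) * alt (a k) (Ym Z (v k) (a k)) w`, multiply by `a k w` and sum: `a_k · c_k = 0`.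
-/

namespace Pool.HopfKP

open Finset Equiv

variable {K : Type} [Fintype K]

private theorem alt_sub2 (a : Fin 4 → ℝ) (N M : Fin 4 → Fin 4 → ℝ) (w : Fin 4) :
    alt a (fun r s => N r s - 2 * M r s) w = alt a N w - 2 * alt a M w := by
  unfold alt
  simp only [Finset.mul_sum, ← Finset.sum_sub_distrib]
  refine Finset.sum_congr rfl fun s _ => Finset.sum_congr rfl fun t _ => by ring

private theorem alt_add' (a : Fin 4 → ℝ) (N M : Fin 4 → Fin 4 → ℝ) (w : Fin 4) :
    alt a (fun r s => N r s + M r s) w = alt a N w + alt a M w := by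
  unfold alt
  simp only [← Finset.sum_add_distrib]
  refine Finset.sum_congr rfl fun s _ => Finset.sum_congr rfl fun t _ => by ring

private theorem alt_smul' (x : ℝ) (a : Fin 4 → ℝ) (N : Fin 4 → Fin 4 → ℝ) (w : Fin 4) :
    alt a (fun r s => x * N r s) w = x * alt a N w := by
  unfold alt
  simp only [Finset.mul_sum]
  refine Finset.sum_congr rfl fun s _ => Finset.sum_congr rfl fun t _ => by ring

private theorem pl_self_eQ (a : Fin 4 → ℝ) (s t : Fin 4) :
    ∑ w, a w * pl a (eQ w) s t = 0 := by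
  fin_cases s <;> fin_cases t <;>
    simp [Fin.sum_univ_four, pl, eQ, Pi.single_apply] <;> ring

private theorem sum_alt (a : Fin 4 → ℝ) (N : Fin 4 → Fin 4 → ℝ) :
    ∑ w, a w * alt a N w = 0 := by
  unfold alt
  have h1 : ∑ w, a w * (∑ s, ∑ t, pl a (eQ w) s t * N s t) =
      ∑ s, ∑ t, (∑ w, a w * pl a (eQ w) s t) * N s t := by
    simp only [Finset.mul_sum, Finset.sum_mul]
    rw [Finset.sum_comm]
    refine Finset.sum_congr rfl fun s _ => ?_
    rw [Finset.sum_comm]
    refine Finset.sum_congr rfl fun t _ => Finset.sum_congr rfl fun w _ => by ring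
  rw [h1]
  simp only [pl_self_eQ, zero_mul, Finset.sum_const_zero]

private theorem pl_ann (a b : Fin 4 → ℝ) (u : Fin 4) : ∑ s, pl a b u s * a s = 0 := by
  fin_cases u <;> simp [Fin.sum_univ_four, pl] <;> ring

private theorem ctr_ann (c a b : Fin 4 → ℝ) : ∑ s, ctr c (pl a b) s * a s = 0 := by
  unfold ctr
  have h1 : ∑ s, (∑ u, c u * pl a b u s) * a s = ∑ u, c u * ∑ s, pl a b u s * a s := by
    simp only [Finset.mul_sum, Finset.sum_mul]
    rw [Finset.sum_comm]
    refine Finset.sum_congr rfl fun s _ => Finset.sum_congr rfl fun w _ => by ring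
  rw [h1]
  simp only [pl_ann, mul_zero, Finset.sum_const_zero]

private theorem ctr_add (c c' : Fin 4 → ℝ) (π : Fin 4 → Fin 4 → ℝ) (t : Fin 4) :
    ctr (c + c') π t = ctr c π t + ctr c' π t := by
  unfold ctr
  simp only [← Finset.sum_add_distrib, Pi.add_apply]
  refine Finset.sum_congr rfl fun s _ => by ring

private theorem ctr_smul (x : ℝ) (c : Fin 4 → ℝ) (π : Fin 4 → Fin 4 → ℝ) (t : Fin 4) :
    ctr (x • c) π t = x * ctr c π t := by
  unfold ctr
  simp only [Finset.mul_sum, Pi.smul_apply, smul_eq_mul]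
  refine Finset.sum_congr rfl fun s _ => by ring

private theorem tf_add (v : K → Fin 2 → ℝ) (a c c' : K → Fin 4 → ℝ) (k l : K) (p : Fin 2)
    (t : Fin 4) : tf v a (c + c') k l p t = tf v a c k l p t + tf v a c' k l p t := by
  unfold tf
  rw [Pi.add_apply, Pi.add_apply, ctr_add, ctr_add]
  ring

private theorem tf_smul (v : K → Fin 2 → ℝ) (x : ℝ) (a c : K → Fin 4 → ℝ) (k l : K) (p : Fin 2)
    (t : Fin 4) : tf v a (x • c) k l p t = x * tf v a c k l p t := by
  unfold tf
  rw [Pi.smul_apply, Pi.smul_apply, ctr_smul, ctr_smul]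
  ring

private theorem Sm_add (v : K → Fin 2 → ℝ) (a c c' : K → Fin 4 → ℝ) (k : K) :
    Sm v a (c + c') k = fun r s => Sm v a c k r s + Sm v a c' k r s := by
  funext r s
  unfold Sm
  simp only [tf_add, mul_add, Finset.sum_add_distrib]

private theorem Sm_smul (v : K → Fin 2 → ℝ) (x : ℝ) (a c : K → Fin 4 → ℝ) (k : K) :
    Sm v a (x • c) k = fun r s => x * Sm v a c k r s := by
  funext r s
  unfold Sm
  simp only [tf_smul, Finset.mul_sum]
  refine Finset.sum_congr rfl fun s _ => Finset.sum_congr rfl fun t _ => by ring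

private def Lm (v : K → Fin 2 → ℝ) (a : K → Fin 4 → ℝ) :
    (K → Fin 4 → ℝ) →ₗ[ℝ] (K → Fin 4 → ℝ) where
  toFun c := fun k w => alt (a k) (Sm v a c k) w + (∑ u, a k u * c k u) * a k w
  map_add' c c' := by
    funext k w
    simp only [Pi.add_apply, Sm_add, alt_add', mul_add, Finset.sum_add_distrib]
    ring
  map_smul' x c := by
    funext k w
    simp only [Pi.smul_apply, smul_eq_mul, Sm_smul, alt_smul', RingHom.id_apply]
    have : ∑ u, a k u * (x * c k u) = x * ∑ u, a k u * c k u := by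
      rw [Finset.mul_sum]
      refine Finset.sum_congr rfl fun s _ => by ring
    rw [this]
    ring

private theorem sq_pos' {a : Fin 4 → ℝ} (ha : a ≠ 0) : 0 < ∑ w, a w * a w := by
  have h1 : 0 ≤ ∑ w, a w * a w := Finset.sum_nonneg fun w _ => mul_self_nonneg _
  refine lt_of_le_of_ne h1 fun h => ha ?_
  have h2 := (Finset.sum_eq_zero_iff_of_nonneg (fun w _ => mul_self_nonneg (a w))).1 h.symm
  funext w
  exact mul_self_eq_zero.1 (h2 w (Finset.mem_univ w))

/-- pairing with `a k` -/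
private theorem pair_Lm (v : K → Fin 2 → ℝ) (a : K → Fin 4 → ℝ) (c : K → Fin 4 → ℝ) (k : K)
    (ha : a k ≠ 0) (h : ∑ w, a k w * Lm v a c k w = 0) : ∑ u, a k u * c k u = 0 := by
  have h1 : ∑ w, a k w * Lm v a c k w =
      ∑ w, a k w * alt (a k) (Sm v a c k) w + (∑ u, a k u * c k u) * ∑ w, a k w * a k w := by
    rw [Finset.mul_sum, ← Finset.sum_add_distrib]
    refine Finset.sum_congr rfl fun w _ => ?_
    show a k w * (alt (a k) (Sm v a c k) w + (∑ u, a k u * c k u) * a k w) = _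
    ring
  rw [h1, sum_alt, zero_add] at h
  exact (mul_eq_zero.1 h).resolve_right (sq_pos' ha).ne'

private theorem Sm_ann (v : K → Fin 2 → ℝ) (a : K → Fin 4 → ℝ) (c : K → Fin 4 → ℝ) (k : K)
    (r : Fin 4) : ∑ s, Sm v a c k r s * a k s = 0 := by
  have h0 : ∀ l : K, ∀ p : Fin 2, ∑ s, tf v a c k l p s * a k s = 0 := by
    intro l p
    have h1 : ∑ s, tf v a c k l p s * a k s =
        v k p * ∑ s, ctr (c l) (pl (a k) (a l)) s * a k s -
          v l p * ∑ s, ctr (c k) (pl (a k) (a l)) s * a k s := by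
      unfold tf
      rw [Finset.mul_sum, Finset.mul_sum, ← Finset.sum_sub_distrib]
      refine Finset.sum_congr rfl fun s _ => by ring
    rw [h1, ctr_ann, ctr_ann]
    ring
  unfold Sm
  have h2 : ∑ s, (∑ l, a l r * ∑ p, v l p * tf v a c k l p s) * a k s =
      ∑ l, a l r * ∑ p, v l p * ∑ s, tf v a c k l p s * a k s := by
    simp only [Finset.mul_sum, Finset.sum_mul]
    rw [Finset.sum_comm]
    refine Finset.sum_congr rfl fun l _ => ?_
    rw [Finset.sum_comm]
    refine Finset.sum_congr rfl fun p _ => Finset.sum_congr rfl fun s _ => by ring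
  rw [h2]
  simp only [h0, mul_zero, Finset.sum_const_zero]

private theorem pl_add' (a x y : Fin 4 → ℝ) (u t : Fin 4) :
    pl a (x + y) u t = pl a x u t + pl a y u t := by
  fin_cases u <;> fin_cases t <;> simp [pl] <;> ring

private theorem pl_smul' (r : ℝ) (a x : Fin 4 → ℝ) (u t : Fin 4) :
    pl a (r • x) u t = r * pl a x u t := by
  fin_cases u <;> fin_cases t <;> simp [pl] <;> ring

private theorem pl_zero' (a : Fin 4 → ℝ) (u t : Fin 4) : pl a 0 u t = 0 := by
  fin_cases u <;> fin_cases t <;> simp [pl]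

/-- the submodule of `x` with `ctr c (pl a x) = 0` -/
private def Nl (a c : Fin 4 → ℝ) : Submodule ℝ (Fin 4 → ℝ) where
  carrier := {x | ∀ t, ctr c (pl a x) t = 0}
  add_mem' := by
    intro x y hx hy t
    have h1 := hx t
    have h2 := hy t
    unfold ctr at h1 h2 ⊢
    simp only [pl_add', mul_add, Finset.sum_add_distrib]
    rw [h1, h2, add_zero]
  zero_mem' := by
    intro t
    unfold ctr
    simp only [pl_zero', mul_zero, Finset.sum_const_zero]
  smul_mem' := by
    intro r x hx t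
    have h1 := hx t
    unfold ctr at h1 ⊢
    simp only [pl_smul']
    have : ∑ u, c u * (r * pl a x u t) = r * ∑ u, c u * pl a x u t := by
      rw [Finset.mul_sum]
      refine Finset.sum_congr rfl fun s _ => by ring
    rw [this, h1, mul_zero]

private theorem c_zero {a c : Fin 4 → ℝ} (ha : a ≠ 0) (hac : ∑ u, a u * c u = 0)
    (h : ∀ x : Fin 4 → ℝ, ∀ t, ctr c (pl a x) t = 0) : c = 0 := by
  have hw : ∀ i j : Fin 4, c i * a j = c j * a i := by
    have e01 := h (eQ 2) 3
    have e02 := h (eQ 3) 1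
    have e03 := h (eQ 1) 2
    have e12 := h (eQ 0) 3
    have e13 := h (eQ 2) 0
    have e23 := h (eQ 0) 1
    simp [ctr, pl, eQ, Fin.sum_univ_four, Pi.single_apply] at e01 e02 e03 e12 e13 e23
    intro i j
    fin_cases i <;> fin_cases j <;> simp <;> linarith
  have hpos := sq_pos' ha
  funext i
  have h1 : c i * ∑ w, a w * a w = a i * ∑ w, a w * c w := by
    rw [Finset.mul_sum, Finset.mul_sum]
    refine Finset.sum_congr rfl fun w _ => ?_
    have := hw i w
    calc c i * (a w * a w) = (c i * a w) * a w := by ring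
      _ = a i * (a w * c w) := by rw [this]; ring
  rw [hac, mul_zero] at h1
  exact (mul_eq_zero.1 h1).resolve_right hpos.ne'

private theorem Lm_inj (v : K → Fin 2 → ℝ) (a : K → Fin 4 → ℝ) (ha : ∀ k, a k ≠ 0)
    (hM : ∀ f, Mq v a f = 0 → f = 0)
    (hsp : ∀ k, Submodule.span ℝ {x | ∃ l, br (v k) (v l) ≠ 0 ∧ x = a l} = ⊤)
    (c : K → Fin 4 → ℝ) (hc : Lm v a c = 0) : c = 0 := by
  have h1 : ∀ k, ∑ u, a k u * c k u = 0 := by
    intro k
    refine pair_Lm v a c k (ha k) ?_
    rw [hc]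
    simp
  have h2 : ∀ k w, alt (a k) (Sm v a c k) w = 0 := by
    intro k w
    have h3 : Lm v a c k w = 0 := by rw [hc]; rfl
    have h4 : alt (a k) (Sm v a c k) w + (∑ u, a k u * c k u) * a k w = 0 := h3
    rw [h1 k, zero_mul, add_zero] at h4
    exact h4
  have h3 : ∀ k, 0 ≤ tr2 (Sm v a c k) (Sm v a c k) := fun k =>
    tr_nonneg_of_alt (ha k) (fun r => Sm_ann v a c k r) (h2 k)
  have h4 := ident_le v a c
  have h5 : 0 ≤ ∑ k, tr2 (Sm v a c k) (Sm v a c k) := Finset.sum_nonneg fun k _ => h3 k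
  have hMn : ∀ k l, 0 ≤ Mq v a (tf v a c k l) := by
    intro k l
    exact Finset.sum_nonneg fun m _ => sq_nonneg _
  have h6 : ∑ k, ∑ l, Mq v a (tf v a c k l) = 0 := by
    refine le_antisymm (by linarith) ?_
    exact Finset.sum_nonneg fun k _ => Finset.sum_nonneg fun l _ => hMn k l
  have h7 : ∀ k l, tf v a c k l = 0 := by
    intro k l
    apply hM
    have e1 := (Finset.sum_eq_zero_iff_of_nonneg (fun k _ =>
      Finset.sum_nonneg fun l _ => hMn k l)).1 h6 k (Finset.mem_univ k)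
    exact (Finset.sum_eq_zero_iff_of_nonneg (fun l _ => hMn k l)).1 e1 l (Finset.mem_univ l)
  funext k
  refine c_zero (ha k) (h1 k) ?_
  have hle : (⊤ : Submodule ℝ (Fin 4 → ℝ)) ≤ Nl (a k) (c k) := by
    rw [← hsp k, Submodule.span_le]
    rintro x ⟨l, hl, rfl⟩ t
    have e0 := congrFun (congrFun (h7 k l) 0) t
    have e1 := congrFun (congrFun (h7 k l) 1) t
    simp only [tf, Pi.zero_apply] at e0 e1
    have e2 : br (v k) (v l) * ctr (c k) (pl (a k) (a l)) t = 0 := by
      unfold br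
      linear_combination v k 1 * e0 - v k 0 * e1
    exact (mul_eq_zero.1 e2).resolve_left hl
  intro x t
  exact (hle (Submodule.mem_top : x ∈ (⊤ : Submodule ℝ (Fin 4 → ℝ)))) t

theorem exists_c (v : K → Fin 2 → ℝ) (a : K → Fin 4 → ℝ) (ha : ∀ k, a k ≠ 0)
    (hM : ∀ f, Mq v a f = 0 → f = 0)
    (hsp : ∀ k, Submodule.span ℝ {x | ∃ l, br (v k) (v l) ≠ 0 ∧ x = a l} = ⊤)
    (Z : Fin 2 → Fin 4 → Fin 4 → Fin 4 → ℝ) :
    ∃ c : K → Fin 4 → ℝ, ∀ k w,
      alt (a k) (fun r s => Ym Z (v k) (a k) r s - 2 * Sm v a c k r s) w = 0 := by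
  have hinj : Function.Injective (Lm v a) := by
    rw [← LinearMap.ker_eq_bot, LinearMap.ker_eq_bot']
    exact fun c hc => Lm_inj v a ha hM hsp c hc
  have hsurj : Function.Surjective (Lm v a) := LinearMap.injective_iff_surjective.1 hinj
  obtain ⟨c, hc⟩ := hsurj (fun k w => (1 / 2) * alt (a k) (Ym Z (v k) (a k)) w)
  refine ⟨c, fun k w => ?_⟩
  have h1 : ∑ u, a k u * c k u = 0 := by
    refine pair_Lm v a c k (ha k) ?_
    rw [hc]
    have : ∑ w, a k w * ((1 / 2) * alt (a k) (Ym Z (v k) (a k)) w) =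
        (1 / 2) * ∑ w, a k w * alt (a k) (Ym Z (v k) (a k)) w := by
      rw [Finset.mul_sum]
      refine Finset.sum_congr rfl fun s _ => by ring
    rw [this, sum_alt, mul_zero]
  have h2 : alt (a k) (Sm v a c k) w + (∑ u, a k u * c k u) * a k w =
      (1 / 2) * alt (a k) (Ym Z (v k) (a k)) w := congrFun (congrFun hc k) w
  rw [h1, zero_mul, add_zero] at h2
  rw [alt_sub2, h2]
  ring

end Pool.HopfKP
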