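import Pool.Agent.Lib.MP_4a593f_gt.KP.CoreDefs

/-!
Evaluation of `T3` on `(v ∧ a, w ∧ b, ζ)`, `v, w` in `P`, `a, b` in `Q`, `ζ` on `Q`.

Hint. By linearity in `ζ` (`T3_sum_right`, `T3_smul_right`, or directly) it is enough to treat
`ζ = (i,j) ↦ c_i d_j`, i.e. the last argument `fun i j => lq c i * lq d j`.  Replacing `σ` by
`σ * swap 0 1` and `σ * swap 2 3` gives
`T3 = 4 ∑_σ sgn σ V(σ0) A(σ1) W(σ2) B(σ3) C(σ4) E(σ5) = 4 det (V, A, W, B, C, E)`
(`Matrix.det_apply`, `Fin.prod_univ_succ`), a `6 × 6` determinant whose rows `V, W` live on the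
first two columns and the other four rows on the last four columns.
-/

namespace Pool.HopfKP

open Finset Equiv

private theorem det6 (v0 v1 w0 w1 a0 a1 a2 a3 b0 b1 b2 b3 c0 c1 c2 c3 d0 d1 d2 d3 : ℝ) :
    Matrix.det !![v0, 0, w0, 0, 0, 0; v1, 0, w1, 0, 0, 0; 0, a0, 0, b0, c0, d0;
      0, a1, 0, b1, c1, d1; 0, a2, 0, b2, c2, d2; 0, a3, 0, b3, c3, d3] =
    -((v0 * w1 - v1 * w0) * Matrix.det !![a0, b0, c0, d0; a1, b1, c1, d1; a2, b2, c2, d2;
      a3, b3, c3, d3]) := by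
  rw [Matrix.det_succ_row_zero]
  simp [Matrix.det_succ_row_zero, Fin.sum_univ_succ, Fin.succAbove, Matrix.submatrix]
  ring

private theorem sg_swap (i j : Fin 6) (h : i ≠ j) : sg (swap i j) = -1 := by
  unfold sg
  rw [Perm.sign_swap h]
  simp

/-- transposing the first array -/
private theorem T3_tr (α β γ : Arr) : T3 (fun i j => α j i) β γ = -T3 α β γ := by
  unfold T3
  rw [← Finset.sum_neg_distrib]
  refine Fintype.sum_equiv (Equiv.mulRight (swap 0 1)) _ _ fun σ => ?_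
  have h0 : (swap (0 : Fin 6) 1) 0 = 1 := by decide
  have h1 : (swap (0 : Fin 6) 1) 1 = 0 := by decide
  have h2 : (swap (0 : Fin 6) 1) 2 = 2 := by decide
  have h3 : (swap (0 : Fin 6) 1) 3 = 3 := by decide
  have h4 : (swap (0 : Fin 6) 1) 4 = 4 := by decide
  have h5 : (swap (0 : Fin 6) 1) 5 = 5 := by decide
  simp only [Equiv.coe_mulRight, sg_mul, sg_swap 0 1 (by decide), Perm.mul_apply, h0, h1, h2,
    h3, h4, h5]
  ring

/-- a wedge in the first slot is twice the tensor product -/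
private theorem T3_wedge_left (V A : Vec) (β γ : Arr) :
    T3 (wedge V A) β γ = 2 * T3 (fun i j => V i * A j) β γ := by
  have h1 : T3 (wedge V A) β γ =
      T3 (fun i j => V i * A j) β γ - T3 (fun i j => V j * A i) β γ := by
    unfold T3 wedge
    rw [← Finset.sum_sub_distrib]
    refine Finset.sum_congr rfl fun σ _ => ?_
    ring
  have h2 : T3 (fun i j => V j * A i) β γ = -T3 (fun i j => V i * A j) β γ :=
    T3_tr (fun i j => V i * A j) β γ
  rw [h1, h2]
  ring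

private theorem T3_wedge_mid (W B : Vec) (α γ : Arr) :
    T3 α (wedge W B) γ = 2 * T3 α (fun i j => W i * B j) γ := by
  rw [T3_comm12, T3_wedge_left, T3_comm12]

/-- the alternating sum of products is a determinant -/
private theorem T3_prod (V A W B C E : Vec) :
    T3 (fun i j => V i * A j) (fun i j => W i * B j) (fun i j => C i * E j) =
      Matrix.det (Matrix.of fun j i => (![V, A, W, B, C, E] : Fin 6 → Vec) i j) := by
  rw [Matrix.det_apply']
  unfold T3 sg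
  refine Finset.sum_congr rfl fun σ _ => ?_
  rw [Fin.prod_univ_succ, Fin.prod_univ_succ, Fin.prod_univ_succ, Fin.prod_univ_succ,
    Fin.prod_univ_succ, Fin.prod_univ_succ, Fin.prod_univ_zero]
  have e1 : (Fin.succ 0 : Fin 6) = 1 := rfl
  have e2 : (Fin.succ (Fin.succ 0) : Fin 6) = 2 := rfl
  have e3 : (Fin.succ (Fin.succ (Fin.succ 0)) : Fin 6) = 3 := rfl
  have e4 : (Fin.succ (Fin.succ (Fin.succ (Fin.succ 0))) : Fin 6) = 4 := rfl
  have e5 : (Fin.succ (Fin.succ (Fin.succ (Fin.succ (Fin.succ 0)))) : Fin 6) = 5 := rfl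
  rw [e1, e2, e3, e4, e5]
  change _ = _ * (V (σ 0) * (A (σ 1) * (W (σ 2) * (B (σ 3) * (C (σ 4) * (E (σ 5) * 1))))))
  ring

/-- the value on a product -/
private theorem T3_unit (v w : Fin 2 → ℝ) (a b c d : Fin 4 → ℝ) :
    T3 (wedge (lp v) (lq a)) (wedge (lp w) (lq b)) (fun i j => lq c i * lq d j) =
      -4 * br v w * Matrix.det !![a 0, b 0, c 0, d 0; a 1, b 1, c 1, d 1; a 2, b 2, c 2, d 2;
      a 3, b 3, c 3, d 3] := by
  rw [T3_wedge_left, T3_wedge_mid, T3_prod]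
  have h : (Matrix.of fun j i => (![lp v, lq a, lp w, lq b, lq c, lq d] : Fin 6 → Vec) i j) =
      !![v 0, 0, w 0, 0, 0, 0; v 1, 0, w 1, 0, 0, 0; 0, a 0, 0, b 0, c 0, d 0;
      0, a 1, 0, b 1, c 1, d 1; 0, a 2, 0, b 2, c 2, d 2; 0, a 3, 0, b 3, c 3, d 3] := by
    ext j i
    fin_cases j <;> fin_cases i <;> simp [lp, lq]
  rw [h, det6, br]
  ring

/-- the determinant `det (a, b, e_r, e_s)` -/
private theorem det_pl (a b : Fin 4 → ℝ) (r s : Fin 4) :
    Matrix.det !![a 0, b 0, eQ r 0, eQ s 0; a 1, b 1, eQ r 1, eQ s 1;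
      a 2, b 2, eQ r 2, eQ s 2; a 3, b 3, eQ r 3, eQ s 3] = pl a b r s := by
  fin_cases r <;> fin_cases s <;>
    simp [eQ, pl, Matrix.det_succ_row_zero, Fin.sum_univ_succ, Fin.succAbove,
      Matrix.submatrix] <;> ring

private theorem lq2_eq (ζ : Fin 4 → Fin 4 → ℝ) :
    lq2 ζ = ∑ r, ∑ s, ζ r s • (fun i j => lq (eQ r) i * lq (eQ s) j : Arr) := by
  funext i j
  simp only [Finset.sum_apply, Fin.sum_univ_four]
  fin_cases i <;> fin_cases j <;> simp [lq2, lq, eQ]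

theorem T3_wedge (v w : Fin 2 → ℝ) (a b : Fin 4 → ℝ) (ζ : Fin 4 → Fin 4 → ℝ) :
    T3 (wedge (lp v) (lq a)) (wedge (lp w) (lq b)) (lq2 ζ) =
      -4 * br v w * ∑ r, ∑ s, pl a b r s * ζ r s := by
  rw [lq2_eq, T3_sum_right, Finset.mul_sum]
  refine Finset.sum_congr rfl fun r _ => ?_
  rw [T3_sum_right, Finset.mul_sum]
  refine Finset.sum_congr rfl fun s _ => ?_
  rw [T3_smul_right, T3_unit, det_pl]
  ring

end Pool.HopfKP
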