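import Pool.Agent.Lib.MP_4a593f_gt.KP.Decomp
import Pool.Agent.Lib.MP_4a593f_gt.KP.T3Eval

/-!
The integrand on `(N, Z₁, Z₂)`.

Hint: with `η = v_k ∧ a_k`, `ε_pt = e_p ∧ e_t`:
`gb3 (η⊗η) (ε_pt ⊗ Z^p_t) (Z^q_u ⊗ ε_qu) = T3 η ε_pt Z^q_u * T3 η Z^p_t ε_qu`, use `T3_comm23` on the
second factor and `T3_wedge` on both; `br (v k) (eP p) = bx (v k) p`.  The product of the two sums
over `p` (resp. `q`) is `16 * Ym .. u t * Ym .. t u`.
-/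

namespace Pool.HopfKP

open Finset Equiv

private theorem br_eP (v : Fin 2 → ℝ) (p : Fin 2) : br v (eP p) = bx v p := by
  fin_cases p
  · simp [br, eP, bx]
  · simp [br, eP, bx]

private theorem term_NZZ (v : Fin 2 → ℝ) (a : Fin 4 → ℝ)
    (Z : Fin 2 → Fin 4 → Fin 4 → Fin 4 → ℝ) (p : Fin 2) (t : Fin 4) (q : Fin 2) (u : Fin 4) :
    gb3 (tens (wedge (lp v) (lq a)) (wedge (lp v) (lq a)))
      (tens (wedge (lp (eP p)) (lq (eQ t))) (lq2 (Z p t)))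
      (tens (lq2 (Z q u)) (wedge (lp (eP q)) (lq (eQ u)))) =
    16 * ((bx v q * ∑ r, ∑ s, pl a (eQ t) r s * Z q u r s) *
      (bx v p * ∑ r, ∑ s, pl a (eQ u) r s * Z p t r s)) := by
  rw [gb3_tens, T3_wedge, T3_comm23 (wedge (lp v) (lq a)) (lq2 (Z p t)), T3_wedge, br_eP, br_eP]
  ring

private theorem reorg (X Y : Fin 2 → Fin 4 → Fin 4 → ℝ) :
    ∑ p, ∑ t, ∑ q, ∑ u, 16 * (X p t u * Y q t u) =
      16 * ∑ t, ∑ u, (∑ p, X p t u) * (∑ q, Y q t u) := by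
  have h1 : ∀ t, ∑ u, (∑ p, X p t u) * (∑ q, Y q t u) = ∑ p, ∑ q, ∑ u, X p t u * Y q t u := by
    intro t
    simp only [Finset.sum_mul_sum]
    rw [Finset.sum_comm]
    refine Finset.sum_congr rfl fun p _ => ?_
    rw [Finset.sum_comm]
  simp only [h1, ← Finset.mul_sum]
  rw [Finset.sum_comm]

theorem gb_NZZ {K : Type} [Fintype K] (v : K → Fin 2 → ℝ) (a : K → Fin 4 → ℝ)
    (Z : Fin 2 → Fin 4 → Fin 4 → Fin 4 → ℝ) :
    gb3 (tN v a) (tZ1 Z) (tZ2 Z) = 16 * ∑ k, tr2 (Ym Z (v k) (a k)) (Ym Z (v k) (a k)) := by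
  unfold tN tZ1 tZ2
  rw [gb3_sum_left, Finset.mul_sum]
  refine Finset.sum_congr rfl fun k _ => ?_
  simp only [gb3_sum_mid, gb3_sum_right, term_NZZ]
  rw [reorg (fun p t u => bx (v k) p * ∑ r, ∑ s, pl (a k) (eQ u) r s * Z p t r s)
    (fun q t u => bx (v k) q * ∑ r, ∑ s, pl (a k) (eQ t) r s * Z q u r s)]
  rfl

end Pool.HopfKP
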