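import Pool.Agent.Lib.MP_4a593f_gt.KP.GbNNQ
import Pool.Agent.Lib.MP_4a593f_gt.KP.GbNZZ

/-!
The integrand in terms of the blocks.

Hint: `decomp` writes `R = N + Z₁ + Z₂ + R_Q`, of `P`-degrees `(1,1), (1,0), (0,1), (0,0)`
(`hom_ww`, .., `Hom.sum`).  Expand `gb R = gb3 R R R` with the additivity lemmas; by `gb3_hom_zero`
and the symmetries only `3 gb3 N N R_Q + 6 gb3 N Z₁ Z₂` survive.
-/

namespace Pool.HopfKP

open Finset Equiv

/-- expansion by the degrees in `P` -/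
private theorem gb_expand {N A B Q : Ten} (hN : Hom N 1 1) (hA : Hom A 1 0) (hB : Hom B 0 1)
    (hQ : Hom Q 0 0) : gb (N + A + B + Q) = 3 * gb3 N N Q + 6 * gb3 N A B := by
  have z0 : gb3 N N N = 0 := gb3_hom_zero hN hN hN (by norm_num)
  have z1 : gb3 N N A = 0 := gb3_hom_zero hN hN hA (by norm_num)
  have z2 : gb3 N N B = 0 := gb3_hom_zero hN hN hB (by norm_num)
  have z3 : gb3 N A N = 0 := gb3_hom_zero hN hA hN (by norm_num)
  have z4 : gb3 N A A = 0 := gb3_hom_zero hN hA hA (by norm_num)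
  have z5 : gb3 N A Q = 0 := gb3_hom_zero hN hA hQ (by norm_num)
  have z6 : gb3 N B N = 0 := gb3_hom_zero hN hB hN (by norm_num)
  have z7 : gb3 N B B = 0 := gb3_hom_zero hN hB hB (by norm_num)
  have z8 : gb3 N B Q = 0 := gb3_hom_zero hN hB hQ (by norm_num)
  have z9 : gb3 N Q A = 0 := gb3_hom_zero hN hQ hA (by norm_num)
  have z10 : gb3 N Q B = 0 := gb3_hom_zero hN hQ hB (by norm_num)
  have z11 : gb3 N Q Q = 0 := gb3_hom_zero hN hQ hQ (by norm_num)
  have z12 : gb3 A N N = 0 := gb3_hom_zero hA hN hN (by norm_num)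
  have z13 : gb3 A N A = 0 := gb3_hom_zero hA hN hA (by norm_num)
  have z14 : gb3 A N Q = 0 := gb3_hom_zero hA hN hQ (by norm_num)
  have z15 : gb3 A A N = 0 := gb3_hom_zero hA hA hN (by norm_num)
  have z16 : gb3 A A A = 0 := gb3_hom_zero hA hA hA (by norm_num)
  have z17 : gb3 A A B = 0 := gb3_hom_zero hA hA hB (by norm_num)
  have z18 : gb3 A A Q = 0 := gb3_hom_zero hA hA hQ (by norm_num)
  have z19 : gb3 A B A = 0 := gb3_hom_zero hA hB hA (by norm_num)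
  have z20 : gb3 A B B = 0 := gb3_hom_zero hA hB hB (by norm_num)
  have z21 : gb3 A B Q = 0 := gb3_hom_zero hA hB hQ (by norm_num)
  have z22 : gb3 A Q N = 0 := gb3_hom_zero hA hQ hN (by norm_num)
  have z23 : gb3 A Q A = 0 := gb3_hom_zero hA hQ hA (by norm_num)
  have z24 : gb3 A Q B = 0 := gb3_hom_zero hA hQ hB (by norm_num)
  have z25 : gb3 A Q Q = 0 := gb3_hom_zero hA hQ hQ (by norm_num)
  have z26 : gb3 B N N = 0 := gb3_hom_zero hB hN hN (by norm_num)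
  have z27 : gb3 B N B = 0 := gb3_hom_zero hB hN hB (by norm_num)
  have z28 : gb3 B N Q = 0 := gb3_hom_zero hB hN hQ (by norm_num)
  have z29 : gb3 B A A = 0 := gb3_hom_zero hB hA hA (by norm_num)
  have z30 : gb3 B A B = 0 := gb3_hom_zero hB hA hB (by norm_num)
  have z31 : gb3 B A Q = 0 := gb3_hom_zero hB hA hQ (by norm_num)
  have z32 : gb3 B B N = 0 := gb3_hom_zero hB hB hN (by norm_num)
  have z33 : gb3 B B A = 0 := gb3_hom_zero hB hB hA (by norm_num)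
  have z34 : gb3 B B B = 0 := gb3_hom_zero hB hB hB (by norm_num)
  have z35 : gb3 B B Q = 0 := gb3_hom_zero hB hB hQ (by norm_num)
  have z36 : gb3 B Q N = 0 := gb3_hom_zero hB hQ hN (by norm_num)
  have z37 : gb3 B Q A = 0 := gb3_hom_zero hB hQ hA (by norm_num)
  have z38 : gb3 B Q B = 0 := gb3_hom_zero hB hQ hB (by norm_num)
  have z39 : gb3 B Q Q = 0 := gb3_hom_zero hB hQ hQ (by norm_num)
  have z40 : gb3 Q N A = 0 := gb3_hom_zero hQ hN hA (by norm_num)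
  have z41 : gb3 Q N B = 0 := gb3_hom_zero hQ hN hB (by norm_num)
  have z42 : gb3 Q N Q = 0 := gb3_hom_zero hQ hN hQ (by norm_num)
  have z43 : gb3 Q A N = 0 := gb3_hom_zero hQ hA hN (by norm_num)
  have z44 : gb3 Q A A = 0 := gb3_hom_zero hQ hA hA (by norm_num)
  have z45 : gb3 Q A B = 0 := gb3_hom_zero hQ hA hB (by norm_num)
  have z46 : gb3 Q A Q = 0 := gb3_hom_zero hQ hA hQ (by norm_num)
  have z47 : gb3 Q B N = 0 := gb3_hom_zero hQ hB hN (by norm_num)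
  have z48 : gb3 Q B A = 0 := gb3_hom_zero hQ hB hA (by norm_num)
  have z49 : gb3 Q B B = 0 := gb3_hom_zero hQ hB hB (by norm_num)
  have z50 : gb3 Q B Q = 0 := gb3_hom_zero hQ hB hQ (by norm_num)
  have z51 : gb3 Q Q N = 0 := gb3_hom_zero hQ hQ hN (by norm_num)
  have z52 : gb3 Q Q A = 0 := gb3_hom_zero hQ hQ hA (by norm_num)
  have z53 : gb3 Q Q B = 0 := gb3_hom_zero hQ hQ hB (by norm_num)
  have z54 : gb3 Q Q Q = 0 := gb3_hom_zero hQ hQ hQ (by norm_num)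
  have s1 : gb3 N Q N = gb3 N N Q := gb3_comm23 _ _ _
  have s2 : gb3 Q N N = gb3 N N Q := by rw [gb3_comm12, s1]
  have s3 : gb3 N B A = gb3 N A B := gb3_comm23 _ _ _
  have s4 : gb3 A N B = gb3 N A B := gb3_comm12 _ _ _
  have s5 : gb3 A B N = gb3 N A B := by rw [gb3_comm23, s4]
  have s6 : gb3 B N A = gb3 N A B := by rw [gb3_comm12, s3]
  have s7 : gb3 B A N = gb3 N A B := by rw [gb3_comm23, s6]
  simp only [gb_eq, gb3_add_left, gb3_add_mid, gb3_add_right, z0, z1, z2, z3, z4, z5, z6, z7, z8, z9, z10, z11, z12, z13, z14, z15, z16, z17, z18, z19, z20, z21, z22, z23, z24, z25, z26, z27, z28, z29, z30, z31, z32, z33, z34, z35, z36, z37, z38, z39, z40, z41, z42, z43, z44, z45, z46, z47, z48, z49, z50, z51, z52, z53, z54,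
    s1, s2, s3, s4, s5, s6, s7]
  ring

theorem gb_block {R : Ten} (hR : IsCurvature R) (h0 : ∀ k l, R 0 1 k l = 0) {K : Type}
    [Fintype K] (v : K → Fin 2 → ℝ) (a : K → Fin 4 → ℝ)
    (hM : ∀ p t q u, bM R p t q u = ∑ k, v k p * a k t * (v k q * a k u)) :
    gb R = 48 * (∑ k, ∑ l, br (v k) (v l) ^ 2 * rho (bQ R) (pl (a k) (a l))) +
      96 * ∑ k, tr2 (Ym (bZ R) (v k) (a k)) (Ym (bZ R) (v k) (a k)) := by
  have hN : Hom (tN v a) 1 1 := Hom.sum _ fun k => hom_ww _ _ _ _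
  have hA : Hom (tZ1 (bZ R)) 1 0 := Hom.sum _ fun p => Hom.sum _ fun t => hom_wq _ _ _
  have hB : Hom (tZ2 (bZ R)) 0 1 := Hom.sum _ fun p => Hom.sum _ fun t => hom_qw _ _ _
  have hQ : Hom (tQ (bQ R)) 0 0 := Hom.sum _ fun r => Hom.sum _ fun s => hom_qq _ _
  have key : gb R = gb (tN v a + tZ1 (bZ R) + tZ2 (bZ R) + tQ (bQ R)) :=
    congrArg gb (decomp hR h0 v a hM)
  rw [key, gb_expand hN hA hB hQ, gb_NNQ, gb_NZZ]
  ring

end Pool.HopfKP
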