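import Pool.Agent.Lib.MP_4a593f_gt.KP.CoreDefs

/-!
The cross term.

Proof. Put `z_kl p s = ∑_{r,s'} π_kl r s' * Z p s r s'` (`π_kl = pl (a_k) (a_l)`, antisymmetric in
`k, l`).  The left side is, after renaming `k ↔ l` in the second half of `tf`,
`2 ∑_{kl} [v_k v_l] ∑_{p,t} z_kl p t * v_k p * ctr (c_l) π_kl t`.
On the right `∑_u Ym_k t u * a_l u = ∑_p bx (v_k) p * z_kl p t` (linearity of `pl a ·`), so
`2 ∑_l tr (Y_l S_l) = 2 ∑_{l,k} ∑_{t,p} bx (v_l) p * z_lk p t * (∑_q v_k q * f_lk q t)`, and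
`∑_q v_k q f_lk q t = - |v_k|² ctr (c_l) π_lk.. ` etc.; rename `k ↔ l` in the term with `c_k` and use
the 2-dimensional identity `|v|² J w - (v·w) J v = [v w] v` (up to sign), `J = bx`.
The identity was checked numerically with these conventions.
-/

namespace Pool.HopfKP

open Finset Equiv

variable {K : Type} [Fintype K]

private theorem pl_swap (a b : Fin 4 → ℝ) (r s : Fin 4) : pl b a r s = - pl a b r s := by
  fin_cases r <;> fin_cases s <;> simp [pl] <;> ring

private theorem pl_lin (a b : Fin 4 → ℝ) (r s : Fin 4) :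
    ∑ u, pl a (eQ u) r s * b u = pl a b r s := by
  fin_cases r <;> fin_cases s <;> simp [pl, eQ, Fin.sum_univ_four] <;> ring

private theorem ctr_swap (c a b : Fin 4 → ℝ) (t : Fin 4) :
    ctr c (pl b a) t = - ctr c (pl a b) t := by
  unfold ctr
  rw [← Finset.sum_neg_distrib]
  refine Finset.sum_congr rfl fun u _ => ?_
  rw [pl_swap a b]; ring

private theorem tf_swap (v : K → Fin 2 → ℝ) (a c : K → Fin 4 → ℝ) (k l : K) (p : Fin 2)
    (t : Fin 4) : tf v a c l k p t = tf v a c k l p t := by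
  unfold tf
  rw [ctr_swap (c k) (a k) (a l), ctr_swap (c l) (a k) (a l)]; ring

/-- the contraction `z_kl` -/
private def zz (Z : Fin 2 → Fin 4 → Fin 4 → Fin 4 → ℝ) (a b : Fin 4 → ℝ) (p : Fin 2)
    (t : Fin 4) : ℝ := ∑ r, ∑ s, pl a b r s * Z p t r s

private theorem zz_swap (Z : Fin 2 → Fin 4 → Fin 4 → Fin 4 → ℝ) (a b : Fin 4 → ℝ) (p : Fin 2)
    (t : Fin 4) : zz Z b a p t = - zz Z a b p t := by
  unfold zz
  rw [← Finset.sum_neg_distrib]
  refine Finset.sum_congr rfl fun r _ => ?_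
  rw [← Finset.sum_neg_distrib]
  refine Finset.sum_congr rfl fun s _ => ?_
  rw [pl_swap a b]; ring

private theorem ym_lin (Z : Fin 2 → Fin 4 → Fin 4 → Fin 4 → ℝ) (v : Fin 2 → ℝ)
    (a b : Fin 4 → ℝ) (t : Fin 4) :
    ∑ u, Ym Z v a t u * b u = ∑ p, bx v p * zz Z a b p t := by
  unfold Ym zz
  have h : ∀ u, (∑ p, bx v p * ∑ r, ∑ s, pl a (eQ u) r s * Z p t r s) * b u =
      ∑ p, bx v p * ∑ r, ∑ s, (pl a (eQ u) r s * b u) * Z p t r s := by
    intro u
    rw [Finset.sum_mul]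
    refine Finset.sum_congr rfl fun p _ => ?_
    rw [mul_assoc, Finset.sum_mul]
    congr 1
    refine Finset.sum_congr rfl fun r _ => ?_
    rw [Finset.sum_mul]
    refine Finset.sum_congr rfl fun s _ => ?_
    ring
  rw [Finset.sum_congr rfl fun u _ => h u, Finset.sum_comm]
  refine Finset.sum_congr rfl fun p _ => ?_
  rw [← Finset.mul_sum]
  congr 1
  rw [Finset.sum_comm]
  refine Finset.sum_congr rfl fun r _ => ?_
  rw [Finset.sum_comm]
  refine Finset.sum_congr rfl fun s _ => ?_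
  rw [← Finset.sum_mul, pl_lin]

/-- the two-dimensional identity -/
private theorem two_dim (v w x z : Fin 2 → ℝ) :
    br v w * ∑ p, x p * z p =
      (∑ p, bx v p * z p) * (∑ q, w q * x q) - (∑ p, bx w p * z p) * (∑ q, v q * x q) := by
  simp only [Fin.sum_univ_two, br, bx, Matrix.cons_val_zero, Matrix.cons_val_one]
  ring

/-- left summand -/
private theorem left_eq (v : K → Fin 2 → ℝ) (a c : K → Fin 4 → ℝ)
    (Z : Fin 2 → Fin 4 → Fin 4 → Fin 4 → ℝ) (k l : K) :
    (br (v k) (v l) *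
      ∑ r, ∑ s, ∑ p, ∑ t, pl (a k) (a l) r s * tf v a c k l p t * Z p t r s) =
      ∑ t, br (v k) (v l) * ∑ p, tf v a c k l p t * zz Z (a k) (a l) p t := by
  rw [← Finset.mul_sum]
  congr 1
  have h1 : (∑ r, ∑ s, ∑ p, ∑ t, pl (a k) (a l) r s * tf v a c k l p t * Z p t r s) =
      ∑ r, ∑ s, ∑ t, ∑ p, pl (a k) (a l) r s * tf v a c k l p t * Z p t r s := by
    refine Finset.sum_congr rfl fun r _ => Finset.sum_congr rfl fun s _ => ?_
    rw [Finset.sum_comm]
  rw [h1]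
  have h2 : (∑ r, ∑ s, ∑ t, ∑ p, pl (a k) (a l) r s * tf v a c k l p t * Z p t r s) =
      ∑ r, ∑ t, ∑ s, ∑ p, pl (a k) (a l) r s * tf v a c k l p t * Z p t r s := by
    refine Finset.sum_congr rfl fun r _ => ?_
    rw [Finset.sum_comm]
  rw [h2, Finset.sum_comm]
  refine Finset.sum_congr rfl fun t _ => ?_
  have h3 : (∑ r, ∑ s, ∑ p, pl (a k) (a l) r s * tf v a c k l p t * Z p t r s) =
      ∑ r, ∑ p, ∑ s, pl (a k) (a l) r s * tf v a c k l p t * Z p t r s := by
    refine Finset.sum_congr rfl fun r _ => ?_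
    rw [Finset.sum_comm]
  rw [h3, Finset.sum_comm]
  refine Finset.sum_congr rfl fun p _ => ?_
  unfold zz
  rw [Finset.mul_sum]
  refine Finset.sum_congr rfl fun r _ => ?_
  rw [Finset.mul_sum]
  refine Finset.sum_congr rfl fun s _ => ?_
  ring

/-- right summand -/
private theorem right_eq (v : K → Fin 2 → ℝ) (a c : K → Fin 4 → ℝ)
    (Z : Fin 2 → Fin 4 → Fin 4 → Fin 4 → ℝ) (k : K) :
    tr2 (Ym Z (v k) (a k)) (Sm v a c k) =
      ∑ l, ∑ t, (∑ p, bx (v k) p * zz Z (a k) (a l) p t) *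
        (∑ q, v l q * tf v a c k l q t) := by
  unfold tr2 Sm
  have h : ∀ t, ∑ u, Ym Z (v k) (a k) t u * ∑ l, a l u * ∑ p, v l p * tf v a c k l p t =
      ∑ l, (∑ p, bx (v k) p * zz Z (a k) (a l) p t) * (∑ q, v l q * tf v a c k l q t) := by
    intro t
    have h1 : ∀ u, Ym Z (v k) (a k) t u * ∑ l, a l u * ∑ p, v l p * tf v a c k l p t =
        ∑ l, (Ym Z (v k) (a k) t u * a l u) * ∑ p, v l p * tf v a c k l p t := by
      intro u
      rw [Finset.mul_sum]
      refine Finset.sum_congr rfl fun l _ => ?_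
      ring
    rw [Finset.sum_congr rfl fun u _ => h1 u, Finset.sum_comm]
    refine Finset.sum_congr rfl fun l _ => ?_
    rw [← Finset.sum_mul, ym_lin]
  rw [Finset.sum_congr rfl fun t _ => h t, Finset.sum_comm]

/-- the cross term -/
theorem cross (v : K → Fin 2 → ℝ) (a c : K → Fin 4 → ℝ)
    (Z : Fin 2 → Fin 4 → Fin 4 → Fin 4 → ℝ) :
    (∑ k, ∑ l, br (v k) (v l) *
      ∑ r, ∑ s, ∑ p, ∑ t, pl (a k) (a l) r s * tf v a c k l p t * Z p t r s) =
      2 * ∑ k, tr2 (Ym Z (v k) (a k)) (Sm v a c k) := by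
  have hG : ∑ k, tr2 (Ym Z (v k) (a k)) (Sm v a c k) =
      ∑ k, ∑ l, ∑ t, (∑ p, bx (v k) p * zz Z (a k) (a l) p t) *
        (∑ q, v l q * tf v a c k l q t) :=
    Finset.sum_congr rfl fun k _ => right_eq v a c Z k
  have hG' : (∑ k, ∑ l, ∑ t, (∑ p, bx (v k) p * zz Z (a k) (a l) p t) *
        (∑ q, v l q * tf v a c k l q t)) =
      ∑ k, ∑ l, ∑ t, -((∑ p, bx (v l) p * zz Z (a k) (a l) p t) *
        (∑ q, v k q * tf v a c k l q t)) := by
    rw [Finset.sum_comm]
    refine Finset.sum_congr rfl fun l _ => Finset.sum_congr rfl fun k _ =>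
      Finset.sum_congr rfl fun t _ => ?_
    have e1 : ∑ p, bx (v k) p * zz Z (a k) (a l) p t =
        -∑ p, bx (v k) p * zz Z (a l) (a k) p t := by
      rw [← Finset.sum_neg_distrib]
      refine Finset.sum_congr rfl fun p _ => ?_
      rw [zz_swap Z (a l) (a k)]; ring
    have e2 : ∑ q, v l q * tf v a c k l q t = ∑ q, v l q * tf v a c l k q t := by
      refine Finset.sum_congr rfl fun q _ => ?_
      rw [tf_swap]
    rw [e1, e2]; ring
  have hF : (∑ k, ∑ l, br (v k) (v l) *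
      ∑ r, ∑ s, ∑ p, ∑ t, pl (a k) (a l) r s * tf v a c k l p t * Z p t r s) =
      (∑ k, ∑ l, ∑ t, (∑ p, bx (v k) p * zz Z (a k) (a l) p t) *
        (∑ q, v l q * tf v a c k l q t)) +
      ∑ k, ∑ l, ∑ t, -((∑ p, bx (v l) p * zz Z (a k) (a l) p t) *
        (∑ q, v k q * tf v a c k l q t)) := by
    rw [← Finset.sum_add_distrib]
    refine Finset.sum_congr rfl fun k _ => ?_
    rw [← Finset.sum_add_distrib]
    refine Finset.sum_congr rfl fun l _ => ?_
    rw [← Finset.sum_add_distrib, left_eq]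
    refine Finset.sum_congr rfl fun t _ => ?_
    rw [two_dim]; ring
  rw [hF, hG, ← hG']; ring

end Pool.HopfKP
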