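import Pool.Agent.Lib.MP_4a593f_gt.KP.Sec1

/-!
Nonnegative sectional curvature on tilted planes.

Hint. For `s = 0` this is `bM_nonneg`.  Let `s ≠ 0`, `π = pl a b`.  If `π = 0` everything is `0`.
Otherwise choose `c, d` with `π c d ≠ 0` and put
`U_c = s • lq (π c ·) + lp (fun p => ctr-like: ∑ r, φ p r * π c r * (-1) ...)`, precisely the vector
with `Q`-part `s π^{c·}` and `P`-part `p ↦ ∑ r, φ p r * π c r`.  By the Plücker relation
`π c r * π d t - π c t * π d r = π c d * π r t` (check: `fin_cases` + `ring`),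
`U_c ∧ U_d = s π^{cd} (s π + f + (*) e₀∧e₁)`, where `π` stands for `½ ∑ π^{rs} e_r∧e_s` and `f`
for `∑ f^{pt} e_p∧e_t`, hence `ev R U_c U_d U_c U_d = (s π^{cd})² * (the expression below)`.
(Only `R(e₀,e₁,·,·) = 0`, skewness and pair symmetry are used.)
-/

namespace Pool.HopfKP

open Finset Equiv

private theorem pl_plucker (a b : Fin 4 → ℝ) (c d r t : Fin 4) :
    pl a b c r * pl a b d t - pl a b c t * pl a b d r = pl a b c d * pl a b r t := by
  fin_cases c <;> fin_cases d <;> fin_cases r <;> fin_cases t <;> simp [pl] <;> ring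

/-- contraction of two skew arrays, the first without `e₀ ∧ e₁` component -/
private theorem contr_split {G W : Fin 6 → Fin 6 → ℝ} (hG : ∀ i j, G j i = - G i j)
    (hW : ∀ i j, W j i = - W i j) (h01 : G 0 1 = 0) :
    ∑ i, ∑ j, G i j * W i j =
      2 * ∑ p, ∑ t, G (pI p) (qI t) * W (pI p) (qI t) +
        ∑ r, ∑ s, G (qI r) (qI s) * W (qI r) (qI s) := by
  have h00 : G 0 0 = 0 := by have := hG 0 0; linarith
  have h11 : G 1 1 = 0 := by have := hG 1 1; linarith
  have h10 : G 1 0 = 0 := by rw [hG 0 1, h01]; ring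
  have g2 : ∀ t : Fin 4, G (qI t) 0 * W (qI t) 0 = G 0 (qI t) * W 0 (qI t) := by
    intro t; rw [hG 0 (qI t), hW 0 (qI t)]; ring
  have g3 : ∀ t : Fin 4, G (qI t) 1 * W (qI t) 1 = G 1 (qI t) * W 1 (qI t) := by
    intro t; rw [hG 1 (qI t), hW 1 (qI t)]; ring
  have spl : ∀ g : Fin 6 → ℝ, ∑ i, g i = g 0 + g 1 + ∑ t : Fin 4, g (qI t) := by
    intro g
    rw [Fin.sum_univ_six, Fin.sum_univ_four]
    simp [qI]
    ring
  have spl2 : ∀ g : Fin 2 → ℝ, ∑ i, g i = g 0 + g 1 := fun g => Fin.sum_univ_two g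
  rw [spl, spl2]
  rw [spl (fun j => G 0 j * W 0 j), spl (fun j => G 1 j * W 1 j)]
  have e : ∑ t : Fin 4, ∑ j, G (qI t) j * W (qI t) j =
      ∑ t : Fin 4, (G 0 (qI t) * W 0 (qI t) + G 1 (qI t) * W 1 (qI t) +
        ∑ s : Fin 4, G (qI t) (qI s) * W (qI t) (qI s)) := by
    refine Finset.sum_congr rfl fun t _ => ?_
    rw [spl, g2, g3]
  rw [e, Finset.sum_add_distrib, Finset.sum_add_distrib, h00, h01, h10, h11]
  have p0 : pI 0 = 0 := rfl
  have p1 : pI 1 = 1 := rfl
  rw [p0, p1]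
  ring

private theorem quad_split {R : Ten} (hR : IsCurvature R) (h0 : ∀ k l, R 0 1 k l = 0)
    {W : Fin 6 → Fin 6 → ℝ} (hW : ∀ i j, W j i = - W i j) :
    ∑ i, ∑ j, (∑ k, ∑ l, R i j k l * W k l) * W i j =
      ∑ r, ∑ s, ∑ t, ∑ u, W (qI r) (qI s) * W (qI t) (qI u) * bQ R r s t u +
      4 * ∑ r, ∑ s, ∑ p, ∑ t, W (qI r) (qI s) * W (pI p) (qI t) * bZ R p t r s +
      4 * ∑ p, ∑ t, ∑ q, ∑ u, W (pI p) (qI t) * W (pI q) (qI u) * bM R p t q u := by
  set H : Fin 6 → Fin 6 → ℝ := fun i j => ∑ k, ∑ l, R i j k l * W k l with hHdef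
  have hHs : ∀ i j, H j i = - H i j := by
    intro i j
    simp only [hHdef]
    rw [← Finset.sum_neg_distrib]
    refine Finset.sum_congr rfl fun k _ => ?_
    rw [← Finset.sum_neg_distrib]
    refine Finset.sum_congr rfl fun l _ => ?_
    rw [hR.skew12 i j k l]; ring
  have hH01 : H 0 1 = 0 := by
    simp only [hHdef, h0, zero_mul, Finset.sum_const_zero]
  have hH : ∀ i j, H i j = 2 * ∑ q, ∑ u, R i j (pI q) (qI u) * W (pI q) (qI u) +
      ∑ t, ∑ u, R i j (qI t) (qI u) * W (qI t) (qI u) := by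
    intro i j
    have := contr_split (G := fun k l => R i j k l) (W := W) (fun k l => hR.skew34 i j k l) hW
      (by
        show R i j 0 1 = 0
        rw [← hR.pair i j 0 1, h0])
    exact this
  have key := contr_split hHs hW hH01
  show ∑ i, ∑ j, H i j * W i j = _
  rw [key]
  have e1 : ∑ p, ∑ t, H (pI p) (qI t) * W (pI p) (qI t) =
      2 * ∑ p, ∑ t, ∑ q, ∑ u, W (pI p) (qI t) * W (pI q) (qI u) * bM R p t q u +
      ∑ p, ∑ t, ∑ r, ∑ s, W (qI r) (qI s) * W (pI p) (qI t) * bZ R p t r s := by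
    simp only [Finset.mul_sum, ← Finset.sum_add_distrib]
    refine Finset.sum_congr rfl fun p _ => ?_
    refine Finset.sum_congr rfl fun t _ => ?_
    rw [hH]
    simp only [Finset.mul_sum, Finset.sum_mul, add_mul, bM, bZ, Finset.sum_add_distrib]
    congr 1
    · refine Finset.sum_congr rfl fun q _ => Finset.sum_congr rfl fun u _ => ?_
      ring
    · refine Finset.sum_congr rfl fun q _ => Finset.sum_congr rfl fun u _ => ?_
      ring
  have e2 : ∑ r, ∑ s, H (qI r) (qI s) * W (qI r) (qI s) =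
      ∑ r, ∑ s, ∑ t, ∑ u, W (qI r) (qI s) * W (qI t) (qI u) * bQ R r s t u +
      2 * ∑ r, ∑ s, ∑ p, ∑ t, W (qI r) (qI s) * W (pI p) (qI t) * bZ R p t r s := by
    simp only [Finset.mul_sum, ← Finset.sum_add_distrib]
    refine Finset.sum_congr rfl fun r _ => ?_
    refine Finset.sum_congr rfl fun s _ => ?_
    rw [hH]
    simp only [Finset.mul_sum, Finset.sum_mul, add_mul, bQ, bZ, Finset.sum_add_distrib]
    rw [add_comm]
    congr 1
    · refine Finset.sum_congr rfl fun q _ => Finset.sum_congr rfl fun u _ => ?_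
      ring
    · refine Finset.sum_congr rfl fun q _ => Finset.sum_congr rfl fun u _ => ?_
      rw [hR.pair (pI q) (qI u) (qI r) (qI s)]
      ring
  have e3 : ∑ p, ∑ t, ∑ r, ∑ s, W (qI r) (qI s) * W (pI p) (qI t) * bZ R p t r s =
      ∑ r, ∑ s, ∑ p, ∑ t, W (qI r) (qI s) * W (pI p) (qI t) * bZ R p t r s := by
    calc ∑ p, ∑ t, ∑ r, ∑ s, W (qI r) (qI s) * W (pI p) (qI t) * bZ R p t r s
        = ∑ p, ∑ r, ∑ t, ∑ s, W (qI r) (qI s) * W (pI p) (qI t) * bZ R p t r s :=
          Finset.sum_congr rfl fun p _ => Finset.sum_comm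
      _ = ∑ p, ∑ r, ∑ s, ∑ t, W (qI r) (qI s) * W (pI p) (qI t) * bZ R p t r s :=
          Finset.sum_congr rfl fun p _ => Finset.sum_congr rfl fun r _ => Finset.sum_comm
      _ = ∑ r, ∑ p, ∑ s, ∑ t, W (qI r) (qI s) * W (pI p) (qI t) * bZ R p t r s :=
          Finset.sum_comm
      _ = ∑ r, ∑ s, ∑ p, ∑ t, W (qI r) (qI s) * W (pI p) (qI t) * bZ R p t r s :=
          Finset.sum_congr rfl fun r _ => Finset.sum_comm
  rw [e1, e2, e3]
  ring

private theorem ev_wedge {R : Ten} (hR : IsCurvature R) (U V : Vec) :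
    ∑ i, ∑ j, (∑ k, ∑ l, R i j k l * wedge U V k l) * wedge U V i j = 4 * ev R U V U V := by
  have h1 : ∀ i j, ∑ k, ∑ l, R i j k l * wedge U V k l =
      2 * ∑ k, ∑ l, R i j k l * (U k * V l) := by
    intro i j
    have e : ∑ k, ∑ l, R i j k l * (U l * V k) = - ∑ k, ∑ l, R i j k l * (U k * V l) := by
      rw [Finset.sum_comm, ← Finset.sum_neg_distrib]
      refine Finset.sum_congr rfl fun k _ => ?_
      rw [← Finset.sum_neg_distrib]
      refine Finset.sum_congr rfl fun l _ => ?_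
      rw [hR.skew34 i j k l]; ring
    have e2 : ∑ k, ∑ l, R i j k l * wedge U V k l =
        ∑ k, ∑ l, R i j k l * (U k * V l) - ∑ k, ∑ l, R i j k l * (U l * V k) := by
      simp only [← Finset.sum_sub_distrib, wedge]
      refine Finset.sum_congr rfl fun k _ => Finset.sum_congr rfl fun l _ => ?_
      ring
    rw [e2, e]; ring
  simp only [h1]
  set H : Fin 6 → Fin 6 → ℝ := fun i j => ∑ k, ∑ l, R i j k l * (U k * V l) with hHdef
  have hHs : ∀ i j, H j i = - H i j := by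
    intro i j
    simp only [hHdef]
    rw [← Finset.sum_neg_distrib]
    refine Finset.sum_congr rfl fun k _ => ?_
    rw [← Finset.sum_neg_distrib]
    refine Finset.sum_congr rfl fun l _ => ?_
    rw [hR.skew12 i j k l]; ring
  have e : ∑ i, ∑ j, H i j * (U j * V i) = - ∑ i, ∑ j, H i j * (U i * V j) := by
    rw [Finset.sum_comm, ← Finset.sum_neg_distrib]
    refine Finset.sum_congr rfl fun k _ => ?_
    rw [← Finset.sum_neg_distrib]
    refine Finset.sum_congr rfl fun l _ => ?_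
    rw [hHs k l]; ring
  have e2 : ∑ i, ∑ j, 2 * H i j * wedge U V i j =
      2 * (∑ i, ∑ j, H i j * (U i * V j) - ∑ i, ∑ j, H i j * (U j * V i)) := by
    simp only [← Finset.sum_sub_distrib, wedge, Finset.mul_sum]
    refine Finset.sum_congr rfl fun k _ => Finset.sum_congr rfl fun l _ => ?_
    ring
  have e3 : ∑ i, ∑ j, H i j * (U i * V j) = ev R U V U V := by
    unfold ev
    refine Finset.sum_congr rfl fun i _ => Finset.sum_congr rfl fun j _ => ?_
    simp only [hHdef, Finset.sum_mul]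
    refine Finset.sum_congr rfl fun k _ => Finset.sum_congr rfl fun l _ => ?_
    ring
  rw [e2, e, e3]; ring

private theorem wedge_skew (U V : Vec) (i j : Fin 6) : wedge U V j i = - wedge U V i j := by
  unfold wedge; ring

/-- the vector with `P`-part `x` and `Q`-part `y` -/
private def mk (x : Fin 2 → ℝ) (y : Fin 4 → ℝ) : Vec := ![x 0, x 1, y 0, y 1, y 2, y 3]

private theorem mk_p (x : Fin 2 → ℝ) (y : Fin 4 → ℝ) (p : Fin 2) : mk x y (pI p) = x p := by
  fin_cases p <;> rfl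

private theorem mk_q (x : Fin 2 → ℝ) (y : Fin 4 → ℝ) (p : Fin 4) : mk x y (qI p) = y p := by
  fin_cases p <;> rfl

/-- tilted planes -/
theorem tilt {R : Ten} (hR : IsCurvature R) (h0 : ∀ k l, R 0 1 k l = 0)
    (hs : ∀ u w, 0 ≤ ev R u w u w) (a b : Fin 4 → ℝ) (φ : Fin 2 → Fin 4 → ℝ) (s : ℝ)
    (f : Fin 2 → Fin 4 → ℝ) (hf : ∀ p t, f p t = ctr (φ p) (pl a b) t) :
    0 ≤ s ^ 2 * (rho (bQ R) (pl a b) / 4) +
      s * (∑ r, ∑ s', ∑ p, ∑ t, pl a b r s' * f p t * bZ R p t r s') +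
      ∑ p, ∑ t, ∑ q, ∑ u, f p t * f q u * bM R p t q u := by
  by_cases hs0 : s = 0
  · subst hs0
    have := bM_nonneg hR h0 hs f
    simpa using this
  by_cases hπ : ∀ c d, pl a b c d = 0
  · have hf0 : ∀ p t, f p t = 0 := by
      intro p t
      rw [hf]
      unfold ctr
      simp [hπ]
    simp [rho, hπ, hf0]
  push Not at hπ
  obtain ⟨c, d, hcd⟩ := hπ
  set κ := pl a b c d with hκ
  let U : Vec := mk (fun p => ∑ r, φ p r * pl a b c r) (fun t => s * pl a b c t)
  let V : Vec := mk (fun p => ∑ r, φ p r * pl a b d r) (fun t => s * pl a b d t)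
  have hq : ∀ r t, wedge U V (qI r) (qI t) = s ^ 2 * κ * pl a b r t := by
    intro r t
    simp only [wedge, U, V, mk_q]
    have := pl_plucker a b c d r t
    rw [hκ]
    linear_combination (s ^ 2) * this
  have hp : ∀ p t, wedge U V (pI p) (qI t) = s * κ * f p t := by
    intro p t
    simp only [wedge, U, V, mk_q, mk_p]
    rw [hf, hκ]
    unfold ctr
    have e : (∑ r, φ p r * pl a b c r) * (s * pl a b d t) -
        (s * pl a b c t) * (∑ r, φ p r * pl a b d r) =
        ∑ r, s * (φ p r * (pl a b c r * pl a b d t - pl a b c t * pl a b d r)) := by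
      rw [Finset.sum_mul, Finset.mul_sum, ← Finset.sum_sub_distrib]
      refine Finset.sum_congr rfl fun r _ => ?_
      ring
    rw [e, Finset.mul_sum]
    refine Finset.sum_congr rfl fun r _ => ?_
    rw [pl_plucker]; ring
  have key := quad_split hR h0 (W := wedge U V) (wedge_skew U V)
  rw [ev_wedge hR] at key
  simp only [hq, hp] at key
  have hev := hs U V
  have e1 : ∑ r, ∑ s', ∑ t, ∑ u, s ^ 2 * κ * pl a b r s' * (s ^ 2 * κ * pl a b t u) *
      bQ R r s' t u = (s ^ 2 * κ) ^ 2 * rho (bQ R) (pl a b) := by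
    unfold rho
    simp only [Finset.mul_sum]
    refine Finset.sum_congr rfl fun r _ => Finset.sum_congr rfl fun s' _ =>
      Finset.sum_congr rfl fun t _ => Finset.sum_congr rfl fun u _ => ?_
    ring
  have e2 : ∑ r, ∑ s', ∑ p, ∑ t, s ^ 2 * κ * pl a b r s' * (s * κ * f p t) * bZ R p t r s' =
      (s * κ) ^ 2 * (s * ∑ r, ∑ s', ∑ p, ∑ t, pl a b r s' * f p t * bZ R p t r s') := by
    simp only [Finset.mul_sum]
    refine Finset.sum_congr rfl fun r _ => Finset.sum_congr rfl fun s' _ =>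
      Finset.sum_congr rfl fun t _ => Finset.sum_congr rfl fun u _ => ?_
    ring
  have e3 : ∑ p, ∑ t, ∑ q, ∑ u, s * κ * f p t * (s * κ * f q u) * bM R p t q u =
      (s * κ) ^ 2 * ∑ p, ∑ t, ∑ q, ∑ u, f p t * f q u * bM R p t q u := by
    simp only [Finset.mul_sum]
    refine Finset.sum_congr rfl fun r _ => Finset.sum_congr rfl fun s' _ =>
      Finset.sum_congr rfl fun t _ => Finset.sum_congr rfl fun u _ => ?_
    ring
  rw [e1, e2, e3] at key
  have hpos : 0 < (s * κ) ^ 2 := by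
    have : s * κ ≠ 0 := mul_ne_zero hs0 hcd
    positivity
  have e4 : ev R U V U V = (s * κ) ^ 2 * (s ^ 2 * (rho (bQ R) (pl a b) / 4) +
      s * (∑ r, ∑ s', ∑ p, ∑ t, pl a b r s' * f p t * bZ R p t r s') +
      ∑ p, ∑ t, ∑ q, ∑ u, f p t * f q u * bM R p t q u) := by
    linear_combination (1 / 4 : ℝ) * key
  rw [e4] at hev
  exact nonneg_of_mul_nonneg_right hev hpos

end Pool.HopfKP
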