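import Pool.Agent.Lib.MP_4a593f_gt.KP.Biject
import Pool.Agent.Lib.MP_4a593f_gt.KP.GbBlock
import Pool.Agent.Lib.MP_4a593f_gt.KP.Ident2
import Pool.Agent.Lib.MP_4a593f_gt.KP.Sec2

/-!
The core inequality in the nondegenerate case.
-/

namespace Pool.HopfKP

open Finset Equiv

theorem ctr_tf {K : Type} (v : K → Fin 2 → ℝ) (a c : K → Fin 4 → ℝ) (k l : K) (p : Fin 2)
    (t : Fin 4) : tf v a c k l p t =
      ctr (fun u => v k p * c l u - v l p * c k u) (pl (a k) (a l)) t := by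
  unfold tf ctr
  simp only [Finset.mul_sum, ← Finset.sum_sub_distrib]
  exact Finset.sum_congr rfl fun u _ => by ring

/-- for atomic `M` the form on `P ⊗ Q` is `Mq` -/
theorem Mq_eq {K : Type} [Fintype K] (v : K → Fin 2 → ℝ) (a : K → Fin 4 → ℝ)
    {M : Fin 2 → Fin 4 → Fin 2 → Fin 4 → ℝ}
    (hM : ∀ p t q u, M p t q u = ∑ k, v k p * a k t * (v k q * a k u))
    (f : Fin 2 → Fin 4 → ℝ) :
    ∑ p, ∑ t, ∑ q, ∑ u, f p t * f q u * M p t q u = Mq v a f := by
  unfold Mq
  simp only [hM, Finset.mul_sum]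
  have : ∀ m, (∑ p, ∑ t, v m p * a m t * f p t) ^ 2 =
      ∑ p, ∑ t, ∑ q, ∑ u, f p t * f q u * (v m p * a m t * (v m q * a m u)) := by
    intro m
    rw [sq, Finset.sum_mul]
    refine Finset.sum_congr rfl fun p _ => ?_
    rw [Finset.sum_mul]
    refine Finset.sum_congr rfl fun t _ => ?_
    rw [Finset.mul_sum]
    refine Finset.sum_congr rfl fun q _ => ?_
    rw [Finset.mul_sum]
    exact Finset.sum_congr rfl fun u _ => by ring
  simp only [this]
  symm
  rw [Finset.sum_comm]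
  refine Finset.sum_congr rfl fun p _ => ?_
  rw [Finset.sum_comm]
  refine Finset.sum_congr rfl fun t _ => ?_
  rw [Finset.sum_comm]
  refine Finset.sum_congr rfl fun q _ => ?_
  rw [Finset.sum_comm]

theorem pl_self_right (a b : Fin 4 → ℝ) (u : Fin 4) : ∑ t, pl a b u t * a t = 0 := by
  fin_cases u <;> simp [pl, Fin.sum_univ_four] <;> ring

theorem pl_self_right' (a b : Fin 4 → ℝ) (u : Fin 4) : ∑ t, pl a b u t * b t = 0 := by
  fin_cases u <;> simp [pl, Fin.sum_univ_four] <;> ring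

theorem Sm_mul (K : Type) [Fintype K] (v : K → Fin 2 → ℝ) (a c : K → Fin 4 → ℝ) (k : K)
    (r : Fin 4) : ∑ s, Sm v a c k r s * a k s = 0 := by
  have h : ∀ l p, ∑ s, tf v a c k l p s * a k s = 0 := by
    intro l p
    unfold tf ctr
    have h1 : ∀ d : Fin 4 → ℝ, ∑ s, (∑ u, d u * pl (a k) (a l) u s) * a k s = 0 := by
      intro d
      simp only [Finset.sum_mul]
      rw [Finset.sum_comm]
      refine Finset.sum_eq_zero fun u _ => ?_
      have := pl_self_right (a k) (a l) u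
      calc ∑ s, d u * pl (a k) (a l) u s * a k s = d u * ∑ s, pl (a k) (a l) u s * a k s := by
            rw [Finset.mul_sum]; exact Finset.sum_congr rfl fun s _ => by ring
        _ = 0 := by rw [this, mul_zero]
    have e : ∀ s, (v k p * ∑ u, c l u * pl (a k) (a l) u s -
        v l p * ∑ u, c k u * pl (a k) (a l) u s) * a k s =
        v k p * ((∑ u, c l u * pl (a k) (a l) u s) * a k s) -
        v l p * ((∑ u, c k u * pl (a k) (a l) u s) * a k s) := fun s => by ring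
    simp only [e, Finset.sum_sub_distrib, ← Finset.mul_sum, h1]
    simp
  unfold Sm
  have e : ∀ s, (∑ l, a l r * ∑ p, v l p * tf v a c k l p s) * a k s =
      ∑ l, ∑ p, a l r * v l p * (tf v a c k l p s * a k s) := by
    intro s
    rw [Finset.sum_mul]
    refine Finset.sum_congr rfl fun l _ => ?_
    rw [Finset.mul_sum, Finset.sum_mul]
    exact Finset.sum_congr rfl fun p _ => by ring
  simp only [e]
  rw [Finset.sum_comm]
  refine Finset.sum_eq_zero fun l _ => ?_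
  rw [Finset.sum_comm]
  refine Finset.sum_eq_zero fun p _ => ?_
  rw [← Finset.mul_sum, h, mul_zero]

theorem pl_eQ (a : Fin 4 → ℝ) (r s : Fin 4) : ∑ u, pl a (eQ u) r s * a u = 0 := by
  fin_cases r <;> fin_cases s <;> simp [pl, eQ, Fin.sum_univ_four, Pi.single_apply] <;> ring

theorem Ym_mul (Z : Fin 2 → Fin 4 → Fin 4 → Fin 4 → ℝ) (v : Fin 2 → ℝ) (a : Fin 4 → ℝ)
    (t : Fin 4) : ∑ u, Ym Z v a t u * a u = 0 := by
  unfold Ym
  have e : ∀ u, (∑ p, bx v p * ∑ r, ∑ s, pl a (eQ u) r s * Z p t r s) * a u =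
      ∑ p, ∑ r, ∑ s, bx v p * Z p t r s * (pl a (eQ u) r s * a u) := by
    intro u
    rw [Finset.sum_mul]
    refine Finset.sum_congr rfl fun p _ => ?_
    rw [Finset.mul_sum, Finset.sum_mul]
    refine Finset.sum_congr rfl fun r _ => ?_
    rw [Finset.mul_sum, Finset.sum_mul]
    exact Finset.sum_congr rfl fun s _ => by ring
  simp only [e]
  rw [Finset.sum_comm]
  refine Finset.sum_eq_zero fun p _ => ?_
  rw [Finset.sum_comm]
  refine Finset.sum_eq_zero fun r _ => ?_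
  rw [Finset.sum_comm]
  refine Finset.sum_eq_zero fun s _ => ?_
  rw [← Finset.mul_sum, pl_eQ, mul_zero]

theorem core {R : Ten} (hR : IsCurvature R) (h0 : ∀ k l, R 0 1 k l = 0)
    (hs : ∀ u w, 0 ≤ ev R u w u w) {K : Type} [Fintype K] (v : K → Fin 2 → ℝ)
    (a : K → Fin 4 → ℝ) (hM : ∀ p t q u, bM R p t q u = ∑ k, v k p * a k t * (v k q * a k u))
    (ha : ∀ k, a k ≠ 0) (hM1 : ∀ f, Mq v a f = 0 → f = 0)
    (hsp : ∀ k, Submodule.span ℝ {x | ∃ l, br (v k) (v l) ≠ 0 ∧ x = a l} = ⊤) : 0 ≤ gb R := by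
  obtain ⟨c, hc⟩ := exists_c v a ha hM1 hsp (bZ R)
  rw [gb_block hR h0 v a hM]
  have hN : ∀ k, 0 ≤ tr2 (fun r s => Ym (bZ R) (v k) (a k) r s - 2 * Sm v a c k r s)
      (fun r s => Ym (bZ R) (v k) (a k) r s - 2 * Sm v a c k r s) := by
    intro k
    refine tr_nonneg_of_alt (ha k) (fun r => ?_) (hc k)
    have e : ∀ s, (Ym (bZ R) (v k) (a k) r s - 2 * Sm v a c k r s) * a k s =
        Ym (bZ R) (v k) (a k) r s * a k s - 2 * (Sm v a c k r s * a k s) := fun s => by ring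
    simp only [e, Finset.sum_sub_distrib, ← Finset.mul_sum, Sm_mul, Ym_mul]
    simp
  have hN2 : ∀ k, tr2 (fun r s => Ym (bZ R) (v k) (a k) r s - 2 * Sm v a c k r s)
      (fun r s => Ym (bZ R) (v k) (a k) r s - 2 * Sm v a c k r s) =
      tr2 (Ym (bZ R) (v k) (a k)) (Ym (bZ R) (v k) (a k)) -
      4 * tr2 (Ym (bZ R) (v k) (a k)) (Sm v a c k) + 4 * tr2 (Sm v a c k) (Sm v a c k) := by
    intro k
    have hsym : tr2 (Sm v a c k) (Ym (bZ R) (v k) (a k)) =
        tr2 (Ym (bZ R) (v k) (a k)) (Sm v a c k) := by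
      unfold tr2
      rw [Finset.sum_comm]
      exact Finset.sum_congr rfl fun i _ => Finset.sum_congr rfl fun j _ => by ring
    have h3 : tr2 (fun r s => Ym (bZ R) (v k) (a k) r s - 2 * Sm v a c k r s)
      (fun r s => Ym (bZ R) (v k) (a k) r s - 2 * Sm v a c k r s) =
      tr2 (Ym (bZ R) (v k) (a k)) (Ym (bZ R) (v k) (a k)) -
      2 * tr2 (Ym (bZ R) (v k) (a k)) (Sm v a c k) - 2 * tr2 (Sm v a c k) (Ym (bZ R) (v k) (a k))
      + 4 * tr2 (Sm v a c k) (Sm v a c k) := by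
      unfold tr2
      simp only [Finset.mul_sum, ← Finset.sum_sub_distrib, ← Finset.sum_add_distrib]
      exact Finset.sum_congr rfl fun i _ => Finset.sum_congr rfl fun j _ => by ring
    rw [h3, hsym]; ring
  have ht : ∀ k l, 0 ≤ br (v k) (v l) ^ 2 * (rho (bQ R) (pl (a k) (a l)) / 4) +
      br (v k) (v l) * (∑ r, ∑ s', ∑ p, ∑ t, pl (a k) (a l) r s' * tf v a c k l p t *
        bZ R p t r s') + Mq v a (tf v a c k l) := by
    intro k l
    have := tilt hR h0 hs (a k) (a l) (fun p u => v k p * c l u - v l p * c k u)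
      (br (v k) (v l)) (tf v a c k l) (fun p t => ctr_tf v a c k l p t)
    rwa [Mq_eq v a hM] at this
  have h1 : 0 ≤ ∑ k, ∑ l, (br (v k) (v l) ^ 2 * (rho (bQ R) (pl (a k) (a l)) / 4) +
      br (v k) (v l) * (∑ r, ∑ s', ∑ p, ∑ t, pl (a k) (a l) r s' * tf v a c k l p t *
        bZ R p t r s') + Mq v a (tf v a c k l)) :=
    Finset.sum_nonneg fun k _ => Finset.sum_nonneg fun l _ => ht k l
  simp only [Finset.sum_add_distrib] at h1
  rw [cross] at h1
  have h2 := ident_le v a c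
  have h3 : 0 ≤ ∑ k, tr2 (fun r s => Ym (bZ R) (v k) (a k) r s - 2 * Sm v a c k r s)
      (fun r s => Ym (bZ R) (v k) (a k) r s - 2 * Sm v a c k r s) :=
    Finset.sum_nonneg fun k _ => hN k
  simp only [hN2, Finset.sum_add_distrib, Finset.sum_sub_distrib, ← Finset.mul_sum] at h3
  have h4 : (∑ k, ∑ l, br (v k) (v l) ^ 2 * (rho (bQ R) (pl (a k) (a l)) / 4)) =
      (∑ k, ∑ l, br (v k) (v l) ^ 2 * rho (bQ R) (pl (a k) (a l))) / 4 := by
    rw [Finset.sum_div]
    refine Finset.sum_congr rfl fun k _ => ?_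
    rw [Finset.sum_div]
    exact Finset.sum_congr rfl fun l _ => by ring
  rw [h4] at h1
  linarith

end Pool.HopfKP
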