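import Pool.Agent.Lib.MP_4a593f_gt.KP.Basic

/-!
The block quantities: splitting `ℝ⁶ = P ⊕ Q`, `dim P = 2`, `dim Q = 4`.
-/

namespace Pool.HopfKP

open Finset Equiv

/-- index of the plane `P` -/
def pI : Fin 2 → Fin 6 := ![0, 1]

/-- index of the complement `Q` -/
def qI : Fin 4 → Fin 6 := ![2, 3, 4, 5]

/-- vector (or covector) of `P` as an element of `ℝ⁶` -/
def lp (v : Fin 2 → ℝ) : Vec := ![v 0, v 1, 0, 0, 0, 0]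

/-- vector (or covector) of `Q` as an element of `ℝ⁶` -/
def lq (a : Fin 4 → ℝ) : Vec := ![0, 0, a 0, a 1, a 2, a 3]

/-- 2-array on `Q` as an array on `ℝ⁶` -/
def lq2 (ζ : Fin 4 → Fin 4 → ℝ) : Arr := ![![0, 0, 0, 0, 0, 0], ![0, 0, 0, 0, 0, 0],
  ![0, 0, ζ 0 0, ζ 0 1, ζ 0 2, ζ 0 3], ![0, 0, ζ 1 0, ζ 1 1, ζ 1 2, ζ 1 3],
  ![0, 0, ζ 2 0, ζ 2 1, ζ 2 2, ζ 2 3], ![0, 0, ζ 3 0, ζ 3 1, ζ 3 2, ζ 3 3]]

/-- `[v w] = v₀ w₁ - v₁ w₀` -/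
def br (v w : Fin 2 → ℝ) : ℝ := v 0 * w 1 - v 1 * w 0

/-- the bivector `*(a ∧ b)` of `Q`, i.e. `det (a, b, e_r, e_s)` -/
def pl (a b : Fin 4 → ℝ) : Fin 4 → Fin 4 → ℝ :=
  ![![0, a 2 * b 3 - a 3 * b 2, a 3 * b 1 - a 1 * b 3, a 1 * b 2 - a 2 * b 1],
    ![a 3 * b 2 - a 2 * b 3, 0, a 0 * b 3 - a 3 * b 0, a 2 * b 0 - a 0 * b 2],
    ![a 1 * b 3 - a 3 * b 1, a 3 * b 0 - a 0 * b 3, 0, a 0 * b 1 - a 1 * b 0],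
    ![a 2 * b 1 - a 1 * b 2, a 0 * b 2 - a 2 * b 0, a 1 * b 0 - a 0 * b 1, 0]]

/-- contraction of a bivector with a covector -/
def ctr (c : Fin 4 → ℝ) (π : Fin 4 → Fin 4 → ℝ) (t : Fin 4) : ℝ := ∑ u, c u * π u t

/-- unit vector of `Q` -/
def eQ (u : Fin 4) : Fin 4 → ℝ := Pi.single u 1

/-- component of the rotated covector `[v, x_p]` -/
def bx (v : Fin 2 → ℝ) : Fin 2 → ℝ := ![- v 1, v 0]

/-- block `R_Q` -/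
def bQ (R : Ten) (r s t u : Fin 4) : ℝ := R (qI r) (qI s) (qI t) (qI u)

/-- block `Z` : `R(x_p, e_t, e_r, e_s)` -/
def bZ (R : Ten) (p : Fin 2) (t r s : Fin 4) : ℝ := R (pI p) (qI t) (qI r) (qI s)

/-- block `M` : `R(x_p, e_t, x_q, e_u)` -/
def bM (R : Ten) (p : Fin 2) (t : Fin 4) (q : Fin 2) (u : Fin 4) : ℝ :=
  R (pI p) (qI t) (pI q) (qI u)

/-- `∑ π^{rs} π^{tu} R_{rstu}` -/
def rho (RQ : Fin 4 → Fin 4 → Fin 4 → Fin 4 → ℝ) (π : Fin 4 → Fin 4 → ℝ) : ℝ :=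
  ∑ r, ∑ s, ∑ t, ∑ u, π r s * π t u * RQ r s t u

/-- trace of the product of two matrices -/
def tr2 {n : ℕ} (A B : Fin n → Fin n → ℝ) : ℝ := ∑ i, ∑ j, A i j * B j i

section

variable {K : Type} [Fintype K]

/-- the quadratic form `∑_m (η_m · f)²` on `P ⊗ Q` -/
def Mq (v : K → Fin 2 → ℝ) (a : K → Fin 4 → ℝ) (f : Fin 2 → Fin 4 → ℝ) : ℝ :=
  ∑ m, (∑ p, ∑ t, v m p * a m t * f p t) ^ 2

/-- the tilts `f_{kl}` -/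
def tf (v : K → Fin 2 → ℝ) (a c : K → Fin 4 → ℝ) (k l : K) (p : Fin 2) (t : Fin 4) : ℝ :=
  v k p * ctr (c l) (pl (a k) (a l)) t - v l p * ctr (c k) (pl (a k) (a l)) t

/-- `S_k = ∑_l η_l · f_{kl}` -/
def Sm (v : K → Fin 2 → ℝ) (a c : K → Fin 4 → ℝ) (k : K) (r s : Fin 4) : ℝ :=
  ∑ l, a l r * ∑ p, v l p * tf v a c k l p s

/-- the matrix `Y_k` -/
def Ym (Z : Fin 2 → Fin 4 → Fin 4 → Fin 4 → ℝ) (v : Fin 2 → ℝ) (a : Fin 4 → ℝ)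
    (t u : Fin 4) : ℝ :=
  ∑ p, bx v p * ∑ r, ∑ s, pl a (eQ u) r s * Z p t r s

end

/-- the antisymmetric part of a matrix `N` on the orthogonal complement of `a`, as a vector -/
def alt (a : Fin 4 → ℝ) (N : Fin 4 → Fin 4 → ℝ) (w : Fin 4) : ℝ :=
  ∑ s, ∑ t, pl a (eQ w) s t * N s t

end Pool.HopfKP
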