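import Pool.Agent.Lib.MP_4a593f_gt.KP.Vanish

/-!
Block decomposition of a curvature tensor with `R(e₀,e₁,·,·) = 0` and atomic block `M`.
-/

namespace Pool.HopfKP

open Finset Equiv

/-- unit covector of `P` -/
def eP (p : Fin 2) : Fin 2 → ℝ := Pi.single p 1

/-- `∑_k η_k ⊗ η_k`, `η_k = v_k ∧ a_k` -/
def tN {K : Type} [Fintype K] (v : K → Fin 2 → ℝ) (a : K → Fin 4 → ℝ) : Ten :=
  ∑ k, tens (wedge (lp (v k)) (lq (a k))) (wedge (lp (v k)) (lq (a k)))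

/-- `Z`-part with the `P`-index in the first pair -/
def tZ1 (Z : Fin 2 → Fin 4 → Fin 4 → Fin 4 → ℝ) : Ten :=
  ∑ p, ∑ t, tens (wedge (lp (eP p)) (lq (eQ t))) (lq2 (Z p t))

/-- `Z`-part with the `P`-index in the second pair -/
def tZ2 (Z : Fin 2 → Fin 4 → Fin 4 → Fin 4 → ℝ) : Ten :=
  ∑ p, ∑ t, tens (lq2 (Z p t)) (wedge (lp (eP p)) (lq (eQ t)))

/-- matrix unit -/
def eM (r s : Fin 4) : Fin 4 → Fin 4 → ℝ := fun i j => if i = r ∧ j = s then 1 else 0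

/-- `Q`-part -/
def tQ (RQ : Fin 4 → Fin 4 → Fin 4 → Fin 4 → ℝ) : Ten :=
  ∑ r, ∑ s, tens (lq2 (eM r s)) (lq2 (RQ r s))

private theorem idx (i : Fin 6) : (∃ p, i = pI p) ∨ (∃ t, i = qI t) := by
  fin_cases i
  · exact Or.inl ⟨0, rfl⟩
  · exact Or.inl ⟨1, rfl⟩
  · exact Or.inr ⟨0, rfl⟩
  · exact Or.inr ⟨1, rfl⟩
  · exact Or.inr ⟨2, rfl⟩
  · exact Or.inr ⟨3, rfl⟩

private theorem lp_P (v : Fin 2 → ℝ) (p : Fin 2) : lp v (pI p) = v p := by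
  fin_cases p <;> rfl

private theorem lp_Q (v : Fin 2 → ℝ) (t : Fin 4) : lp v (qI t) = 0 := by
  fin_cases t <;> rfl

private theorem lq_P (a : Fin 4 → ℝ) (p : Fin 2) : lq a (pI p) = 0 := by
  fin_cases p <;> rfl

private theorem lq_Q (a : Fin 4 → ℝ) (t : Fin 4) : lq a (qI t) = a t := by
  fin_cases t <;> rfl

private theorem lq2_P (ζ : Fin 4 → Fin 4 → ℝ) (p : Fin 2) (j : Fin 6) : lq2 ζ (pI p) j = 0 := by
  fin_cases p <;> fin_cases j <;> rfl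

private theorem lq2_P' (ζ : Fin 4 → Fin 4 → ℝ) (p : Fin 2) (j : Fin 6) : lq2 ζ j (pI p) = 0 := by
  fin_cases p <;> fin_cases j <;> rfl

private theorem lq2_Q (ζ : Fin 4 → Fin 4 → ℝ) (r s : Fin 4) : lq2 ζ (qI r) (qI s) = ζ r s := by
  fin_cases r <;> fin_cases s <;> rfl

private theorem w_PQ (v : Fin 2 → ℝ) (a : Fin 4 → ℝ) (p : Fin 2) (t : Fin 4) :
    wedge (lp v) (lq a) (pI p) (qI t) = v p * a t := by
  simp [wedge, lp_P, lp_Q, lq_P, lq_Q]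

private theorem w_QP (v : Fin 2 → ℝ) (a : Fin 4 → ℝ) (p : Fin 2) (t : Fin 4) :
    wedge (lp v) (lq a) (qI t) (pI p) = - (v p * a t) := by
  simp [wedge, lp_P, lp_Q, lq_P, lq_Q]

private theorem w_PP (v : Fin 2 → ℝ) (a : Fin 4 → ℝ) (p q : Fin 2) :
    wedge (lp v) (lq a) (pI p) (pI q) = 0 := by
  simp [wedge, lq_P]

private theorem w_QQ (v : Fin 2 → ℝ) (a : Fin 4 → ℝ) (s t : Fin 4) :
    wedge (lp v) (lq a) (qI s) (qI t) = 0 := by
  simp [wedge, lp_Q]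

private theorem sumPQ (X : Fin 2 → Fin 4 → ℝ) (p : Fin 2) (t : Fin 4) :
    ∑ p', ∑ t', (eP p' p * eQ t' t) * X p' t' = X p t := by
  simp [eP, eQ, Pi.single_apply]

private theorem sumPQ' (X : Fin 2 → Fin 4 → ℝ) (p : Fin 2) (t : Fin 4) :
    ∑ p', ∑ t', X p' t' * (eP p' p * eQ t' t) = X p t := by
  simp [eP, eQ, Pi.single_apply]

private theorem sumQQ (X : Fin 4 → Fin 4 → ℝ) (r s : Fin 4) :
    ∑ r', ∑ s', eM r' s' r s * X r' s' = X r s := by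
  simp [eM, ite_and]

private theorem tN_ap {K : Type} [Fintype K] (v : K → Fin 2 → ℝ) (a : K → Fin 4 → ℝ)
    (i j k l : Fin 6) : tN v a i j k l =
      ∑ m, wedge (lp (v m)) (lq (a m)) i j * wedge (lp (v m)) (lq (a m)) k l := by
  simp [tN, tens, Finset.sum_apply]

private theorem tZ1_ap (Z : Fin 2 → Fin 4 → Fin 4 → Fin 4 → ℝ) (i j k l : Fin 6) :
    tZ1 Z i j k l = ∑ p, ∑ t, wedge (lp (eP p)) (lq (eQ t)) i j * lq2 (Z p t) k l := by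
  simp [tZ1, tens, Finset.sum_apply]

private theorem tZ2_ap (Z : Fin 2 → Fin 4 → Fin 4 → Fin 4 → ℝ) (i j k l : Fin 6) :
    tZ2 Z i j k l = ∑ p, ∑ t, lq2 (Z p t) i j * wedge (lp (eP p)) (lq (eQ t)) k l := by
  simp [tZ2, tens, Finset.sum_apply]

private theorem tQ_ap (RQ : Fin 4 → Fin 4 → Fin 4 → Fin 4 → ℝ) (i j k l : Fin 6) :
    tQ RQ i j k l = ∑ r, ∑ s, lq2 (eM r s) i j * lq2 (RQ r s) k l := by
  simp [tQ, tens, Finset.sum_apply]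

private theorem R_PP {R : Ten} (hR : IsCurvature R) (h0 : ∀ k l, R 0 1 k l = 0) (p q : Fin 2)
    (k l : Fin 6) : R (pI p) (pI q) k l = 0 := by
  have a := hR.skew12 0 0 k l
  have b := hR.skew12 1 1 k l
  have c := hR.skew12 0 1 k l
  have d := h0 k l
  fin_cases p <;> fin_cases q <;> simp [pI] <;> linarith

theorem decomp {R : Ten} (hR : IsCurvature R) (h0 : ∀ k l, R 0 1 k l = 0) {K : Type} [Fintype K]
    (v : K → Fin 2 → ℝ) (a : K → Fin 4 → ℝ)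
    (hM : ∀ p t q u, bM R p t q u = ∑ k, v k p * a k t * (v k q * a k u)) :
    R = tN v a + tZ1 (bZ R) + tZ2 (bZ R) + tQ (bQ R) := by
  have hM' : ∀ p t q u, R (pI p) (qI t) (pI q) (qI u) =
    ∑ k, v k p * a k t * (v k q * a k u) := hM
  have hp : ∀ i j p q, R i j (pI p) (pI q) = 0 := fun i j p q => by
    rw [← hR.pair]
    exact R_PP hR h0 p q i j
  have hpp := R_PP hR h0
  funext i j k l
  simp only [Pi.add_apply, tN_ap, tZ1_ap, tZ2_ap, tQ_ap]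
  rcases idx i with ⟨p, rfl⟩ | ⟨r, rfl⟩ <;> rcases idx j with ⟨q, rfl⟩ | ⟨s, rfl⟩ <;>
    rcases idx k with ⟨p', rfl⟩ | ⟨r', rfl⟩ <;> rcases idx l with ⟨q', rfl⟩ | ⟨s', rfl⟩ <;>
    simp only [lq2_P, lq2_P', lq2_Q, w_PQ, w_QP, w_PP, w_QQ, hp, hpp, zero_mul, mul_zero,
      Finset.sum_const_zero, neg_mul, mul_neg, neg_neg, Finset.sum_neg_distrib, neg_zero, add_zero,
      zero_add,
      sumPQ, sumPQ', sumQQ]
  · exact hM' p s p' s'
  · rw [hR.skew34, hM']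
  · rfl
  · rw [hR.skew12, hM']
  · rw [hR.skew12, hR.skew34, hM', neg_neg]
  · rw [hR.skew12]
    rfl
  · rw [← hR.pair]
    rfl
  · rw [hR.skew34, ← hR.pair]
    rfl
  · rfl

end Pool.HopfKP
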