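import Mathlib

/-!
Algebraic curvature tensors on `ℝ⁶` in components with respect to the standard orthonormal basis,
lower bounds for the sectional curvature, and the Gauss-Bonnet integrand in dimension 6.
-/

namespace Pool.HopfKP

open Finset Equiv

/-- Vectors of `ℝ⁶`. -/
abbrev Vec := Fin 6 → ℝ

/-- Four-index arrays over `ℝ⁶`. -/
abbrev Ten := Fin 6 → Fin 6 → Fin 6 → Fin 6 → ℝ

/-- The Euclidean inner product of `ℝ⁶`. -/
def dot (u v : Vec) : ℝ := ∑ i, u i * v i

/-- `R` is an algebraic curvature tensor on `ℝ⁶`: skew in the first pair, skew in the second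
pair, first Bianchi identity (the pair symmetry follows). Convention: `R_{ijij}` is the sectional
curvature of the coordinate plane `i, j`. -/
structure IsCurvature (R : Ten) : Prop where
  skew12 : ∀ i j k l, R j i k l = - R i j k l
  skew34 : ∀ i j k l, R i j l k = - R i j k l
  bianchi : ∀ i j k l, R i j k l + R j k i l + R k i j l = 0

/-- `R(u,v,w,z)` for vectors. -/
def ev (R : Ten) (u v w z : Vec) : ℝ :=
  ∑ i, ∑ j, ∑ k, ∑ l, R i j k l * u i * v j * w k * z l

/-- All sectional curvatures of `R` are at least `κ`. -/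
def SecGE (R : Ten) (κ : ℝ) : Prop :=
  ∀ u v : Vec, κ * (dot u u * dot v v - dot u v ^ 2) ≤ ev R u v u v

/-- The Gauss-Bonnet integrand in dimension 6 (up to a positive universal constant):
`∑_{σ,τ} sgn σ sgn τ R_{σ0σ1τ0τ1} R_{σ2σ3τ2τ3} R_{σ4σ5τ4τ5}`. -/
def gb (R : Ten) : ℝ :=
  ∑ σ : Perm (Fin 6), ∑ τ : Perm (Fin 6),
    (((Perm.sign σ : ℤ) : ℝ) * ((Perm.sign τ : ℤ) : ℝ)) *
      (R (σ 0) (σ 1) (τ 0) (τ 1) * R (σ 2) (σ 3) (τ 2) (τ 3) * R (σ 4) (σ 5) (τ 4) (τ 5))

/-- The curvature tensor of constant curvature one. -/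
def cI : Ten := fun i j k l =>
  (if i = k then 1 else 0) * (if j = l then 1 else 0) -
    (if i = l then 1 else 0) * (if j = k then 1 else 0)

end Pool.HopfKP
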