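import Pool.Agent.Lib.MP_4a593f_gt.KP.Decomp
import Pool.Agent.Lib.MP_4a593f_gt.KP.T3Eval

/-!
The integrand on `(N, N, R_Q)`.

Hint: `gb3_sum_left/mid/right`, `gb3_tens`, `T3_wedge` (twice: once with `ζ = eM r s`, once with
`ζ = RQ r s`), then sums.
-/

namespace Pool.HopfKP

open Finset Equiv

private theorem sum_eM (p : Fin 4 → Fin 4 → ℝ) (r s : Fin 4) :
    ∑ i, ∑ j, p i j * eM r s i j = p r s := by
  unfold eM
  simp only [ite_and, mul_ite, mul_one, mul_zero]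
  simp

theorem gb_NNQ {K : Type} [Fintype K] (v : K → Fin 2 → ℝ) (a : K → Fin 4 → ℝ)
    (RQ : Fin 4 → Fin 4 → Fin 4 → Fin 4 → ℝ) :
    gb3 (tN v a) (tN v a) (tQ RQ) =
      16 * ∑ k, ∑ l, br (v k) (v l) ^ 2 * rho RQ (pl (a k) (a l)) := by
  unfold tN tQ
  rw [gb3_sum_left, Finset.mul_sum]
  refine Finset.sum_congr rfl fun k _ => ?_
  rw [gb3_sum_mid, Finset.mul_sum]
  refine Finset.sum_congr rfl fun l _ => ?_
  rw [gb3_sum_right]
  simp only [gb3_sum_right, gb3_tens, T3_wedge, sum_eM]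
  unfold rho
  simp only [Finset.mul_sum]
  refine Finset.sum_congr rfl fun r _ => Finset.sum_congr rfl fun s _ =>
    Finset.sum_congr rfl fun t _ => Finset.sum_congr rfl fun u _ => ?_
  ring

end Pool.HopfKP
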