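import Pool.Agent.Lib.MP_4a593f_gt.KP.CoreDefs

/-!
First algebraic identity.

Proof. Write `f_kl = tf v a c k l` (symmetric in `k, l`, because `pl` is antisymmetric) and for
three indices `A_{m,kl} p q = v_m p * ∑ s, a_m s * f_kl q s` (a `2 × 2` matrix) and
`h_klm = A_{m,kl} + A_{k,lm} + A_{l,mk}`.  Then `tr (A_{m,kl}²) = (∑ p t, v_m p a_m t f_kl p t)²`,
`tr (S_l²) = ∑_{k,m} tr (A_{m,kl} A_{k,lm})`, so (expand the square and rename the summation
indices)  `(1/3) ∑_{klm} tr (h_klm²) = ∑_{klm} tr (A_{m,kl}²) + 2 ∑_{klm} tr (A_{m,kl} A_{k,lm})`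
`= ∑_{kl} Mq f_kl + 2 ∑_l tr (S_l²)`.
With `f_kl p t = v_k p ctr (c_l) π_kl t - v_l p ctr (c_k) π_kl t`, `π_kl = pl (a_k) (a_l)` and
`d_l := ∑_{u,s} c_l u π_kl u s a_m s` (`= det (a_k, a_l, c_l, a_m)`, alternating in `k, l, m` for
a fixed last `c`), the matrix `h_klm` is antisymmetric:
`h = d_l (v_m ⊗ v_k - v_k ⊗ v_m) + d_k (v_l ⊗ v_m - v_m ⊗ v_l) + d_m (v_k ⊗ v_l - v_l ⊗ v_k)` with
`d_k, d_m` the corresponding determinants (up to sign), hence `tr (h²) = -2 h_01² ≤ 0`.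
-/

namespace Pool.HopfKP

open Finset Equiv

variable {K : Type} [Fintype K]

/-- the determinant `det (a, b, c, d)` -/
private def T4 (a b d c : Fin 4 → ℝ) : ℝ := ∑ s, d s * ctr c (pl a b) s

private theorem T4_swap (a b d c : Fin 4 → ℝ) : T4 b a d c = -T4 a b d c := by
  simp only [T4, ctr, pl, Fin.sum_univ_four]
  simp
  ring

private theorem T4_cyc (a b d c : Fin 4 → ℝ) : T4 b d a c = T4 a b d c := by
  simp only [T4, ctr, pl, Fin.sum_univ_four]
  simp
  ring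

private theorem ctr_swap (a b c : Fin 4 → ℝ) (t : Fin 4) :
    ctr c (pl b a) t = -ctr c (pl a b) t := by
  simp only [ctr, Fin.sum_univ_four]
  fin_cases t <;> simp [pl] <;> ring

omit [Fintype K] in
private theorem tf_symm (v : K → Fin 2 → ℝ) (a c : K → Fin 4 → ℝ) (k l : K) (p : Fin 2)
    (t : Fin 4) : tf v a c k l p t = tf v a c l k p t := by
  unfold tf
  rw [ctr_swap (a k) (a l) (c l), ctr_swap (a k) (a l) (c k)]
  ring

/-- `∑ v_m p a_n s f_kl p s` -/
private def I4 (v : K → Fin 2 → ℝ) (a c : K → Fin 4 → ℝ) (m n k l : K) : ℝ :=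
  ∑ p, v m p * ∑ s, a n s * tf v a c k l p s

omit [Fintype K] in
private theorem I4_symm (v : K → Fin 2 → ℝ) (a c : K → Fin 4 → ℝ) (m n k l : K) :
    I4 v a c m n k l = I4 v a c m n l k := by
  unfold I4
  simp only [tf_symm v a c k l]

omit [Fintype K] in
private theorem I4_eq (v : K → Fin 2 → ℝ) (a c : K → Fin 4 → ℝ) (m n k l : K) :
    I4 v a c m n k l = (v m 0 * v k 0 + v m 1 * v k 1) * T4 (a k) (a l) (a n) (c l) -
      (v m 0 * v l 0 + v m 1 * v l 1) * T4 (a k) (a l) (a n) (c k) := by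
  simp only [I4, tf, T4, Fin.sum_univ_four, Fin.sum_univ_two]
  ring

omit [Fintype K] in
private theorem pointwise (v : K → Fin 2 → ℝ) (a c : K → Fin 4 → ℝ) (k l m : K) :
    (I4 v a c m m k l ^ 2 + 2 * (I4 v a c m l k m * I4 v a c l m k l)) +
    (I4 v a c k k l m ^ 2 + 2 * (I4 v a c k m l k * I4 v a c m k l m)) +
    (I4 v a c l l m k ^ 2 + 2 * (I4 v a c l k m l * I4 v a c k l m k)) ≤ 0 := by
  have e1 : ∀ x, T4 (a l) (a m) (a k) x = T4 (a k) (a l) (a m) x := fun x => T4_cyc _ _ _ _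
  have e2 : ∀ x, T4 (a m) (a k) (a l) x = T4 (a k) (a l) (a m) x := fun x =>
    (T4_cyc _ _ _ _).trans (e1 x)
  have e3 : ∀ x, T4 (a l) (a k) (a m) x = -T4 (a k) (a l) (a m) x := fun x => T4_swap _ _ _ _
  have e4 : ∀ x, T4 (a k) (a m) (a l) x = -T4 (a k) (a l) (a m) x := fun x =>
    (T4_cyc _ _ _ _).trans (e3 x)
  have e5 : ∀ x, T4 (a m) (a l) (a k) x = -T4 (a k) (a l) (a m) x := fun x =>
    (T4_cyc _ _ _ _).trans (e4 x)
  simp only [I4_eq, e1, e2, e3, e4, e5]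
  generalize T4 (a k) (a l) (a m) (c k) = x
  generalize T4 (a k) (a l) (a m) (c l) = y
  generalize T4 (a k) (a l) (a m) (c m) = z
  generalize v k 0 = k0
  generalize v k 1 = k1
  generalize v l 0 = l0
  generalize v l 1 = l1
  generalize v m 0 = m0
  generalize v m 1 = m1
  have h := sq_nonneg (y * (m0 * k1 - k0 * m1) + x * (l0 * m1 - m0 * l1) +
    z * (k0 * l1 - l0 * k1))
  nlinarith [h]

private theorem Mq_eq (v : K → Fin 2 → ℝ) (a c : K → Fin 4 → ℝ) (k l : K) :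
    Mq v a (tf v a c k l) = ∑ m, I4 v a c m m k l ^ 2 := by
  unfold Mq I4
  refine Finset.sum_congr rfl fun m _ => ?_
  congr 1
  refine Finset.sum_congr rfl fun p _ => ?_
  rw [Finset.mul_sum]
  exact Finset.sum_congr rfl fun s _ => by ring

private theorem tr_eq (v : K → Fin 2 → ℝ) (a c : K → Fin 4 → ℝ) (k : K) :
    tr2 (Sm v a c k) (Sm v a c k) = ∑ l, ∑ m, I4 v a c m l k m * I4 v a c l m k l := by
  have h1 : ∀ i j, Sm v a c k i j * Sm v a c k j i =
      ∑ l, ∑ m, (a l i * ∑ p, v l p * tf v a c k l p j) *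
        (a m j * ∑ p, v m p * tf v a c k m p i) := by
    intro i j
    unfold Sm
    rw [Finset.sum_mul_sum]
  have h2 : ∀ l m, I4 v a c m l k m * I4 v a c l m k l =
      ∑ i, ∑ j, (a l i * ∑ p, v l p * tf v a c k l p j) *
        (a m j * ∑ p, v m p * tf v a c k m p i) := by
    intro l m
    simp only [I4, Fin.sum_univ_four, Fin.sum_univ_two]
    ring
  unfold tr2
  simp only [h1, h2]
  rw [Finset.sum_congr rfl fun i _ => Finset.sum_comm]
  rw [Finset.sum_comm]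
  refine Finset.sum_congr rfl fun l _ => ?_
  rw [Finset.sum_congr rfl fun i _ => Finset.sum_comm]
  rw [Finset.sum_comm]

/-- first identity, together with the sign of the right hand side -/
theorem ident_le (v : K → Fin 2 → ℝ) (a c : K → Fin 4 → ℝ) :
    (∑ k, ∑ l, Mq v a (tf v a c k l)) + 2 * ∑ k, tr2 (Sm v a c k) (Sm v a c k) ≤ 0 := by
  let F : K → K → K → ℝ := fun k l m =>
    I4 v a c m m k l ^ 2 + 2 * (I4 v a c m l k m * I4 v a c l m k l)
  have h1 : (∑ k, ∑ l, Mq v a (tf v a c k l)) + 2 * ∑ k, tr2 (Sm v a c k) (Sm v a c k) =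
      ∑ k, ∑ l, ∑ m, F k l m := by
    rw [Finset.mul_sum, ← Finset.sum_add_distrib]
    refine Finset.sum_congr rfl fun k _ => ?_
    rw [tr_eq, Finset.mul_sum, ← Finset.sum_add_distrib]
    refine Finset.sum_congr rfl fun l _ => ?_
    rw [Mq_eq, Finset.mul_sum, ← Finset.sum_add_distrib]
  have h2 : ∑ k, ∑ l, ∑ m, F l m k = ∑ k, ∑ l, ∑ m, F k l m := by
    rw [Finset.sum_comm]
    exact Finset.sum_congr rfl fun l _ => Finset.sum_comm
  have h3 : ∑ k, ∑ l, ∑ m, F m k l = ∑ k, ∑ l, ∑ m, F k l m := by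
    rw [Finset.sum_congr rfl fun k _ => Finset.sum_comm, Finset.sum_comm]
  have h4 : (∑ k, ∑ l, ∑ m, F k l m) + (∑ k, ∑ l, ∑ m, F l m k) +
      (∑ k, ∑ l, ∑ m, F m k l) ≤ 0 := by
    rw [← Finset.sum_add_distrib, ← Finset.sum_add_distrib]
    refine Finset.sum_nonpos fun k _ => ?_
    rw [← Finset.sum_add_distrib, ← Finset.sum_add_distrib]
    refine Finset.sum_nonpos fun l _ => ?_
    rw [← Finset.sum_add_distrib, ← Finset.sum_add_distrib]
    exact Finset.sum_nonpos fun m _ => pointwise v a c k l m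
  rw [h2, h3] at h4
  rw [h1]
  linarith

end Pool.HopfKP
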