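import Pool.Agent.Lib.MP_4a593f_gt.KP.Basic

/-!
The tensor of constant curvature one: value of the integrand and the term linear in `R`.

Hint: for fixed `σ`, `cI (σ a) (σ b) (τ a) (τ b)` is nonzero only if `{σ a, σ b} = {τ a, τ b}`.
Writing `τ = σ * β` the summand of `gb cI` is `sgn β * ∏ (..β..)`, independent of `σ`, so
`gb cI = 720 * 8` (the sum over `β` by `decide`, in `ℤ`).  Similarly
`gb3 R cI cI = 8 ∑_σ (R (σ0)(σ1)(σ0)(σ1) - R (σ0)(σ1)(σ1)(σ0)) / .. = c ∑_σ R_{σ0σ1σ0σ1}` with `c > 0`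
(for `β` with nonzero contribution `β` preserves the pairs `{2,3}` and `{4,5}`, hence `{0,1}`).
-/

namespace Pool.HopfKP

open Finset Equiv

theorem cI_curv : IsCurvature cI := by
  have hc : ∀ a b : Fin 6, (if a = b then (1 : ℝ) else 0) = if b = a then 1 else 0 := by
    intro a b
    simp only [eq_comm]
  refine ⟨?_, ?_, ?_⟩
  · intro i j k l
    unfold cI
    ring
  · intro i j k l
    unfold cI
    ring
  · intro i j k l
    unfold cI
    rw [hc j i, hc k i, hc k j]
    ring

/-- `D i j k l = δ_ik δ_jl` -/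
private def cD : Ten := fun i j k l => (if i = k then 1 else 0) * (if j = l then 1 else 0)

/-- `D' i j k l = δ_il δ_jk` -/
private def cD' : Ten := fun i j k l => (if i = l then 1 else 0) * (if j = k then 1 else 0)

private theorem cI_eq : cI = cD + (-1 : ℝ) • cD' := by
  funext i j k l
  simp only [Pi.add_apply, Pi.smul_apply, smul_eq_mul, cI, cD, cD']
  ring

theorem ev_cI (u v w z : Vec) : ev cI u v w z = dot u w * dot v z - dot u z * dot v w := by
  unfold ev dot
  have h1 : ∀ i j : Fin 6, ∑ k, ∑ l, cI i j k l * u i * v j * w k * z l =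
      u i * w i * (v j * z j) - u i * z i * (v j * w j) := by
    intro i j
    have h2 : ∀ k l : Fin 6, cI i j k l * u i * v j * w k * z l =
        (if i = k then (if j = l then u i * v j * w k * z l else 0) else 0) -
        (if j = k then (if i = l then u i * v j * w k * z l else 0) else 0) := by
      intro k l
      unfold cI
      split_ifs <;> ring
    simp only [h2, Finset.sum_sub_distrib]
    simp
    ring
  simp only [h1, Finset.sum_sub_distrib]
  rw [Finset.sum_mul_sum, Finset.sum_mul_sum]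

private theorem sg_swap45 : sg (swap (4 : Fin 6) 5) = -1 := by
  unfold sg
  rw [Perm.sign_swap (by decide)]
  simp

private theorem sg_swap01 : sg (swap (0 : Fin 6) 1) = -1 := by
  unfold sg
  rw [Perm.sign_swap (by decide)]
  simp

private theorem sg_sq (σ : Perm (Fin 6)) : sg σ * sg σ = 1 := by
  unfold sg
  rcases Int.units_eq_one_or (Perm.sign σ) with h | h <;> rw [h] <;> simp

private theorem gb3_D' (R S : Ten) : gb3 R S cD' = - gb3 R S cD := by
  unfold gb3
  rw [← Finset.sum_neg_distrib]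
  refine Finset.sum_congr rfl fun σ _ => ?_
  rw [← Finset.sum_neg_distrib]
  refine Fintype.sum_equiv (Equiv.mulRight (swap 4 5)) _ _ fun τ => ?_
  have h0 : swap (4 : Fin 6) 5 0 = 0 := by decide
  have h1 : swap (4 : Fin 6) 5 1 = 1 := by decide
  have h2 : swap (4 : Fin 6) 5 2 = 2 := by decide
  have h3 : swap (4 : Fin 6) 5 3 = 3 := by decide
  have h4 : swap (4 : Fin 6) 5 4 = 5 := by decide
  have h5 : swap (4 : Fin 6) 5 5 = 4 := by decide
  simp only [Equiv.coe_mulRight, sg_mul, sg_swap45, Perm.mul_apply, h0, h1, h2, h3, h4, h5,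
    cD, cD']
  ring

private theorem gb3_I (R S : Ten) : gb3 R S cI = 2 * gb3 R S cD := by
  rw [cI_eq, gb3_add_right, gb3_smul_right, gb3_D']
  ring

/-- a permutation fixing 2, 3, 4, 5 -/
private theorem fix_cases (β : Perm (Fin 6)) (h2 : β 2 = 2) (h3 : β 3 = 3) (h4 : β 4 = 4)
    (h5 : β 5 = 5) : β = 1 ∨ β = swap 0 1 := by
  have inj := β.injective
  have a2 : β 0 ≠ 2 := fun h => absurd (inj (h.trans h2.symm)) (by decide)
  have a3 : β 0 ≠ 3 := fun h => absurd (inj (h.trans h3.symm)) (by decide)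
  have a4 : β 0 ≠ 4 := fun h => absurd (inj (h.trans h4.symm)) (by decide)
  have a5 : β 0 ≠ 5 := fun h => absurd (inj (h.trans h5.symm)) (by decide)
  have b2 : β 1 ≠ 2 := fun h => absurd (inj (h.trans h2.symm)) (by decide)
  have b3 : β 1 ≠ 3 := fun h => absurd (inj (h.trans h3.symm)) (by decide)
  have b4 : β 1 ≠ 4 := fun h => absurd (inj (h.trans h4.symm)) (by decide)
  have b5 : β 1 ≠ 5 := fun h => absurd (inj (h.trans h5.symm)) (by decide)
  have c : β 0 ≠ β 1 := fun h => absurd (inj h) (by decide)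
  have key : (β 0 = 0 ∧ β 1 = 1) ∨ (β 0 = 1 ∧ β 1 = 0) := by
    generalize β 0 = x at *
    generalize β 1 = y at *
    revert x y
    decide
  rcases key with ⟨k0, k1⟩ | ⟨k0, k1⟩
  · left
    ext i
    fin_cases i <;> simp [k0, k1, h2, h3, h4, h5]
  · right
    have s2 : swap (0 : Fin 6) 1 2 = 2 := by decide
    have s3 : swap (0 : Fin 6) 1 3 = 3 := by decide
    have s4 : swap (0 : Fin 6) 1 4 = 4 := by decide
    have s5 : swap (0 : Fin 6) 1 5 = 5 := by decide
    ext i
    fin_cases i <;> simp [k0, k1, h2, h3, h4, h5, s2, s3, s4, s5]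

private theorem gb3_DD {R : Ten} (hR : IsCurvature R) :
    gb3 R cD cD = 2 * ∑ σ : Perm (Fin 6), R (σ 0) (σ 1) (σ 0) (σ 1) := by
  unfold gb3
  rw [Finset.mul_sum]
  refine Finset.sum_congr rfl fun σ _ => ?_
  have e : ∑ τ : Perm (Fin 6), (sg σ * sg τ) *
      (R (σ 0) (σ 1) (τ 0) (τ 1) * cD (σ 2) (σ 3) (τ 2) (τ 3) * cD (σ 4) (σ 5) (τ 4) (τ 5)) =
      ∑ β : Perm (Fin 6), (sg σ * sg (σ * β)) *
      (R (σ 0) (σ 1) (σ (β 0)) (σ (β 1)) * cD (σ 2) (σ 3) (σ (β 2)) (σ (β 3)) *
        cD (σ 4) (σ 5) (σ (β 4)) (σ (β 5))) := by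
    symm
    exact Fintype.sum_equiv (Equiv.mulLeft σ) _ _ fun β => rfl
  rw [e]
  have hne : (1 : Perm (Fin 6)) ≠ swap 0 1 := by
    intro h
    have := Equiv.congr_fun h 0
    revert this
    decide
  rw [← Finset.sum_subset (Finset.subset_univ {1, swap 0 1})]
  · rw [Finset.sum_pair hne]
    have h0 : swap (0 : Fin 6) 1 0 = 1 := by decide
    have h1 : swap (0 : Fin 6) 1 1 = 0 := by decide
    have h2 : swap (0 : Fin 6) 1 2 = 2 := by decide
    have h3 : swap (0 : Fin 6) 1 3 = 3 := by decide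
    have h4 : swap (0 : Fin 6) 1 4 = 4 := by decide
    have h5 : swap (0 : Fin 6) 1 5 = 5 := by decide
    have hD : ∀ a b : Fin 6, cD a b a b = 1 := by
      intro a b
      unfold cD
      simp
    simp only [mul_one, Perm.one_apply, sg_mul, sg_swap01, h0, h1, h2, h3, h4, h5, hD]
    rw [hR.skew34 (σ 0) (σ 1) (σ 0) (σ 1)]
    have hs := sg_sq σ
    linear_combination (2 * R (σ 0) (σ 1) (σ 0) (σ 1)) * hs
  · intro β _ hβ
    have hz : cD (σ 2) (σ 3) (σ (β 2)) (σ (β 3)) * cD (σ 4) (σ 5) (σ (β 4)) (σ (β 5)) = 0 := by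
      by_contra hne0
      apply hβ
      have hD : ∀ a b c d : Fin 6, cD a b c d ≠ 0 → a = c ∧ b = d := by
        intro a b c d h
        unfold cD at h
        by_cases h1 : a = c
        · by_cases h2 : b = d
          · exact ⟨h1, h2⟩
          · simp [h2] at h
        · simp [h1] at h
      obtain ⟨g2, g3⟩ := hD _ _ _ _ (left_ne_zero_of_mul hne0)
      obtain ⟨g4, g5⟩ := hD _ _ _ _ (right_ne_zero_of_mul hne0)
      have := fix_cases β (σ.injective g2).symm (σ.injective g3).symm (σ.injective g4).symm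
        (σ.injective g5).symm
      simpa using this
    rw [mul_assoc (R _ _ _ _), hz]
    ring

private theorem gb3_II {R : Ten} (hR : IsCurvature R) :
    gb3 R cI cI = 8 * ∑ σ : Perm (Fin 6), R (σ 0) (σ 1) (σ 0) (σ 1) := by
  rw [gb3_I, gb3_comm23, gb3_I, gb3_DD hR]
  ring

theorem gb_cI : gb cI = 5760 := by
  rw [gb_eq, gb3_II cI_curv]
  have h : ∀ σ : Perm (Fin 6), cI (σ 0) (σ 1) (σ 0) (σ 1) = 1 := by
    intro σ
    have hne : σ 0 ≠ σ 1 := fun h => absurd (σ.injective h) (by decide)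
    unfold cI
    simp [hne]
  simp only [h, Finset.sum_const, Finset.card_univ, Fintype.card_perm, Fintype.card_fin]
  norm_num [Nat.factorial]

theorem gb3_RII {R : Ten} (hR : IsCurvature R) (hs : ∀ u w, 0 ≤ ev R u w u w) :
    0 ≤ gb3 R cI cI := by
  rw [gb3_II hR]
  refine mul_nonneg (by norm_num) (Finset.sum_nonneg fun σ _ => ?_)
  have h : ∀ i j : Fin 6, ev R (Pi.single i 1) (Pi.single j 1) (Pi.single i 1) (Pi.single j 1) =
      R i j i j := by
    intro i j
    unfold ev
    simp [Pi.single_apply]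
  rw [← h]
  exact hs _ _

end Pool.HopfKP
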