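import Pool.Agent.Lib.MP_4a593f_gt.KP.Basic

/-!
Cauchy-Schwarz: for `S ≥ 0`, `tr (S J S J) ≥ (tr (S J))² / 6`, `J` the exchange matrix.

Proof. `S = Gᵀ G`; `tr (S J) = tr (G J Gᵀ)`, `tr (S J S J) = tr ((G J Gᵀ)²)`, and `G J Gᵀ` is a
symmetric `6 × 6` matrix.
-/

namespace Pool.HopfKP

open Finset Equiv Matrix

/-- the exchange matrix of the wedge form -/
def stM : Matrix (Fin 6) (Fin 6) ℝ := !![0, 0, 0, 1, 0, 0; 0, 0, 0, 0, 1, 0; 0, 0, 0, 0, 0, 1;
  1, 0, 0, 0, 0, 0; 0, 1, 0, 0, 0, 0; 0, 0, 1, 0, 0, 0]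

private theorem Mil2_symm : stMᵀ = stM := by
  ext i j
  fin_cases i <;> fin_cases j <;> rfl

open scoped MatrixOrder in
theorem trace_cs (S : Matrix (Fin 6) (Fin 6) ℝ) (hS : S.PosSemidef) :
    (Matrix.trace (S * stM)) ^ 2 ≤ 6 * Matrix.trace (S * stM * (S * stM)) := by
  obtain ⟨G, hG⟩ := CStarAlgebra.nonneg_iff_eq_star_mul_self.mp hS.nonneg
  have hG' : S = Gᵀ * G := by
    rw [hG, Matrix.star_eq_conjTranspose, Matrix.conjTranspose_eq_transpose_of_trivial]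
  subst hG'
  have hT : (G * stM * Gᵀ)ᵀ = G * stM * Gᵀ := by
    rw [Matrix.transpose_mul, Matrix.transpose_mul, Matrix.transpose_transpose, Mil2_symm,
      Matrix.mul_assoc]
  have h1 : Matrix.trace (Gᵀ * G * stM) = Matrix.trace (G * stM * Gᵀ) := by
    rw [Matrix.mul_assoc, Matrix.trace_mul_comm]
  have h2 : Matrix.trace (Gᵀ * G * stM * (Gᵀ * G * stM)) =
      Matrix.trace (G * stM * Gᵀ * (G * stM * Gᵀ)) := by
    have : Gᵀ * G * stM * (Gᵀ * G * stM) = Gᵀ * (G * stM * (Gᵀ * G * stM)) := by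
      simp only [Matrix.mul_assoc]
    rw [this, Matrix.trace_mul_comm]
    simp only [Matrix.mul_assoc]
  rw [h1, h2]
  set T := G * stM * Gᵀ with hTd
  have h3 : Matrix.trace (T * T) = ∑ i, ∑ j, T i j ^ 2 := by
    unfold Matrix.trace
    refine Finset.sum_congr rfl fun i _ => ?_
    rw [Matrix.diag_apply, Matrix.mul_apply]
    refine Finset.sum_congr rfl fun j _ => ?_
    have : T j i = T i j := by
      have := congrFun (congrFun hT i) j
      rwa [Matrix.transpose_apply] at this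
    rw [this, sq]
  have h4 : ∑ i, T i i ^ 2 ≤ ∑ i, ∑ j, T i j ^ 2 :=
    Finset.sum_le_sum fun i _ =>
      Finset.single_le_sum (f := fun j => T i j ^ 2) (fun j _ => sq_nonneg _) (Finset.mem_univ i)
  have h5 : (∑ i, T i i) ^ 2 ≤ 6 * ∑ i, T i i ^ 2 := by
    have := sq_sum_le_card_mul_sum_sq (s := (Finset.univ : Finset (Fin 6))) (f := fun i => T i i)
    simpa using this
  rw [h3]
  calc (Matrix.trace T) ^ 2 = (∑ i, T i i) ^ 2 := rfl
    _ ≤ 6 * ∑ i, T i i ^ 2 := h5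
    _ ≤ 6 * ∑ i, ∑ j, T i j ^ 2 := by linarith

end Pool.HopfKP
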