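import Pool.Agent.Lib.MP_4a593f_gt.KP.Mil1
import Pool.Agent.Lib.MP_4a593f_gt.KP.Mil2

/-!
Milnor's theorem: in dimension 4 nonnegative sectional curvature implies that the Gauss-Bonnet
integrand is nonnegative.

Proof. Let `A` be the `6 × 6` matrix of `S` in the bivectors `01, 02, 03, 23, 31, 12` (in this
order: index `3` is `23`, `4` is `31`, `5` is `12`); by pair symmetry it is symmetric.  A bivector `x`
with `wf x = 0` is decomposable (`x = u ∧ w`, with `u, w` two rows of the skew matrix of `x`, up to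
a factor), so `s_lemma` gives `t` with `A + (t/2) J ≥ 0` (`J = stM`).  The Bianchi identity says
`tr (A J) = 0`, and `gb4 S = 16 * tr (A J Aᵀ J) = 16 * tr (A J A J)`.  With `T = A + λ J`,
`tr (T J) = 6 λ`, `tr (A J A J) = tr (T J T J) - 2 λ tr (T J) + 6 λ² = tr (T J T J) - (tr (T J))²/6`.
-/

namespace Pool.HopfKP

open Finset Equiv Matrix

/-- Four-index arrays over `ℝ⁴`. -/
abbrev Ten4 := Fin 4 → Fin 4 → Fin 4 → Fin 4 → ℝ

/-- The Gauss-Bonnet integrand in dimension 4. -/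
def gb4 (S : Ten4) : ℝ :=
  ∑ σ : Perm (Fin 4), ∑ τ : Perm (Fin 4), (sg σ * sg τ) *
    (S (σ 0) (σ 1) (τ 0) (τ 1) * S (σ 2) (σ 3) (τ 2) (τ 3))

/-- bivector indices -/
def bi1 : Fin 6 → Fin 4 := ![0, 0, 0, 2, 3, 1]

/-- bivector indices -/
def bi2 : Fin 6 → Fin 4 := ![1, 2, 3, 3, 1, 2]

/-- the curvature operator as a matrix -/
def opM (S : Ten4) : Matrix (Fin 6) (Fin 6) ℝ := fun i j => S (bi1 i) (bi2 i) (bi1 j) (bi2 j)

theorem sum_perm_succ {n : ℕ} (g : Perm (Fin (n+1)) → ℝ) :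
    ∑ τ : Perm (Fin (n+1)), g τ =
      ∑ p : Fin (n+1), ∑ e : Perm (Fin n), g (Perm.decomposeFin.symm (p, e)) := by
  rw [← Equiv.sum_comp Perm.decomposeFin.symm g, Fintype.sum_prod_type]

theorem sg_decomp {n : ℕ} (p : Fin (n+1)) (e : Perm (Fin n)) :
    sg (Perm.decomposeFin.symm (p, e)) = (if p = 0 then 1 else -1) * sg e := by
  unfold sg
  rw [Perm.decomposeFin.symm_sign]
  split_ifs <;> simp

theorem sum_perm3 (g : Fin 3 → Fin 3 → Fin 3 → ℝ) :
    ∑ τ : Perm (Fin 3), sg τ * g (τ 0) (τ 1) (τ 2) =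
      g 0 1 2 - g 0 2 1 - g 1 0 2 + g 1 2 0 + g 2 0 1 - g 2 1 0 := by
  have e1 : ∀ p : Fin 3, ∀ e : Perm (Fin 2), (Perm.decomposeFin.symm (p, e)) 0 = p := fun p e =>
    Perm.decomposeFin_symm_apply_zero p e
  have e2 : ∀ p : Fin 3, ∀ e : Perm (Fin 2),
      (Perm.decomposeFin.symm (p, e)) 1 = swap 0 p (e 0).succ := fun p e =>
    Perm.decomposeFin_symm_apply_succ e p 0
  have e3 : ∀ p : Fin 3, ∀ e : Perm (Fin 2),
      (Perm.decomposeFin.symm (p, e)) 2 = swap 0 p (e 1).succ := fun p e =>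
    Perm.decomposeFin_symm_apply_succ e p 1
  have hu : (univ : Finset (Perm (Fin 2))) = {1, swap 0 1} := by decide
  have hs1 : sg (1 : Perm (Fin 2)) = 1 := by unfold sg; simp
  have hs2 : sg (swap 0 1 : Perm (Fin 2)) = -1 := by
    unfold sg
    rw [Perm.sign_swap (by decide)]; simp
  have hne : (1 : Perm (Fin 2)) ≠ swap 0 1 := by decide
  have f1 : ∀ p : Fin 3, swap 0 p (Fin.succ ((1 : Perm (Fin 2)) 0)) = ![1,0,1] p := by decide
  have f2 : ∀ p : Fin 3, swap 0 p (Fin.succ ((1 : Perm (Fin 2)) 1)) = ![2,2,0] p := by decide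
  have f3 : ∀ p : Fin 3, swap 0 p (Fin.succ ((swap 0 1 : Perm (Fin 2)) 0)) = ![2,2,0] p := by
    decide
  have f4 : ∀ p : Fin 3, swap 0 p (Fin.succ ((swap 0 1 : Perm (Fin 2)) 1)) = ![1,0,1] p := by
    decide
  rw [sum_perm_succ]
  simp only [sg_decomp, e1, e2, e3]
  rw [hu]
  simp only [Finset.sum_pair hne, hs1, hs2, f1, f2, f3, f4]
  rw [Fin.sum_univ_three]
  simp
  ring

theorem sum_perm4 (g : Fin 4 → Fin 4 → Fin 4 → Fin 4 → ℝ) :
    ∑ τ : Perm (Fin 4), sg τ * g (τ 0) (τ 1) (τ 2) (τ 3) =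
      g 0 1 2 3 - g 0 1 3 2 - g 0 2 1 3 + g 0 2 3 1 + g 0 3 1 2 - g 0 3 2 1
      - g 1 0 2 3 + g 1 0 3 2 + g 1 2 0 3 - g 1 2 3 0 - g 1 3 0 2 + g 1 3 2 0
      + g 2 0 1 3 - g 2 0 3 1 - g 2 1 0 3 + g 2 1 3 0 + g 2 3 0 1 - g 2 3 1 0
      - g 3 0 1 2 + g 3 0 2 1 + g 3 1 0 2 - g 3 1 2 0 - g 3 2 0 1 + g 3 2 1 0 := by
  have e1 : ∀ p : Fin 4, ∀ e : Perm (Fin 3), (Perm.decomposeFin.symm (p, e)) 0 = p := fun p e =>
    Perm.decomposeFin_symm_apply_zero p e
  have e2 : ∀ p : Fin 4, ∀ e : Perm (Fin 3),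
      (Perm.decomposeFin.symm (p, e)) 1 = swap 0 p (e 0).succ := fun p e =>
    Perm.decomposeFin_symm_apply_succ e p 0
  have e3 : ∀ p : Fin 4, ∀ e : Perm (Fin 3),
      (Perm.decomposeFin.symm (p, e)) 2 = swap 0 p (e 1).succ := fun p e =>
    Perm.decomposeFin_symm_apply_succ e p 1
  have e4 : ∀ p : Fin 4, ∀ e : Perm (Fin 3),
      (Perm.decomposeFin.symm (p, e)) 3 = swap 0 p (e 2).succ := fun p e =>
    Perm.decomposeFin_symm_apply_succ e p 2
  have f1 : ∀ p : Fin 4, swap 0 p (Fin.succ (0 : Fin 3)) = ![1,0,1,1] p := by decide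
  have f2 : ∀ p : Fin 4, swap 0 p (Fin.succ (1 : Fin 3)) = ![2,2,0,2] p := by decide
  have f3 : ∀ p : Fin 4, swap 0 p (Fin.succ (2 : Fin 3)) = ![3,3,3,0] p := by decide
  rw [sum_perm_succ]
  simp only [sg_decomp, e1, e2, e3, e4]
  have key : ∀ p : Fin 4, ∑ e : Perm (Fin 3), (if p = 0 then (1:ℝ) else -1) * sg e *
      g p (swap 0 p (e 0).succ) (swap 0 p (e 1).succ) (swap 0 p (e 2).succ) =
      (if p = 0 then (1:ℝ) else -1) * ∑ e : Perm (Fin 3), sg e *
        g p (swap 0 p (e 0).succ) (swap 0 p (e 1).succ) (swap 0 p (e 2).succ) := by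
    intro p
    rw [Finset.mul_sum]
    exact Finset.sum_congr rfl fun e _ => by ring
  simp only [key]
  have key2 : ∀ p : Fin 4, ∑ e : Perm (Fin 3), sg e * g p (swap 0 p (e 0).succ)
      (swap 0 p (e 1).succ) (swap 0 p (e 2).succ) = _ := fun p =>
      sum_perm3 (fun a b c => g p (swap 0 p a.succ) (swap 0 p b.succ) (swap 0 p c.succ))
  simp only [key2, f1, f2, f3]
  rw [Fin.sum_univ_four]
  simp
  ring

/-- alternating sum of a product of two skew arrays -/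
theorem alt_skew (α β : Fin 4 → Fin 4 → ℝ) (hα : ∀ i j, α j i = - α i j)
    (hβ : ∀ i j, β j i = - β i j) :
    ∑ τ : Perm (Fin 4), sg τ * (α (τ 0) (τ 1) * β (τ 2) (τ 3)) =
      4 * ∑ i : Fin 6, α (bi1 i) (bi2 i) * β (bi1 (i + 3)) (bi2 (i + 3)) := by
  rw [sum_perm4 (fun a b c d => α a b * β c d)]
  have h6 : ∀ f : Fin 6 → ℝ, ∑ i : Fin 6, f i = f 0 + f 1 + f 2 + f 3 + f 4 + f 5 := fun f =>
    Fin.sum_univ_six f
  rw [h6]
  have c3 : (0 : Fin 6) + 3 = 3 := by decide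
  have c4 : (1 : Fin 6) + 3 = 4 := by decide
  have c5 : (2 : Fin 6) + 3 = 5 := by decide
  have c0 : (3 : Fin 6) + 3 = 0 := by decide
  have c1 : (4 : Fin 6) + 3 = 1 := by decide
  have c2 : (5 : Fin 6) + 3 = 2 := by decide
  rw [c0, c1, c2, c3, c4, c5]
  have a0 : bi1 0 = 0 := rfl
  have a1 : bi1 1 = 0 := rfl
  have a2 : bi1 2 = 0 := rfl
  have a3 : bi1 3 = 2 := rfl
  have a4 : bi1 4 = 3 := rfl
  have a5 : bi1 5 = 1 := rfl
  have b0 : bi2 0 = 1 := rfl
  have b1 : bi2 1 = 2 := rfl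
  have b2 : bi2 2 = 3 := rfl
  have b3 : bi2 3 = 3 := rfl
  have b4 : bi2 4 = 1 := rfl
  have b5 : bi2 5 = 2 := rfl
  rw [a0, a1, a2, a3, a4, a5, b0, b1, b2, b3, b4, b5]
  rw [hα 0 1, hα 0 2, hα 0 3, hα 1 2, hα 1 3, hα 2 3, hβ 0 1, hβ 0 2, hβ 0 3, hβ 1 2, hβ 1 3,
    hβ 2 3]
  ring

theorem stM_apply (i j : Fin 6) : stM i j = if j = i + 3 then 1 else 0 := by
  fin_cases i <;> fin_cases j <;> simp [stM]

theorem mul_stM (A : Matrix (Fin 6) (Fin 6) ℝ) (i j : Fin 6) : (A * stM) i j = A i (j + 3) := by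
  have h : ∀ k : Fin 6, (j = k + 3) ↔ (k = j + 3) := by
    intro k; revert j k; decide
  simp [Matrix.mul_apply, stM_apply, h]

theorem gb4_eq (S : Ten4) (h12 : ∀ i j k l, S j i k l = - S i j k l)
    (h34 : ∀ i j k l, S i j l k = - S i j k l) :
    gb4 S = 16 * Matrix.trace (opM S * stM * ((opM S)ᵀ * stM)) := by
  have step1 : ∀ σ : Perm (Fin 4), ∑ τ : Perm (Fin 4), (sg σ * sg τ) *
      (S (σ 0) (σ 1) (τ 0) (τ 1) * S (σ 2) (σ 3) (τ 2) (τ 3)) =
      ∑ j : Fin 6, 4 * (sg σ * (S (σ 0) (σ 1) (bi1 j) (bi2 j) *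
        S (σ 2) (σ 3) (bi1 (j + 3)) (bi2 (j + 3)))) := by
    intro σ
    have := alt_skew (fun k l => S (σ 0) (σ 1) k l) (fun k l => S (σ 2) (σ 3) k l)
      (fun i j => h34 _ _ i j) (fun i j => h34 _ _ i j)
    have e : ∑ τ : Perm (Fin 4), (sg σ * sg τ) *
      (S (σ 0) (σ 1) (τ 0) (τ 1) * S (σ 2) (σ 3) (τ 2) (τ 3)) = sg σ * ∑ τ : Perm (Fin 4), sg τ *
      (S (σ 0) (σ 1) (τ 0) (τ 1) * S (σ 2) (σ 3) (τ 2) (τ 3)) := by
      rw [Finset.mul_sum]
      exact Finset.sum_congr rfl fun τ _ => by ring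
    rw [e, this, Finset.mul_sum, Finset.mul_sum]
    exact Finset.sum_congr rfl fun j _ => by ring
  unfold gb4
  simp only [step1]
  rw [Finset.sum_comm]
  have step2 : ∀ j : Fin 6, ∑ σ : Perm (Fin 4), 4 * (sg σ * (S (σ 0) (σ 1) (bi1 j) (bi2 j) *
        S (σ 2) (σ 3) (bi1 (j + 3)) (bi2 (j + 3)))) =
      ∑ i : Fin 6, 16 * (opM S i j * opM S (i + 3) (j + 3)) := by
    intro j
    have := alt_skew (fun k l => S k l (bi1 j) (bi2 j)) (fun k l => S k l (bi1 (j + 3)) (bi2 (j + 3)))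
      (fun i j => h12 i j _ _) (fun i j => h12 i j _ _)
    rw [← Finset.mul_sum, this, Finset.mul_sum, Finset.mul_sum]
    exact Finset.sum_congr rfl fun i _ => by unfold opM; ring
  simp only [step2]
  rw [Matrix.trace]
  simp only [Matrix.diag_apply]
  have step3 : ∀ i : Fin 6, (opM S * stM * ((opM S)ᵀ * stM)) i i =
      ∑ j : Fin 6, opM S i j * opM S (i + 3) (j + 3) := by
    intro i
    rw [Matrix.mul_apply]
    simp only [mul_stM, Matrix.transpose_apply]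
    refine Fintype.sum_equiv (Equiv.addRight (3 : Fin 6)) _ _ fun k => ?_
    have : k + 3 + 3 = k := by revert k; decide
    simp [this]
  simp only [step3, Finset.mul_sum]
  rw [Finset.sum_comm]

/-- contraction of a skew array with `u ⊗ w` -/
theorem skew_contract (f : Fin 4 → Fin 4 → ℝ) (hf : ∀ i j, f j i = - f i j) (u w : Fin 4 → ℝ) :
    ∑ i, ∑ j, f i j * u i * w j =
      ∑ p : Fin 6, f (bi1 p) (bi2 p) * (u (bi1 p) * w (bi2 p) - u (bi2 p) * w (bi1 p)) := by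
  rw [Fin.sum_univ_six]
  simp only [Fin.sum_univ_four]
  have a0 : bi1 0 = 0 := rfl
  have a1 : bi1 1 = 0 := rfl
  have a2 : bi1 2 = 0 := rfl
  have a3 : bi1 3 = 2 := rfl
  have a4 : bi1 4 = 3 := rfl
  have a5 : bi1 5 = 1 := rfl
  have b0 : bi2 0 = 1 := rfl
  have b1 : bi2 1 = 2 := rfl
  have b2 : bi2 2 = 3 := rfl
  have b3 : bi2 3 = 3 := rfl
  have b4 : bi2 4 = 1 := rfl
  have b5 : bi2 5 = 2 := rfl
  rw [a0, a1, a2, a3, a4, a5, b0, b1, b2, b3, b4, b5]
  have d0 : f 0 0 = 0 := by linarith [hf 0 0]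
  have d1 : f 1 1 = 0 := by linarith [hf 1 1]
  have d2 : f 2 2 = 0 := by linarith [hf 2 2]
  have d3 : f 3 3 = 0 := by linarith [hf 3 3]
  rw [hf 0 1, hf 0 2, hf 0 3, hf 1 2, hf 1 3, hf 2 3, d0, d1, d2, d3]
  ring

/-- the skew matrix of a bivector -/
def skM (x : Fin 6 → ℝ) : Fin 4 → Fin 4 → ℝ :=
  ![![0, x 0, x 1, x 2], ![-x 0, 0, x 5, -x 4], ![-x 1, -x 5, 0, x 3], ![-x 2, x 4, -x 3, 0]]

theorem skM_wedge (x : Fin 6 → ℝ) (h : wf x = 0) (p q : Fin 6) :
    skM x (bi1 p) (bi1 q) * skM x (bi2 p) (bi2 q) - skM x (bi1 p) (bi2 q) * skM x (bi2 p) (bi1 q) =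
      x p * x q := by
  unfold wf at h
  fin_cases p <;> fin_cases q <;> simp [bi1, bi2, skM] <;>
    first | ring1 | linear_combination h | linear_combination -h

theorem op_wedge (S : Ten4) (h12 : ∀ i j k l, S j i k l = - S i j k l)
    (h34 : ∀ i j k l, S i j l k = - S i j k l) (u w : Fin 4 → ℝ) :
    ∑ i, ∑ j, ∑ k, ∑ l, S i j k l * u i * w j * u k * w l =
      ∑ p : Fin 6, ∑ q : Fin 6, opM S p q * (u (bi1 p) * w (bi2 p) - u (bi2 p) * w (bi1 p)) *
        (u (bi1 q) * w (bi2 q) - u (bi2 q) * w (bi1 q)) := by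
  have e1 : ∀ i j, ∑ k, ∑ l, S i j k l * u i * w j * u k * w l =
      (∑ q : Fin 6, S i j (bi1 q) (bi2 q) * (u (bi1 q) * w (bi2 q) - u (bi2 q) * w (bi1 q))) *
        u i * w j := by
    intro i j
    rw [← skew_contract (fun k l => S i j k l) (fun k l => h34 i j k l) u w, Finset.sum_mul,
      Finset.sum_mul]
    refine Finset.sum_congr rfl fun k _ => ?_
    rw [Finset.sum_mul, Finset.sum_mul]
    exact Finset.sum_congr rfl fun l _ => by ring
  simp only [e1]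
  rw [skew_contract (fun i j => ∑ q : Fin 6, S i j (bi1 q) (bi2 q) *
    (u (bi1 q) * w (bi2 q) - u (bi2 q) * w (bi1 q)))]
  · refine Finset.sum_congr rfl fun p _ => ?_
    rw [Finset.sum_mul]
    exact Finset.sum_congr rfl fun q _ => by unfold opM; ring
  · intro i j
    rw [← Finset.sum_neg_distrib]
    exact Finset.sum_congr rfl fun q _ => by rw [h12 i j]; ring

theorem pair4 (S : Ten4) (h12 : ∀ i j k l, S j i k l = - S i j k l)
    (h34 : ∀ i j k l, S i j l k = - S i j k l)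
    (hB : ∀ i j k l, S i j k l + S j k i l + S k i j l = 0) (i j k l : Fin 4) :
    S k l i j = S i j k l := by
  have b1 := hB i j k l
  have b2 := hB j k l i
  have b3 := hB k l i j
  have b4 := hB l i j k
  linarith [h12 i l j k, h34 i l j k, h12 j l i k, h34 j l i k, h12 k l i j, h34 i j k l,
    h34 j k l i, h12 j k i l, h34 k i j l, h12 k i j l, h34 k i l j, h12 l j k i, h34 l j k i,
    h12 l k i j, h34 j l k i, h12 l i j k, h12 i l k j, h34 l i k j, h12 k l j i, h34 k l i j,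
    h12 i k l j, h34 i k l j, h12 j i k l, h34 j i l k, h12 k j l i, h34 l k i j, h34 l i j k,
    h34 k l j i, h12 j l k i]

theorem stM_mul_stM : stM * stM = 1 := by
  ext i j
  rw [mul_stM, stM_apply, Matrix.one_apply]
  have : ∀ i j : Fin 6, (j + 3 = i + 3) ↔ (i = j) := by decide
  exact if_congr (this i j) rfl rfl

theorem wf_stM (x : Fin 6 → ℝ) : x ⬝ᵥ stM.mulVec x = 2 * wf x := by
  unfold wf
  simp [Matrix.mulVec, dotProduct, stM, Fin.sum_univ_six]
  ring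

theorem milnor (S : Ten4) (h12 : ∀ i j k l, S j i k l = - S i j k l)
    (h34 : ∀ i j k l, S i j l k = - S i j k l)
    (hB : ∀ i j k l, S i j k l + S j k i l + S k i j l = 0)
    (hs : ∀ u w : Fin 4 → ℝ, 0 ≤ ∑ i, ∑ j, ∑ k, ∑ l, S i j k l * u i * w j * u k * w l) :
    0 ≤ gb4 S := by
  have hsym : (opM S)ᵀ = opM S := by
    ext i j
    exact pair4 S h12 h34 hB _ _ _ _
  obtain ⟨t, ht⟩ := s_lemma (opM S) hsym (by
    intro x hx
    by_cases h0 : ∃ p, x p ≠ 0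
    · obtain ⟨p, hp⟩ := h0
      have h1 := hs (skM x (bi1 p)) (skM x (bi2 p))
      rw [op_wedge S h12 h34] at h1
      have e : ∀ q, skM x (bi1 p) (bi1 q) * skM x (bi2 p) (bi2 q) -
          skM x (bi1 p) (bi2 q) * skM x (bi2 p) (bi1 q) = x p * x q := skM_wedge x hx p
      simp only [e] at h1
      have h2 : ∑ p' : Fin 6, ∑ q : Fin 6, opM S p' q * (x p * x p') * (x p * x q) =
          (x p) ^ 2 * (x ⬝ᵥ (opM S).mulVec x) := by
        simp only [dotProduct, Matrix.mulVec, Finset.mul_sum]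
        exact Finset.sum_congr rfl fun i _ => Finset.sum_congr rfl fun j _ => by ring
      rw [h2] at h1
      have h3 : 0 < (x p) ^ 2 := by positivity
      exact nonneg_of_mul_nonneg_right h1 h3
    · push Not at h0
      have : x = 0 := funext h0
      rw [this]; simp)
  set T : Matrix (Fin 6) (Fin 6) ℝ := opM S + (t / 2) • stM with hT
  have hstT : stMᵀ = stM := by
    ext i j
    rw [Matrix.transpose_apply, stM_apply, stM_apply]
    have : ∀ i j : Fin 6, (i = j + 3) ↔ (j = i + 3) := by decide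
    simp only [this i j]
  have hTpsd : T.PosSemidef := by
    refine Matrix.PosSemidef.of_dotProduct_mulVec_nonneg ?_ ?_
    · rw [Matrix.IsHermitian, hT, Matrix.conjTranspose_add, Matrix.conjTranspose_smul]
      simp only [Matrix.conjTranspose_eq_transpose_of_trivial, hsym, hstT, star_trivial]
    · intro x
      have := ht x
      simp only [star_trivial]
      rw [hT, Matrix.add_mulVec, Matrix.smul_mulVec, dotProduct_add, dotProduct_smul, wf_stM]
      simp only [smul_eq_mul]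
      linarith
  have hcs := trace_cs T hTpsd
  have hTJ : T * stM = opM S * stM + (t / 2) • (1 : Matrix (Fin 6) (Fin 6) ℝ) := by
    rw [hT, Matrix.add_mul, Matrix.smul_mul, stM_mul_stM]
  have htr0 : Matrix.trace (opM S * stM) = 0 := by
    rw [Matrix.trace]
    simp only [Matrix.diag_apply, mul_stM, Fin.sum_univ_six]
    have c3 : (0 : Fin 6) + 3 = 3 := by decide
    have c4 : (1 : Fin 6) + 3 = 4 := by decide
    have c5 : (2 : Fin 6) + 3 = 5 := by decide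
    have c0 : (3 : Fin 6) + 3 = 0 := by decide
    have c1 : (4 : Fin 6) + 3 = 1 := by decide
    have c2 : (5 : Fin 6) + 3 = 2 := by decide
    simp only [c0, c1, c2, c3, c4, c5]
    unfold opM
    simp only [bi1, bi2]
    simp
    have q1 := pair4 S h12 h34 hB 0 1 2 3
    have q2 := pair4 S h12 h34 hB 0 2 3 1
    have q3 := pair4 S h12 h34 hB 0 3 1 2
    have q4 := hB 1 2 3 0
    linarith [h34 1 2 3 0, h34 2 3 1 0, h34 3 1 2 0, q1, q2, q3, q4, h34 1 2 0 3, h34 2 3 0 1,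
      h34 3 1 0 2]
  have h1tr : Matrix.trace (1 : Matrix (Fin 6) (Fin 6) ℝ) = 6 := by simp [Matrix.trace_one]
  have e1 : Matrix.trace (T * stM) = 6 * (t / 2) := by
    rw [hTJ, Matrix.trace_add, Matrix.trace_smul, htr0, h1tr]; simp; ring
  have e2 : Matrix.trace (T * stM * (T * stM)) =
      Matrix.trace (opM S * stM * (opM S * stM)) + 6 * (t / 2) ^ 2 := by
    rw [hTJ]
    simp only [Matrix.add_mul, Matrix.mul_add, Matrix.trace_add, Matrix.smul_mul, Matrix.mul_smul,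
      Matrix.one_mul, Matrix.mul_one, Matrix.trace_smul, htr0, h1tr]
    simp; ring
  rw [e1, e2] at hcs
  rw [gb4_eq S h12 h34, hsym]
  nlinarith
end Pool.HopfKP
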