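import Pool.Agent.Lib.MP_4a593f_gt.KP.Kap1
import Pool.Agent.Lib.MP_4a593f_gt.KP.Milnor

/-!
The term quadratic in `R`: average of the 4-dimensional integrands over the coordinate subspaces.

Hint for `gb3_RRI_eq`: with `τ = σ * β`, the factor `cI (σ4) (σ5) (τ4) (τ5)` is nonzero only if `β`
preserves `{4,5}`; swapping `4, 5` gives the same term twice, so
`gb3 R R cI = 2 ∑_σ ∑_{β ∈ S₄} sgn β R(σ0,σ1,σβ0,σβ1) R(σ2,σ3,σβ2,σβ3)`, `S₄` acting on `0,..,3`.
Replace `σ` by `σ * α`, `α ∈ S₄`, and average over `α` (24 elements).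
-/

namespace Pool.HopfKP

open Finset Equiv

/-- restriction of `R` to a coordinate subspace -/
def sub4 (R : Ten) (w : Fin 4 → Fin 6) : Ten4 := fun i j k l => R (w i) (w j) (w k) (w l)

/-- the first four entries of a permutation -/
def fst4 (σ : Perm (Fin 6)) : Fin 4 → Fin 6 := fun i => σ (Fin.castAdd 2 i)

/-- the subgroup `S₄ × S₂` -/
private def ex (p : Perm (Fin 4) × Perm (Fin 2)) : Perm (Fin 6) :=
  (finSumFinEquiv : Fin 4 ⊕ Fin 2 ≃ Fin 6).permCongr (Equiv.Perm.sumCongr p.1 p.2)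

private theorem ex_cast (p : Perm (Fin 4) × Perm (Fin 2)) (i : Fin 4) :
    ex p (Fin.castAdd 2 i) = Fin.castAdd 2 (p.1 i) := by
  have h : (finSumFinEquiv : Fin 4 ⊕ Fin 2 ≃ Fin 6).symm (Fin.castAdd 2 i) = Sum.inl i :=
    finSumFinEquiv_symm_apply_castAdd i
  unfold ex
  rw [Equiv.permCongr_apply, h]
  rfl

private theorem ex_nat (p : Perm (Fin 4) × Perm (Fin 2)) (i : Fin 2) :
    ex p (Fin.natAdd 4 i) = Fin.natAdd 4 (p.2 i) := by
  have h : (finSumFinEquiv : Fin 4 ⊕ Fin 2 ≃ Fin 6).symm (Fin.natAdd 4 i) = Sum.inr i :=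
    finSumFinEquiv_symm_apply_natAdd i
  unfold ex
  rw [Equiv.permCongr_apply, h]
  rfl

private theorem sg_ex (p : Perm (Fin 4) × Perm (Fin 2)) : sg (ex p) = sg p.1 * sg p.2 := by
  unfold sg ex
  rw [Equiv.Perm.sign_permCongr, Equiv.Perm.sign_sumCongr]
  push_cast
  ring

private theorem ex_inj : Function.Injective ex := by
  intro p q h
  have h1 := (finSumFinEquiv : Fin 4 ⊕ Fin 2 ≃ Fin 6).permCongr.injective h
  exact Equiv.Perm.sumCongrHom_injective h1

private theorem ex_mul (α β : Perm (Fin 4)) : ex (α, 1) * ex (β, 1) = ex (α * β, 1) := by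
  ext x
  obtain ⟨y, rfl⟩ := (finSumFinEquiv : Fin 4 ⊕ Fin 2 ≃ Fin 6).surjective x
  rcases y with i | j
  · rw [finSumFinEquiv_apply_left, Perm.mul_apply, ex_cast, ex_cast, ex_cast]
    rfl
  · rw [finSumFinEquiv_apply_right, Perm.mul_apply, ex_nat, ex_nat, ex_nat]
    rfl

private theorem ex_surj (β : Perm (Fin 6)) (h : ∀ i : Fin 2, ∃ j : Fin 2,
    β (Fin.natAdd 4 i) = Fin.natAdd 4 j) : ∃ p, ex p = β := by
  have h1 : (finSumFinEquiv : Fin 4 ⊕ Fin 2 ≃ Fin 6).symm.permCongr β ∈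
      (Equiv.Perm.sumCongrHom (Fin 4) (Fin 2)).range := by
    apply Equiv.Perm.mem_sumCongrHom_range_of_perm_mapsTo_inl
    rintro _ ⟨i, rfl⟩
    by_contra hc
    have h2 : ∃ j : Fin 2, β (Fin.castAdd 2 i) = Fin.natAdd 4 j := by
      have h3 : ∃ j : Fin 2, (finSumFinEquiv : Fin 4 ⊕ Fin 2 ≃ Fin 6).symm.permCongr β
          (Sum.inl i) = Sum.inr j := by
        rcases h4 : (finSumFinEquiv : Fin 4 ⊕ Fin 2 ≃ Fin 6).symm.permCongr β (Sum.inl i) with a | b
        · exact absurd ⟨a, h4.symm⟩ hc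
        · exact ⟨b, rfl⟩
      obtain ⟨j, hj⟩ := h3
      refine ⟨j, ?_⟩
      rw [Equiv.permCongr_apply, Equiv.symm_symm, Equiv.symm_apply_eq] at hj
      exact hj
    -- the map `j ↦` image is injective on `Fin 2`, hence surjective
    choose g hg using h
    have hgi : Function.Injective g := by
      intro a b hab
      have : β (Fin.natAdd 4 a) = β (Fin.natAdd 4 b) := by rw [hg, hg, hab]
      have := β.injective this
      exact Fin.natAdd_injective 2 4 this
    obtain ⟨j, hj⟩ := h2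
    obtain ⟨a, ha⟩ := Finite.surjective_of_injective hgi j
    have : β (Fin.castAdd 2 i) = β (Fin.natAdd 4 a) := by rw [hj, hg, ha]
    have := β.injective this
    rw [Fin.ext_iff] at this
    simp at this
    omega
  obtain ⟨p, hp⟩ := h1
  refine ⟨p, ?_⟩
  unfold ex
  have h5 : Equiv.Perm.sumCongr p.1 p.2 = (finSumFinEquiv : Fin 4 ⊕ Fin 2 ≃ Fin 6).symm.permCongr β :=
    hp
  rw [h5]
  ext x
  simp [Equiv.permCongr_apply]

/-- the product of the two factors `R` -/
private def HH (R : Ten) (σ β : Perm (Fin 6)) : ℝ :=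
  R (σ 0) (σ 1) (σ (β 0)) (σ (β 1)) * R (σ 2) (σ 3) (σ (β 2)) (σ (β 3))

private theorem cI_inj (σ : Perm (Fin 6)) (i j k l : Fin 6) :
    cI (σ i) (σ j) (σ k) (σ l) = cI i j k l := by
  unfold cI
  simp only [EmbeddingLike.apply_eq_iff_eq]

private theorem sum_beta (R : Ten) (σ : Perm (Fin 6)) :
    ∑ β : Perm (Fin 6), sg β * (HH R σ β * cI 4 5 (β 4) (β 5)) =
      2 * ∑ α : Perm (Fin 4), sg α * HH R σ (ex (α, 1)) := by
  have h1 : ∑ β : Perm (Fin 6), sg β * (HH R σ β * cI 4 5 (β 4) (β 5)) =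
      ∑ p : Perm (Fin 4) × Perm (Fin 2), sg (ex p) * (HH R σ (ex p) * cI 4 5 (ex p 4) (ex p 5)) := by
    symm
    refine Finset.sum_of_injOn ex (fun a _ b _ h => ex_inj h) (fun a _ => Finset.mem_coe.2
      (Finset.mem_univ _)) ?_ (fun p _ => rfl)
    intro β _ hβ
    have hc : cI 4 5 (β 4) (β 5) = 0 := by
      by_contra hne
      apply hβ
      obtain ⟨p, hp⟩ : ∃ p, ex p = β := by
        apply ex_surj
        have h2 : (β 4 = 4 ∧ β 5 = 5) ∨ (β 4 = 5 ∧ β 5 = 4) := by
          unfold cI at hne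
          by_cases h3 : (4 : Fin 6) = β 4
          · by_cases h4 : (5 : Fin 6) = β 5
            · exact Or.inl ⟨h3.symm, h4.symm⟩
            · exfalso
              apply hne
              have h5 : ¬ (5 : Fin 6) = β 4 := by rw [← h3]; decide
              simp [h4, h5]
          · by_cases h4 : (5 : Fin 6) = β 4
            · by_cases h5 : (4 : Fin 6) = β 5
              · exact Or.inr ⟨h4.symm, h5.symm⟩
              · exfalso
                apply hne
                simp [h3, h5]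
            · exfalso
              apply hne
              simp [h3, h4]
        have e4 : (Fin.natAdd 4 (0 : Fin 2) : Fin 6) = 4 := rfl
        have e5 : (Fin.natAdd 4 (1 : Fin 2) : Fin 6) = 5 := rfl
        intro i
        fin_cases i
        · rcases h2 with h2 | h2
          · exact ⟨0, by simpa [e4] using h2.1⟩
          · exact ⟨1, by simpa [e4, e5] using h2.1⟩
        · rcases h2 with h2 | h2
          · exact ⟨1, by simpa [e5] using h2.2⟩
          · exact ⟨0, by simpa [e4, e5] using h2.2⟩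
      exact ⟨p, by simp, hp⟩
    rw [hc, mul_zero, mul_zero]
  rw [h1, Fintype.sum_prod_type, Finset.mul_sum]
  refine Finset.sum_congr rfl fun α _ => ?_
  have h2 : ∀ γ : Perm (Fin 2), sg (ex (α, γ)) * (HH R σ (ex (α, γ)) *
      cI 4 5 (ex (α, γ) 4) (ex (α, γ) 5)) = sg α * HH R σ (ex (α, 1)) := by
    intro γ
    have e4 : (4 : Fin 6) = Fin.natAdd 4 (0 : Fin 2) := rfl
    have e5 : (5 : Fin 6) = Fin.natAdd 4 (1 : Fin 2) := rfl
    have hH : HH R σ (ex (α, γ)) = HH R σ (ex (α, 1)) := by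
      have c0 : (0 : Fin 6) = Fin.castAdd 2 (0 : Fin 4) := rfl
      have c1 : (1 : Fin 6) = Fin.castAdd 2 (1 : Fin 4) := rfl
      have c2 : (2 : Fin 6) = Fin.castAdd 2 (2 : Fin 4) := rfl
      have c3 : (3 : Fin 6) = Fin.castAdd 2 (3 : Fin 4) := rfl
      unfold HH
      rw [c0, c1, c2, c3, ex_cast, ex_cast, ex_cast, ex_cast, ex_cast, ex_cast, ex_cast, ex_cast]
    have hcγ : cI 4 5 (ex (α, γ) 4) (ex (α, γ) 5) = sg γ := by
      rw [show ex (α, γ) 4 = Fin.natAdd 4 (γ 0) from ex_nat (α, γ) 0,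
        show ex (α, γ) 5 = Fin.natAdd 4 (γ 1) from ex_nat (α, γ) 1]
      have hγ : γ = 1 ∨ γ = Equiv.swap 0 1 := by
        clear hH
        revert γ
        decide
      rcases hγ with rfl | rfl
      · simp [cI, sg, e4, e5]
      · have : Perm.sign (Equiv.swap (0 : Fin 2) 1) = -1 := by decide
        unfold sg
        rw [this]
        simp [cI]
    have hs : sg γ * sg γ = 1 := by
      unfold sg
      rcases Int.units_eq_one_or (Perm.sign γ) with h | h <;> rw [h] <;> simp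
    rw [sg_ex, hH, hcγ]
    calc sg α * sg γ * (HH R σ (ex (α, 1)) * sg γ) = sg α * HH R σ (ex (α, 1)) * (sg γ * sg γ) := by
          ring
      _ = _ := by rw [hs, mul_one]
  rw [Finset.sum_congr rfl fun γ _ => h2 γ, Finset.sum_const, Finset.card_univ, nsmul_eq_mul]
  have : Fintype.card (Perm (Fin 2)) = 2 := by rw [Fintype.card_perm]; rfl
  rw [this]
  norm_num

private theorem sum_alpha (R : Ten) :
    ∑ σ : Perm (Fin 6), gb4 (sub4 R (fst4 σ)) =
      24 * ∑ σ : Perm (Fin 6), ∑ α : Perm (Fin 4), sg α * HH R σ (ex (α, 1)) := by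
  have h1 : ∀ σ : Perm (Fin 6), gb4 (sub4 R (fst4 σ)) =
      ∑ α : Perm (Fin 4), ∑ β : Perm (Fin 4), sg β * HH R (σ * ex (α, 1)) (ex (β, 1)) := by
    intro σ
    unfold gb4
    refine Finset.sum_congr rfl fun α _ => ?_
    symm
    refine Fintype.sum_equiv (Equiv.mulLeft α) _ _ fun β => ?_
    have hs : sg α * sg (α * β) = sg β := by
      have hs1 : sg α * sg α = 1 := by
        unfold sg
        rcases Int.units_eq_one_or (Perm.sign α) with h | h <;> rw [h] <;> simp
      rw [sg_mul, ← mul_assoc, hs1, one_mul]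
    have c0 : (0 : Fin 6) = Fin.castAdd 2 (0 : Fin 4) := rfl
    have c1 : (1 : Fin 6) = Fin.castAdd 2 (1 : Fin 4) := rfl
    have c2 : (2 : Fin 6) = Fin.castAdd 2 (2 : Fin 4) := rfl
    have c3 : (3 : Fin 6) = Fin.castAdd 2 (3 : Fin 4) := rfl
    rw [Equiv.coe_mulLeft, hs]
    unfold HH sub4 fst4
    rw [c0, c1, c2, c3]
    simp only [Perm.mul_apply, ex_cast]
  rw [Finset.sum_congr rfl fun σ _ => h1 σ, Finset.sum_comm]
  have h2 : ∀ α : Perm (Fin 4), ∑ σ : Perm (Fin 6), ∑ β : Perm (Fin 4),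
      sg β * HH R (σ * ex (α, 1)) (ex (β, 1)) =
      ∑ σ : Perm (Fin 6), ∑ β : Perm (Fin 4), sg β * HH R σ (ex (β, 1)) := by
    intro α
    exact Fintype.sum_equiv (Equiv.mulRight (ex (α, 1))) _ _ fun σ => rfl
  rw [Finset.sum_congr rfl fun α _ => h2 α, Finset.sum_const, Finset.card_univ, nsmul_eq_mul]
  have : Fintype.card (Perm (Fin 4)) = 24 := by rw [Fintype.card_perm]; rfl
  rw [this]
  norm_num

theorem gb3_RRI_eq (R : Ten) :
    gb3 R R cI = 1 / 12 * ∑ σ : Perm (Fin 6), gb4 (sub4 R (fst4 σ)) := by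
  have h1 : gb3 R R cI = ∑ σ : Perm (Fin 6),
      ∑ β : Perm (Fin 6), sg β * (HH R σ β * cI 4 5 (β 4) (β 5)) := by
    unfold gb3
    refine Finset.sum_congr rfl fun σ _ => ?_
    symm
    refine Fintype.sum_equiv (Equiv.mulLeft σ) _ _ fun β => ?_
    have hs : sg σ * sg (σ * β) = sg β := by
      have hs1 : sg σ * sg σ = 1 := by
        unfold sg
        rcases Int.units_eq_one_or (Perm.sign σ) with h | h <;> rw [h] <;> simp
      rw [sg_mul, ← mul_assoc, hs1, one_mul]
    rw [Equiv.coe_mulLeft, hs]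
    simp only [Perm.mul_apply]
    rw [cI_inj]
    rfl
  rw [h1, Finset.sum_congr rfl fun σ _ => sum_beta R σ, sum_alpha, ← Finset.mul_sum]
  ring

end Pool.HopfKP
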