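import Pool.Agent.Lib.MP_4a593f_gt.KP.Kap2

/-!
The term quadratic in `R` is nonnegative.
-/

namespace Pool.HopfKP

open Finset Equiv

/-- push forward of a vector of `ℝ⁴` under a map of indices -/
def pushV (w : Fin 4 → Fin 6) (u : Fin 4 → ℝ) : Vec := fun j => ∑ i, u i * if w i = j then 1 else 0

theorem sum_pushV (w : Fin 4 → Fin 6) (u : Fin 4 → ℝ) (F : Fin 6 → ℝ) :
    ∑ j, F j * pushV w u j = ∑ i, F (w i) * u i := by
  unfold pushV
  simp only [Finset.mul_sum]
  rw [Finset.sum_comm]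
  refine Finset.sum_congr rfl fun i _ => ?_
  rw [Finset.sum_eq_single (w i)]
  · simp
  · intro b _ hb; simp [Ne.symm hb]
  · simp

theorem sum_pushV4 (R : Ten) (w : Fin 4 → Fin 6) (a b c d : Fin 4 → ℝ) :
    ev R (pushV w a) (pushV w b) (pushV w c) (pushV w d) =
      ∑ i, ∑ j, ∑ k, ∑ l, sub4 R w i j k l * a i * b j * c k * d l := by
  unfold ev sub4
  have e1 : ∀ i, (∑ j, ∑ k, ∑ l, R i j k l * pushV w a i * pushV w b j * pushV w c k *
      pushV w d l) = (∑ j, (∑ k, (∑ l, R i j k l * pushV w d l) * pushV w c k) * pushV w b j) *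
        pushV w a i := by
    intro i
    simp only [Finset.sum_mul]
    exact Finset.sum_congr rfl fun j _ => Finset.sum_congr rfl fun k _ =>
      Finset.sum_congr rfl fun l _ => by ring
  rw [Finset.sum_congr rfl fun i _ => e1 i]
  simp only [sum_pushV]
  simp only [Finset.sum_mul]
  refine Finset.sum_congr rfl fun i _ => Finset.sum_congr rfl fun j _ =>
    Finset.sum_congr rfl fun k _ => Finset.sum_congr rfl fun l _ => ?_
  ring

theorem gb3_RRI {R : Ten} (hR : IsCurvature R) (hs : ∀ u w, 0 ≤ ev R u w u w) :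
    0 ≤ gb3 R R cI := by
  rw [gb3_RRI_eq]
  refine mul_nonneg (by norm_num) (Finset.sum_nonneg fun σ _ => ?_)
  refine milnor _ (fun i j k l => hR.skew12 _ _ _ _) (fun i j k l => hR.skew34 _ _ _ _)
    (fun i j k l => hR.bianchi _ _ _ _) (fun u w => ?_)
  rw [← sum_pushV4]
  exact hs _ _

end Pool.HopfKP
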