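import Pool.Agent.Lib.MP_4a593f_gt.KP.Nonneg
import Pool.Agent.Lib.MP_4a593f_gt.KP.Kappa

/-!
Main theorem.
-/

namespace Pool.HopfKP

open Finset Equiv

theorem main {R : Ten} (hR : IsCurvature R) {κ : ℝ} (hκ : 0 ≤ κ) (hs : SecGE R κ) {x y : Vec}
    (hxy : LinearIndependent ℝ ![x, y])
    (hz : ∀ u w, ev R x y u w = κ * (dot x u * dot y w - dot x w * dot y u)) :
    5760 * κ ^ 3 ≤ gb R := by
  set S : Ten := R + (-κ) • cI with hS
  have hRS : R = S + κ • cI := by
    rw [hS, add_assoc, ← add_smul]; simp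
  have hSc : IsCurvature S := curv_add hR (curv_smul _ cI_curv)
  have hS0 : ∀ u w, 0 ≤ ev S u w u w := by
    intro u w
    rw [hS, ev_add, ev_smul, ev_cI]
    have h1 := hs u w
    have h2 : dot w u = dot u w := by
      unfold dot; exact Finset.sum_congr rfl fun i _ => mul_comm _ _
    rw [h2]
    nlinarith
  have hSz : ∀ u w, ev S x y u w = 0 := by
    intro u w
    rw [hS, ev_add, ev_smul, ev_cI, hz]; ring
  have h1 := gb_nonneg hSc hS0 hxy hSz
  have h2 := gb3_RRI hSc hS0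
  have h3 := gb3_RII hSc hS0
  have h4 := gb_cI
  rw [hRS, gb_add, gb3_diag_smul, gb3_smul_right, gb3_smul_mid, gb3_smul_right, h4]
  have h5 := mul_nonneg hκ h2
  have h6 := mul_nonneg hκ (mul_nonneg hκ h3)
  nlinarith

end Pool.HopfKP
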