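import Pool.Agent.Lib.MP_4a593f_gt.KP.Basic

/-!
S-lemma for the wedge form on `ℝ⁶ = Λ²ℝ⁴`.

Proof. Write `Q x = x·Ax`, `W x = 2 (x₀x₃ + x₁x₄ + x₂x₅)`.  Claim: if `W x = 1`, `W y = -1` then
`Q x + Q y ≥ 0`.  In the plane spanned by `x, y` the form `W` is indefinite, let `n, m` be
null vectors with `x = s n + t m`, `y = s' n + t' m`; then `2 s t W(n,m) = 1`,
`2 s' t' W(n,m) = -1`, so `s t + s' t' = 0` and
`Q x + Q y = (s²+s'²) Q n + (t²+t'²) Q m ≥ 0`.  Hence `-Q x ≤ Q y` for all such `x, y`; let `t` be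
the supremum of `-Q x` over `W x = 1` and scale (`W x > 0`, `W x < 0`, `W x = 0`).
-/

namespace Pool.HopfKP

open Finset Equiv Matrix

/-- the wedge form -/
def wf (x : Fin 6 → ℝ) : ℝ := x 0 * x 3 + x 1 * x 4 + x 2 * x 5

private theorem wf_add_smul (x y : Fin 6 → ℝ) (s : ℝ) :
    wf (x + s • y) = wf x + s * (x 0 * y 3 + x 3 * y 0 + x 1 * y 4 + x 4 * y 1 + x 2 * y 5 +
      x 5 * y 2) + s ^ 2 * wf y := by
  unfold wf
  simp only [Pi.add_apply, Pi.smul_apply, smul_eq_mul]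
  ring

private theorem q_add_smul (A : Matrix (Fin 6) (Fin 6) ℝ) (hA : A.IsSymm) (x y : Fin 6 → ℝ)
    (s : ℝ) : (x + s • y) ⬝ᵥ A.mulVec (x + s • y) =
      x ⬝ᵥ A.mulVec x + 2 * s * (x ⬝ᵥ A.mulVec y) + s ^ 2 * (y ⬝ᵥ A.mulVec y) := by
  have h1 : y ⬝ᵥ A.mulVec x = x ⬝ᵥ A.mulVec y := by
    rw [Matrix.dotProduct_mulVec, ← Matrix.mulVec_transpose, hA.eq, dotProduct_comm]
  rw [Matrix.mulVec_add, Matrix.mulVec_smul, add_dotProduct, dotProduct_add, dotProduct_add,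
    smul_dotProduct, smul_dotProduct, dotProduct_smul, dotProduct_smul, h1]
  simp only [smul_eq_mul]
  ring

private theorem key (A : Matrix (Fin 6) (Fin 6) ℝ) (hA : A.IsSymm)
    (h : ∀ x : Fin 6 → ℝ, wf x = 0 → 0 ≤ x ⬝ᵥ A.mulVec x) (x y : Fin 6 → ℝ) (hx : 0 < wf x)
    (hy : wf y < 0) : 0 ≤ (- wf y) * (x ⬝ᵥ A.mulVec x) + wf x * (y ⬝ᵥ A.mulVec y) := by
  obtain ⟨γ, hγ⟩ : ∃ γ : ℝ, γ = x 0 * y 3 + x 3 * y 0 + x 1 * y 4 + x 4 * y 1 + x 2 * y 5 +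
      x 5 * y 2 := ⟨_, rfl⟩
  obtain ⟨α, hα⟩ : ∃ α : ℝ, α = wf x := ⟨_, rfl⟩
  obtain ⟨β, hβ⟩ : ∃ β : ℝ, β = - wf y := ⟨_, rfl⟩
  have hα0 : 0 < α := by rw [hα]; exact hx
  have hβ0 : 0 < β := by rw [hβ]; linarith
  have hD : 0 ≤ γ ^ 2 + 4 * α * β := by positivity
  obtain ⟨r, hr⟩ : ∃ r : ℝ, r = Real.sqrt (γ ^ 2 + 4 * α * β) := ⟨_, rfl⟩
  have hr2 : r ^ 2 = γ ^ 2 + 4 * α * β := by rw [hr]; exact Real.sq_sqrt hD
  have hr0 : 0 ≤ r := by rw [hr]; exact Real.sqrt_nonneg _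
  have hlt : γ ^ 2 < r ^ 2 := by
    rw [hr2]
    have : 0 < 4 * α * β := by positivity
    linarith
  have habs := abs_lt_of_sq_lt_sq hlt hr0
  rw [abs_lt] at habs
  obtain ⟨s1, hs1⟩ : ∃ s : ℝ, s = (γ - r) / (2 * β) := ⟨_, rfl⟩
  obtain ⟨s2, hs2⟩ : ∃ s : ℝ, s = (γ + r) / (2 * β) := ⟨_, rfl⟩
  have h2β : 0 < 2 * β := by linarith
  have hs1n : s1 < 0 := by rw [hs1]; exact div_neg_of_neg_of_pos (by linarith) h2β
  have hs2p : 0 < s2 := by rw [hs2]; exact div_pos (by linarith) h2β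
  have e1 : 2 * β * s1 = γ - r := by rw [hs1]; field_simp
  have e2 : 2 * β * s2 = γ + r := by rw [hs2]; field_simp
  have r1 : α + s1 * γ - s1 ^ 2 * β = 0 := by
    have : 4 * β * (α + s1 * γ - s1 ^ 2 * β) = 0 := by
      have : 4 * β * (α + s1 * γ - s1 ^ 2 * β) =
        4 * α * β + 2 * γ * (2 * β * s1) - (2 * β * s1) ^ 2 := by ring
      rw [this, e1]
      linear_combination -hr2
    rcases mul_eq_zero.1 this with h' | h'
    · linarith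
    · exact h'
  have r2 : α + s2 * γ - s2 ^ 2 * β = 0 := by
    have : 4 * β * (α + s2 * γ - s2 ^ 2 * β) = 0 := by
      have : 4 * β * (α + s2 * γ - s2 ^ 2 * β) =
        4 * α * β + 2 * γ * (2 * β * s2) - (2 * β * s2) ^ 2 := by ring
      rw [this, e2]
      linear_combination -hr2
    rcases mul_eq_zero.1 this with h' | h'
    · linarith
    · exact h'
  have q1 := h (x + s1 • y) (by rw [wf_add_smul, ← hγ, ← hα]; linear_combination r1 + s1 ^ 2 * hβ)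
  have q2 := h (x + s2 • y) (by rw [wf_add_smul, ← hγ, ← hα]; linear_combination r2 + s2 ^ 2 * hβ)
  rw [q_add_smul A hA] at q1 q2
  have hprod : β * (s1 * s2) = - α := by
    have : 4 * β * (β * (s1 * s2) + α) = 0 := by
      have : 4 * β * (β * (s1 * s2) + α) = (2 * β * s1) * (2 * β * s2) + 4 * α * β := by ring
      rw [this, e1, e2]
      linear_combination -hr2
    rcases mul_eq_zero.1 this with h' | h'
    · linarith
    · linarith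
  have hs21 : 0 < s2 - s1 := by linarith
  obtain ⟨X, hX⟩ : ∃ X : ℝ, X = x ⬝ᵥ A.mulVec x := ⟨_, rfl⟩
  obtain ⟨Y, hY⟩ : ∃ Y : ℝ, Y = y ⬝ᵥ A.mulVec y := ⟨_, rfl⟩
  obtain ⟨B, hB⟩ : ∃ B : ℝ, B = x ⬝ᵥ A.mulVec y := ⟨_, rfl⟩
  rw [← hX, ← hY, ← hB] at q1 q2
  rw [← hX, ← hY, ← hβ, ← hα]
  have c1 : 0 ≤ (s2 - s1) * (β * X + α * Y) := by
    have : (s2 - s1) * (β * X + α * Y) = β * s2 * (X + 2 * s1 * B + s1 ^ 2 * Y) +
        β * (-s1) * (X + 2 * s2 * B + s2 ^ 2 * Y) := by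
      linear_combination (s2 - s1) * Y * hprod
    rw [this]
    have p1 : 0 ≤ β * s2 := by positivity
    have p2 : 0 ≤ β * (-s1) := mul_nonneg hβ0.le (by linarith)
    exact add_nonneg (mul_nonneg p1 q1) (mul_nonneg p2 q2)
  exact nonneg_of_mul_nonneg_right c1 hs21

theorem s_lemma (A : Matrix (Fin 6) (Fin 6) ℝ) (hA : A.IsSymm)
    (h : ∀ x : Fin 6 → ℝ, wf x = 0 → 0 ≤ x ⬝ᵥ A.mulVec x) :
    ∃ t : ℝ, ∀ x : Fin 6 → ℝ, 0 ≤ x ⬝ᵥ A.mulVec x + t * wf x := by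
  have hk := key A hA h
  let S : Set ℝ := {t | ∃ x : Fin 6 → ℝ, 0 < wf x ∧ t = -(x ⬝ᵥ A.mulVec x) / wf x}
  have hub : ∀ y : Fin 6 → ℝ, wf y < 0 → (y ⬝ᵥ A.mulVec y) / (- wf y) ∈ upperBounds S := by
    rintro y hy t ⟨x, hx, rfl⟩
    rw [div_le_div_iff₀ hx (by linarith)]
    have := hk x y hx hy
    linarith
  have hne : S.Nonempty := by
    refine ⟨_, ![1, 0, 0, 1, 0, 0], ?_, rfl⟩
    simp [wf]
  have hy0 : wf ![1, 0, 0, -1, 0, 0] < 0 := by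
    simp [wf]
  have hbdd : BddAbove S := ⟨_, hub _ hy0⟩
  refine ⟨sSup S, fun x => ?_⟩
  rcases lt_trichotomy (wf x) 0 with hx | hx | hx
  · have h1 := csSup_le hne (hub x hx)
    rw [le_div_iff₀ (by linarith)] at h1
    linarith
  · rw [hx, mul_zero, add_zero]
    exact h x hx
  · have h1 : -(x ⬝ᵥ A.mulVec x) / wf x ≤ sSup S := le_csSup hbdd ⟨x, hx, rfl⟩
    rw [div_le_iff₀ hx] at h1
    linarith

end Pool.HopfKP
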