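import Pool.Agent.Lib.MP_4a593f_gt.KP.Core
import Pool.Agent.Lib.MP_4a593f_gt.KP.Atoms
import Pool.Agent.Lib.MP_4a593f_gt.KP.GL

/-!
Nonnegativity of the integrand for nonnegative sectional curvature and a plane in the kernel of
the curvature operator.
-/

namespace Pool.HopfKP

open Finset Equiv

/-- the value of `ev` on a tensor product -/
theorem ev_tens (α β : Arr) (u v w z : Vec) :
    ev (tens α β) u v w z = (∑ i, ∑ j, α i j * u i * v j) * ∑ k, ∑ l, β k l * w k * z l := by
  unfold ev tens
  rw [Finset.sum_mul]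
  refine Finset.sum_congr rfl fun i _ => ?_
  rw [Finset.sum_mul]
  refine Finset.sum_congr rfl fun j _ => ?_
  rw [Finset.mul_sum]
  refine Finset.sum_congr rfl fun k _ => ?_
  rw [Finset.mul_sum]
  exact Finset.sum_congr rfl fun l _ => by ring

theorem ev_add (R S : Ten) (u v w z : Vec) : ev (R + S) u v w z = ev R u v w z + ev S u v w z := by
  unfold ev
  simp only [← Finset.sum_add_distrib, Pi.add_apply, add_mul]

theorem ev_smul (c : ℝ) (R : Ten) (u v w z : Vec) : ev (c • R) u v w z = c * ev R u v w z := by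
  unfold ev
  simp only [Finset.mul_sum, Pi.smul_apply, smul_eq_mul, mul_assoc]

theorem ev_sum {ι : Type*} (s : Finset ι) (F : ι → Ten) (u v w z : Vec) :
    ev (∑ i ∈ s, F i) u v w z = ∑ i ∈ s, ev (F i) u v w z := by
  classical
  induction s using Finset.induction_on with
  | empty => simp [ev]
  | insert a s ha ih => rw [Finset.sum_insert ha, Finset.sum_insert ha, ev_add, ih]

theorem curv_add {R S : Ten} (hR : IsCurvature R) (hS : IsCurvature S) : IsCurvature (R + S) where
  skew12 i j k l := by simp only [Pi.add_apply, hR.skew12 i j, hS.skew12 i j]; ring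
  skew34 i j k l := by simp only [Pi.add_apply, hR.skew34 i j k l, hS.skew34 i j k l]; ring
  bianchi i j k l := by
    have h1 := hR.bianchi i j k l
    have h2 := hS.bianchi i j k l
    simp only [Pi.add_apply]; linarith

theorem curv_smul (c : ℝ) {R : Ten} (hR : IsCurvature R) : IsCurvature (c • R) where
  skew12 i j k l := by simp only [Pi.smul_apply, smul_eq_mul, hR.skew12 i j]; ring
  skew34 i j k l := by simp only [Pi.smul_apply, smul_eq_mul, hR.skew34 i j k l]; ring
  bianchi i j k l := by
    have h1 := hR.bianchi i j k l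
    simp only [Pi.smul_apply, smul_eq_mul]; rw [← mul_add, ← mul_add, h1, mul_zero]

theorem curv_sum {ι : Type*} (s : Finset ι) {F : ι → Ten} (h : ∀ i, IsCurvature (F i)) :
    IsCurvature (∑ i ∈ s, F i) := by
  classical
  induction s using Finset.induction_on with
  | empty =>
    exact ⟨fun _ _ _ _ => by simp, fun _ _ _ _ => by simp, fun _ _ _ _ => by simp⟩
  | insert a s ha ih => rw [Finset.sum_insert ha]; exact curv_add (h a) ih

/-- the square of a decomposable 2-form is a curvature tensor -/
theorem curv_wedge (V A : Vec) : IsCurvature (tens (wedge V A) (wedge V A)) where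
  skew12 i j k l := by simp only [tens, wedge]; ring
  skew34 i j k l := by simp only [tens, wedge]; ring
  bianchi i j k l := by simp only [tens, wedge]; ring

/-- the perturbation -/
def eT : Ten := ∑ p, ∑ t, tens (wedge (lp (eP p)) (lq (eQ t))) (wedge (lp (eP p)) (lq (eQ t)))

theorem eT_curv : IsCurvature eT := curv_sum _ fun _ => curv_sum _ fun _ => curv_wedge _ _

theorem eT_nonneg (u w : Vec) : 0 ≤ ev eT u w u w := by
  unfold eT
  simp only [ev_sum]
  refine Finset.sum_nonneg fun p _ => Finset.sum_nonneg fun t _ => ?_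
  rw [ev_tens]
  exact mul_self_nonneg _

theorem eT_zero (k l : Fin 6) : eT 0 1 k l = 0 := by
  simp [eT, tens, wedge, lp, lq, Finset.sum_apply]

theorem eT_bM (p : Fin 2) (t : Fin 4) (q : Fin 2) (u : Fin 4) :
    bM eT p t q u = if p = q ∧ t = u then 1 else 0 := by
  fin_cases p <;> fin_cases t <;> fin_cases q <;> fin_cases u <;>
    simp [bM, eT, tens, wedge, lp, lq, pI, qI, eP, eQ, Finset.sum_apply, Fin.sum_univ_four,
      Pi.single_apply]

theorem gb_nonneg_coord {R : Ten} (hR : IsCurvature R) (h0 : ∀ k l, R 0 1 k l = 0)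
    (hs : ∀ u w, 0 ≤ ev R u w u w) : 0 ≤ gb R := by
  -- positivity for the perturbed tensor
  have key : ∀ ε : ℝ, 0 < ε → 0 ≤ gb (R + ε • eT) := by
    intro ε hε
    have hR' : IsCurvature (R + ε • eT) := curv_add hR (curv_smul ε eT_curv)
    have h0' : ∀ k l, (R + ε • eT) 0 1 k l = 0 := by
      intro k l
      simp [h0 k l, eT_zero k l]
    have hs' : ∀ u w, 0 ≤ ev (R + ε • eT) u w u w := by
      intro u w
      rw [ev_add, ev_smul]
      have := hs u w
      have := mul_nonneg hε.le (eT_nonneg u w)
      linarith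
    have hsym : ∀ p t q u, bM (R + ε • eT) q u p t = bM (R + ε • eT) p t q u := by
      intro p t q u
      exact hR'.pair _ _ _ _
    have hB : ∀ p t q u, bM (R + ε • eT) p u q t = bM (R + ε • eT) p t q u := by
      intro p t q u
      unfold bM
      generalize hS : R + ε • eT = S at *
      have h01 : ∀ k l, S 1 0 k l = 0 := fun k l => by rw [hR'.skew12, h0', neg_zero]
      fin_cases p <;> fin_cases q
      · exact hR'.pair _ _ _ _
      · have b := hR'.bianchi 0 (qI u) 1 (qI t)
        have e1 := h01 (qI u) (qI t)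
        have e2 := hR'.skew12 1 (qI u) 0 (qI t)
        have e3 := hR'.pair 0 (qI t) 1 (qI u)
        have e4 := hR'.skew12 (qI u) 1 0 (qI t)
        simp only [pI, Matrix.cons_val_zero, Matrix.cons_val_one, Fin.zero_eta, Fin.mk_one,
          Fin.isValue]
        linarith
      · have b := hR'.bianchi 0 (qI u) 1 (qI t)
        have b2 := hR'.bianchi 0 (qI t) 1 (qI u)
        have e1 := h01 (qI u) (qI t)
        have e1' := h01 (qI t) (qI u)
        have e2 := hR'.skew12 1 (qI u) 0 (qI t)
        have e2' := hR'.skew12 1 (qI t) 0 (qI u)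
        have e3 := hR'.pair 0 (qI t) 1 (qI u)
        have e3' := hR'.pair 0 (qI u) 1 (qI t)
        simp only [pI, Matrix.cons_val_zero, Matrix.cons_val_one, Fin.zero_eta, Fin.mk_one,
          Fin.isValue]
        linarith
      · exact hR'.pair _ _ _ _
    have hpos : ∀ f : Fin 2 → Fin 4 → ℝ, f ≠ 0 →
        0 < ∑ p, ∑ t, ∑ q, ∑ u, f p t * f q u * bM (R + ε • eT) p t q u := by
      intro f hf
      have e : ∀ p t q u, f p t * f q u * bM (R + ε • eT) p t q u =
          f p t * f q u * bM R p t q u + ε * (f p t * f q u * if p = q ∧ t = u then 1 else 0) := by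
        intro p t q u
        rw [← eT_bM]
        simp only [bM, Pi.add_apply, Pi.smul_apply, smul_eq_mul]; ring
      simp only [e, Finset.sum_add_distrib, ← Finset.mul_sum]
      have h1 := bM_nonneg hR h0 hs f
      have h2 : ∀ p t, (∑ q, ∑ u, f q u * if p = q ∧ t = u then (1 : ℝ) else 0) = f p t := by
        intro p t
        rw [Finset.sum_eq_single p, Finset.sum_eq_single t]
        · simp
        · intro b _ hb; simp [Ne.symm hb]
        · simp
        · intro b _ hb
          exact Finset.sum_eq_zero fun u _ => by simp [Ne.symm hb]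
        · simp
      have h3 : ∑ p, ∑ t, ∑ q, ∑ u, f p t * f q u * (if p = q ∧ t = u then (1 : ℝ) else 0) =
          ∑ p, ∑ t, f p t ^ 2 := by
        refine Finset.sum_congr rfl fun p _ => Finset.sum_congr rfl fun t _ => ?_
        rw [sq]
        nth_rewrite 3 [← h2 p t]
        rw [Finset.mul_sum]
        refine Finset.sum_congr rfl fun q _ => ?_
        rw [Finset.mul_sum]
        exact Finset.sum_congr rfl fun u _ => by ring
      have h4 : 0 < ∑ p, ∑ t, f p t ^ 2 := by
        by_contra hc
        apply hf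
        have hz : ∑ p, ∑ t, f p t ^ 2 = 0 :=
          le_antisymm (not_lt.1 hc) (Finset.sum_nonneg fun p _ => Finset.sum_nonneg fun t _ =>
            sq_nonneg _)
        funext p t
        have hz1 := (Finset.sum_eq_zero_iff_of_nonneg (fun p _ =>
          Finset.sum_nonneg fun t _ => sq_nonneg (f p t))).1 hz p (Finset.mem_univ p)
        have hz2 := (Finset.sum_eq_zero_iff_of_nonneg (fun t _ => sq_nonneg (f p t))).1 hz1 t
          (Finset.mem_univ t)
        exact pow_eq_zero_iff (two_ne_zero) |>.1 hz2
      have h5 := mul_pos hε h4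
      rw [← h3] at h5
      linarith
    obtain ⟨v, a, hM, ha, hsp⟩ := exists_atoms (bM (R + ε • eT)) hsym hB hpos
    refine core hR' h0' hs' v a hM ha ?_ hsp
    intro f hf
    by_contra hne
    have := hpos f hne
    rw [Mq_eq v a hM, hf] at this
    exact lt_irrefl _ this
  -- limit
  have hexp : ∀ ε : ℝ, gb (R + ε • eT) =
      gb R + ε * (3 * gb3 R R eT) + ε ^ 2 * (3 * gb3 R eT eT) + ε ^ 3 * gb eT := by
    intro ε
    rw [gb_add, gb3_diag_smul, gb3_smul_right, gb3_smul_mid, gb3_smul_right]
    ring
  have hcont : Filter.Tendsto (fun ε : ℝ => gb (R + ε • eT)) (nhdsWithin 0 (Set.Ioi 0))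
      (nhds (gb R)) := by
    have hc : Continuous fun ε : ℝ =>
        gb R + ε * (3 * gb3 R R eT) + ε ^ 2 * (3 * gb3 R eT eT) + ε ^ 3 * gb eT := by
      fun_prop
    have h := (hc.tendsto 0).mono_left (nhdsWithin_le_nhds (s := Set.Ioi (0 : ℝ)))
    simp only [hexp]
    simpa using h
  refine ge_of_tendsto hcont ?_
  filter_upwards [self_mem_nhdsWithin] with ε hε
  exact key ε hε

theorem gb_nonneg {R : Ten} (hR : IsCurvature R) (hs : ∀ u w, 0 ≤ ev R u w u w) {x y : Vec}
    (hxy : LinearIndependent ℝ ![x, y]) (hz : ∀ u w, ev R x y u w = 0) : 0 ≤ gb R := by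
  obtain ⟨z1, h1⟩ := exists_linearIndependent_snoc_of_lt_finrank hxy (by simp)
  obtain ⟨z2, h2⟩ := exists_linearIndependent_snoc_of_lt_finrank h1 (by simp)
  obtain ⟨z3, h3⟩ := exists_linearIndependent_snoc_of_lt_finrank h2 (by simp)
  obtain ⟨z4, h4⟩ := exists_linearIndependent_snoc_of_lt_finrank h3 (by simp)
  set g : Fin 6 → Vec := Fin.snoc (Fin.snoc (Fin.snoc (Fin.snoc ![x, y] z1) z2) z3) z4 with hg
  have g0 : g 0 = x := by
    rw [hg]; simp [Fin.snoc]
  have g1 : g 1 = y := by
    rw [hg]; simp [Fin.snoc]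
  have hdet : Matrix.det (Matrix.of g) ≠ 0 := by
    have : LinearIndependent ℝ (Matrix.of g).row := h4
    have h5 := Matrix.linearIndependent_rows_iff_isUnit.1 this
    exact ((Matrix.isUnit_iff_isUnit_det _).1 h5).ne_zero
  have h6 : 0 ≤ gb (act g R) := by
    refine gb_nonneg_coord (act_curv hR) (fun k l => ?_) (fun u w => ?_)
    · unfold act
      rw [g0, g1]; exact hz _ _
    · rw [ev_act]; exact hs _ _
  rw [gb_act] at h6
  have h7 : 0 < (Matrix.det (Matrix.of g)) ^ 2 := by positivity
  exact nonneg_of_mul_nonneg_right (by linarith) h7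

end Pool.HopfKP
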