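import Pool.Agent.Lib.MP_4a593f_gt.KP.CoreDefs

/-!
Nonnegative sectional curvature and `R(e₀,e₁,·,·) = 0`: the block `M` is positive semidefinite.

Hint. Let `q = f 0`, `q' = f 1` in `ℝ⁴`. For `δ ≠ 0` take `u = e₀ + δ q'` (i.e. `lp ![1,0]`
plus `δ • lq (f 1)`) and `w = lq (f 0) - δ⁻¹ e₁`.  Using the symmetries of `R` (pair symmetry
`IsCurvature.pair` included) and `R(e₀,e₁,·,·) = 0` one finds
`ev R u w u w = M(f,f) + δ L + δ² N` with `M(f,f)` the sum below and `L, N` independent of `δ`
(the form `R` sees only `u ∧ w = e₀∧q - δ⁻¹ e₀∧e₁ + δ q'∧q + e₁∧q'`).  Let `δ → 0`.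
-/

namespace Pool.HopfKP

open Finset Equiv

private theorem ev_add1 (R : Ten) (u u' v w z : Vec) :
    ev R (u + u') v w z = ev R u v w z + ev R u' v w z := by
  unfold ev
  simp only [← Finset.sum_add_distrib]
  refine Finset.sum_congr rfl fun i _ => Finset.sum_congr rfl fun j _ =>
    Finset.sum_congr rfl fun k _ => Finset.sum_congr rfl fun l _ => ?_
  simp only [Pi.add_apply]
  ring

private theorem ev_add2 (R : Ten) (u v v' w z : Vec) :
    ev R u (v + v') w z = ev R u v w z + ev R u v' w z := by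
  unfold ev
  simp only [← Finset.sum_add_distrib]
  refine Finset.sum_congr rfl fun i _ => Finset.sum_congr rfl fun j _ =>
    Finset.sum_congr rfl fun k _ => Finset.sum_congr rfl fun l _ => ?_
  simp only [Pi.add_apply]
  ring

private theorem ev_add3 (R : Ten) (u v w w' z : Vec) :
    ev R u v (w + w') z = ev R u v w z + ev R u v w' z := by
  unfold ev
  simp only [← Finset.sum_add_distrib]
  refine Finset.sum_congr rfl fun i _ => Finset.sum_congr rfl fun j _ =>
    Finset.sum_congr rfl fun k _ => Finset.sum_congr rfl fun l _ => ?_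
  simp only [Pi.add_apply]
  ring

private theorem ev_add4 (R : Ten) (u v w z z' : Vec) :
    ev R u v w (z + z') = ev R u v w z + ev R u v w z' := by
  unfold ev
  simp only [← Finset.sum_add_distrib]
  refine Finset.sum_congr rfl fun i _ => Finset.sum_congr rfl fun j _ =>
    Finset.sum_congr rfl fun k _ => Finset.sum_congr rfl fun l _ => ?_
  simp only [Pi.add_apply]
  ring

private theorem ev_smul1 (R : Ten) (c : ℝ) (u v w z : Vec) :
    ev R (c • u) v w z = c * ev R u v w z := by
  unfold ev
  simp only [Finset.mul_sum]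
  refine Finset.sum_congr rfl fun i _ => Finset.sum_congr rfl fun j _ =>
    Finset.sum_congr rfl fun k _ => Finset.sum_congr rfl fun l _ => ?_
  simp only [Pi.smul_apply, smul_eq_mul]
  ring

private theorem ev_smul2 (R : Ten) (c : ℝ) (u v w z : Vec) :
    ev R u (c • v) w z = c * ev R u v w z := by
  unfold ev
  simp only [Finset.mul_sum]
  refine Finset.sum_congr rfl fun i _ => Finset.sum_congr rfl fun j _ =>
    Finset.sum_congr rfl fun k _ => Finset.sum_congr rfl fun l _ => ?_
  simp only [Pi.smul_apply, smul_eq_mul]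
  ring

private theorem ev_smul3 (R : Ten) (c : ℝ) (u v w z : Vec) :
    ev R u v (c • w) z = c * ev R u v w z := by
  unfold ev
  simp only [Finset.mul_sum]
  refine Finset.sum_congr rfl fun i _ => Finset.sum_congr rfl fun j _ =>
    Finset.sum_congr rfl fun k _ => Finset.sum_congr rfl fun l _ => ?_
  simp only [Pi.smul_apply, smul_eq_mul]
  ring

private theorem ev_smul4 (R : Ten) (c : ℝ) (u v w z : Vec) :
    ev R u v w (c • z) = c * ev R u v w z := by
  unfold ev
  simp only [Finset.mul_sum]
  refine Finset.sum_congr rfl fun i _ => Finset.sum_congr rfl fun j _ =>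
    Finset.sum_congr rfl fun k _ => Finset.sum_congr rfl fun l _ => ?_
  simp only [Pi.smul_apply, smul_eq_mul]
  ring

private theorem ev_pair {R : Ten} (hR : IsCurvature R) (u v w z : Vec) :
    ev R w z u v = ev R u v w z := by
  unfold ev
  calc ∑ i, ∑ j, ∑ k, ∑ l, R i j k l * w i * z j * u k * v l
      = ∑ i, ∑ j, ∑ k, ∑ l, R k l i j * w i * z j * u k * v l := by
        refine Finset.sum_congr rfl fun i _ => Finset.sum_congr rfl fun j _ =>
          Finset.sum_congr rfl fun k _ => Finset.sum_congr rfl fun l _ => ?_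
        rw [hR.pair i j k l]
    _ = ∑ i, ∑ k, ∑ j, ∑ l, R k l i j * w i * z j * u k * v l :=
        Finset.sum_congr rfl fun i _ => Finset.sum_comm
    _ = ∑ k, ∑ i, ∑ j, ∑ l, R k l i j * w i * z j * u k * v l := Finset.sum_comm
    _ = ∑ k, ∑ i, ∑ l, ∑ j, R k l i j * w i * z j * u k * v l :=
        Finset.sum_congr rfl fun k _ => Finset.sum_congr rfl fun i _ => Finset.sum_comm
    _ = ∑ k, ∑ l, ∑ i, ∑ j, R k l i j * w i * z j * u k * v l :=
        Finset.sum_congr rfl fun k _ => Finset.sum_comm
    _ = ∑ k, ∑ l, ∑ i, ∑ j, R k l i j * u k * v l * w i * z j := by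
        refine Finset.sum_congr rfl fun i _ => Finset.sum_congr rfl fun j _ =>
          Finset.sum_congr rfl fun k _ => Finset.sum_congr rfl fun l _ => ?_
        ring

private theorem ev_skew {R : Ten} (hR : IsCurvature R) (u v w z : Vec) :
    ev R v u w z = - ev R u v w z := by
  unfold ev
  rw [← Finset.sum_neg_distrib]
  rw [Finset.sum_comm]
  refine Finset.sum_congr rfl fun i _ => ?_
  rw [← Finset.sum_neg_distrib]
  refine Finset.sum_congr rfl fun j _ => ?_
  rw [← Finset.sum_neg_distrib]
  refine Finset.sum_congr rfl fun k _ => ?_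
  rw [← Finset.sum_neg_distrib]
  refine Finset.sum_congr rfl fun l _ => ?_
  rw [hR.skew12 i j k l]
  ring

private theorem ev_h0 {R : Ten} (h0 : ∀ k l, R 0 1 k l = 0) (w z : Vec) :
    ev R (Pi.single 0 1) (Pi.single 1 1) w z = 0 := by
  unfold ev
  refine Finset.sum_eq_zero fun i _ => Finset.sum_eq_zero fun j _ =>
    Finset.sum_eq_zero fun k _ => Finset.sum_eq_zero fun l _ => ?_
  by_cases hi : i = 0
  · by_cases hj : j = 1
    · subst hi
      subst hj
      rw [h0]
      ring
    · rw [Pi.single_eq_of_ne hj]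
      ring
  · rw [Pi.single_eq_of_ne hi]
    ring

private theorem ev_block (R : Ten) (x x' : Fin 6) (y y' : Fin 4 → ℝ) :
    ev R (Pi.single x 1) (lq y) (Pi.single x' 1) (lq y') =
      ∑ t, ∑ u, y t * y' u * R x (qI t) x' (qI u) := by
  have h1 : ev R (Pi.single x 1) (lq y) (Pi.single x' 1) (lq y') =
      ∑ j, ∑ l, R x j x' l * lq y j * lq y' l := by
    unfold ev
    rw [Finset.sum_eq_single x]
    · refine Finset.sum_congr rfl fun j _ => ?_
      rw [Finset.sum_eq_single x']
      · refine Finset.sum_congr rfl fun l _ => ?_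
        rw [Pi.single_eq_same, Pi.single_eq_same]
        ring
      · intro k _ hk
        refine Finset.sum_eq_zero fun l _ => ?_
        rw [Pi.single_eq_of_ne hk]
        ring
      · intro h
        exact absurd (Finset.mem_univ _) h
    · intro i _ hi
      refine Finset.sum_eq_zero fun j _ => Finset.sum_eq_zero fun k _ =>
        Finset.sum_eq_zero fun l _ => ?_
      rw [Pi.single_eq_of_ne hi]
      ring
    · intro h
      exact absurd (Finset.mem_univ _) h
  rw [h1]
  simp only [Fin.sum_univ_six, Fin.sum_univ_four, lq, qI]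
  simp
  ring

/-- the block `M` is positive semidefinite -/
theorem bM_nonneg {R : Ten} (hR : IsCurvature R) (h0 : ∀ k l, R 0 1 k l = 0)
    (hs : ∀ u w, 0 ≤ ev R u w u w) (f : Fin 2 → Fin 4 → ℝ) :
    0 ≤ ∑ p, ∑ t, ∑ q, ∑ u, f p t * f q u * bM R p t q u := by
  set a : Vec := Pi.single 0 1 with ha
  set b : Vec := Pi.single 1 1 with hb
  set q : Vec := lq (f 0) with hq
  set p : Vec := lq (f 1) with hp
  have hab : ∀ w z, ev R a b w z = 0 := ev_h0 h0
  have hab' : ∀ w z, ev R w z a b = 0 := fun w z => by rw [ev_pair hR a b w z, hab]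
  have key : ∀ δ : ℝ, δ ≠ 0 → 0 ≤ (ev R a q a q + 2 * ev R a q b p + ev R b p b p) +
      δ * (2 * ev R a q p q + 2 * ev R b p p q) + δ ^ 2 * ev R p q p q := by
    intro δ hδ
    have h1 := hs (a + δ • p) (q + (-δ⁻¹) • b)
    simp only [ev_add1, ev_add2, ev_add3, ev_add4, ev_smul1, ev_smul2, ev_smul3, ev_smul4,
      hab, hab'] at h1
    have s1 : ∀ w z, ev R p b w z = - ev R b p w z := fun w z => ev_skew hR b p w z
    have s2 : ∀ w z, ev R w z p b = - ev R w z b p := fun w z => by
      rw [ev_pair hR p b w z, s1, ev_pair hR w z b p]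
    have s3 : ev R b p a q = ev R a q b p := ev_pair hR a q b p
    have s4 : ev R p q a q = ev R a q p q := ev_pair hR a q p q
    have s5 : ev R p q b p = ev R b p p q := ev_pair hR b p p q
    simp only [s1, s2, s3, s4, s5] at h1
    have e : δ * δ⁻¹ = 1 := mul_inv_cancel₀ hδ
    generalize δ⁻¹ = ε at h1 e
    have h2 : (ev R a q a q + 2 * ev R a q b p + ev R b p b p) +
        δ * (2 * ev R a q p q + 2 * ev R b p p q) + δ ^ 2 * ev R p q p q =
        (ev R a q a q + 2 * (δ * ε) * ev R a q b p + (δ * ε) ^ 2 * ev R b p b p) +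
        δ * (2 * ev R a q p q + 2 * (δ * ε) * ev R b p p q) + δ ^ 2 * ev R p q p q := by
      rw [e]
      ring
    rw [h2]
    refine le_of_le_of_eq h1 ?_
    ring
  have hM : ∑ p, ∑ t, ∑ q, ∑ u, f p t * f q u * bM R p t q u =
      ev R a q a q + 2 * ev R a q b p + ev R b p b p := by
    have s3 : ev R b p a q = ev R a q b p := ev_pair hR a q b p
    have e1 : ev R a q a q + 2 * ev R a q b p + ev R b p b p =
        ev R a q a q + ev R a q b p + (ev R b p a q + ev R b p b p) := by
      rw [s3]
      ring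
    rw [e1, ha, hb, hq, hp, ev_block, ev_block, ev_block, ev_block]
    simp only [Fin.sum_univ_two, bM]
    simp only [Finset.sum_add_distrib]
    simp only [pI, Matrix.cons_val_zero, Matrix.cons_val_one]
  rw [hM]
  by_contra hneg
  have hneg' : ev R a q a q + 2 * ev R a q b p + ev R b p b p < 0 := lt_of_not_ge hneg
  generalize ev R a q a q + 2 * ev R a q b p + ev R b p b p = m at key hneg'
  generalize 2 * ev R a q p q + 2 * ev R b p p q = l at key
  generalize ev R p q p q = n at key
  have hden : 0 < 2 * (|l| + |n| + 1) := by positivity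
  have hδ : 0 < min 1 (-m / (2 * (|l| + |n| + 1))) :=
    lt_min one_pos (div_pos (by linarith) hden)
  have h1 := key _ hδ.ne'
  have h2 : min 1 (-m / (2 * (|l| + |n| + 1))) ≤ 1 := min_le_left _ _
  have h3 : min 1 (-m / (2 * (|l| + |n| + 1))) * (2 * (|l| + |n| + 1)) ≤ -m := by
    rw [← le_div_iff₀ hden]
    exact min_le_right _ _
  generalize min 1 (-m / (2 * (|l| + |n| + 1))) = δ at h1 h2 h3 hδ
  have h4 : δ * l ≤ δ * |l| := mul_le_mul_of_nonneg_left (le_abs_self _) hδ.le
  have h5 : δ ^ 2 * n ≤ δ * |n| := by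
    have h6 : δ ^ 2 ≤ δ := by nlinarith
    calc δ ^ 2 * n ≤ δ ^ 2 * |n| := mul_le_mul_of_nonneg_left (le_abs_self _) (by positivity)
      _ ≤ δ * |n| := mul_le_mul_of_nonneg_right h6 (abs_nonneg _)
  nlinarith

end Pool.HopfKP
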