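import Pool.Agent.Lib.MP_4a593f_gt.KP.CoreDefs

/-!
Degree count: the polarised integrand vanishes unless the `P`-degrees add up to `(2,2)`.
-/

namespace Pool.HopfKP

open Finset Equiv

/-- `1` on the indices `0, 1` of `P`, `0` on the indices of `Q` -/
def cnt (i : Fin 6) : ℕ := if i.val < 2 then 1 else 0

/-- `R` is homogeneous of `P`-degree `m` in the first pair and `n` in the second pair -/
def Hom (R : Ten) (m n : ℕ) : Prop :=
  ∀ i j k l, R i j k l ≠ 0 → cnt i + cnt j = m ∧ cnt k + cnt l = n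

theorem cnt_perm (σ : Perm (Fin 6)) :
    (cnt (σ 0) + cnt (σ 1)) + (cnt (σ 2) + cnt (σ 3)) + (cnt (σ 4) + cnt (σ 5)) = 2 := by
  have h : ∑ i, cnt (σ i) = ∑ i, cnt i := Equiv.sum_comp σ cnt
  have h2 : ∑ i, cnt i = 2 := by decide
  rw [h2, Fin.sum_univ_six] at h
  omega

theorem gb3_hom_zero {R S U : Ten} {a a' b b' c c' : ℕ} (hR : Hom R a a') (hS : Hom S b b')
    (hU : Hom U c c') (h : a + b + c ≠ 2 ∨ a' + b' + c' ≠ 2) : gb3 R S U = 0 := by
  unfold gb3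
  refine Finset.sum_eq_zero fun σ _ => Finset.sum_eq_zero fun τ _ => ?_
  by_contra hne
  have h1 := right_ne_zero_of_mul hne
  have h2 := left_ne_zero_of_mul h1
  have hU0 := hU _ _ _ _ (right_ne_zero_of_mul h1)
  have hR0 := hR _ _ _ _ (left_ne_zero_of_mul h2)
  have hS0 := hS _ _ _ _ (right_ne_zero_of_mul h2)
  have c1 := cnt_perm σ
  have c2 := cnt_perm τ
  rw [hR0.1, hS0.1, hU0.1] at c1
  rw [hR0.2, hS0.2, hU0.2] at c2
  rcases h with h | h
  · exact h c1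
  · exact h c2

theorem Hom.add {R S : Ten} {a b : ℕ} (hR : Hom R a b) (hS : Hom S a b) : Hom (R + S) a b := by
  intro i j k l h
  by_cases h1 : R i j k l = 0
  · by_cases h2 : S i j k l = 0
    · exact absurd (by simp only [Pi.add_apply]; rw [h1, h2, add_zero]) h
    · exact hS _ _ _ _ h2
  · exact hR _ _ _ _ h1

theorem Hom.sum {ι : Type*} (s : Finset ι) {R : ι → Ten} {a b : ℕ} (h : ∀ i, Hom (R i) a b) :
    Hom (∑ i ∈ s, R i) a b := by
  intro i j k l hne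
  simp only [Finset.sum_apply] at hne
  obtain ⟨m, -, hm⟩ := Finset.exists_ne_zero_of_sum_ne_zero hne
  exact h m _ _ _ _ hm

theorem wedge_deg (v : Fin 2 → ℝ) (a : Fin 4 → ℝ) (i j : Fin 6)
    (h : wedge (lp v) (lq a) i j ≠ 0) : cnt i + cnt j = 1 := by
  fin_cases i <;> fin_cases j <;>
    first
    | rfl
    | exact absurd (by simp [wedge, lp, lq]) h

theorem lq2_deg (ζ : Fin 4 → Fin 4 → ℝ) (i j : Fin 6)
    (h : lq2 ζ i j ≠ 0) : cnt i + cnt j = 0 := by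
  fin_cases i <;> fin_cases j <;>
    first
    | rfl
    | exact absurd (by simp [lq2]) h

/-- `tens (v ∧ a) (w ∧ b)` -/
theorem hom_ww (v w : Fin 2 → ℝ) (a b : Fin 4 → ℝ) :
    Hom (tens (wedge (lp v) (lq a)) (wedge (lp w) (lq b))) 1 1 := fun i j k l h =>
  ⟨wedge_deg v a i j (left_ne_zero_of_mul h), wedge_deg w b k l (right_ne_zero_of_mul h)⟩

theorem hom_wq (v : Fin 2 → ℝ) (a : Fin 4 → ℝ) (ζ : Fin 4 → Fin 4 → ℝ) :
    Hom (tens (wedge (lp v) (lq a)) (lq2 ζ)) 1 0 := fun i j k l h =>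
  ⟨wedge_deg v a i j (left_ne_zero_of_mul h), lq2_deg ζ k l (right_ne_zero_of_mul h)⟩

theorem hom_qw (v : Fin 2 → ℝ) (a : Fin 4 → ℝ) (ζ : Fin 4 → Fin 4 → ℝ) :
    Hom (tens (lq2 ζ) (wedge (lp v) (lq a))) 0 1 := fun i j k l h =>
  ⟨lq2_deg ζ i j (left_ne_zero_of_mul h), wedge_deg v a k l (right_ne_zero_of_mul h)⟩

theorem hom_qq (ξ ζ : Fin 4 → Fin 4 → ℝ) : Hom (tens (lq2 ξ) (lq2 ζ)) 0 0 := fun i j k l h =>
  ⟨lq2_deg ξ i j (left_ne_zero_of_mul h), lq2_deg ζ k l (right_ne_zero_of_mul h)⟩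

end Pool.HopfKP
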